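import Pool.Agent.H46.KO.Xd

/-!
# The fact `e1` on the region `Rx`, `b = θ + e`, `p = θ - e`

`sin p cos p = sin (2p)/2 <= 1/2`, so it is enough that (`M b = 2 sin^2 b - 2 b sin b cos b + b -
sin b cos b = 1 - cos 2b - b sin 2b + b - sin (2b)/2`)
`cos θ * M b >= sin^3 b` (ratio `>= 1.0335` on the region, smallest at `θ = .98`, `e = .05`).
For fixed `b` the worst `θ` is the largest, `θ <= min (1.05, (b + 2.4)/3.5)` (from
`e >= 5/2 (θ - .96)`), and `cos θ >= .5570 - .8494 (θ - .98)` on `[.98, 1.05]` (chord, concavity).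
This leaves an inequality in `b ∈ [1.03, π/2]` alone (put `b = π/2 - β`, `0 <= β <= .541`, Taylor
bounds of `Tay`): with `c = .5570 - .8494 ((b + 2.4)/3.5 - .98)` for `b <= 1.275` and `c = .4975`
for `b >= 1.275`. The quotient `c M b/sin^3 b` increases in `b` (`1.0335` at `1.03`).
-/

open Real

namespace Pool.Agent.H46.KO

private theorem x1_chord {θ : ℝ} (h0 : 49 / 50 ≤ θ) (h1 : θ ≤ 21 / 20) :
    5570 / 10000 - 85 / 100 * (θ - 49 / 50) ≤ cos θ := by
  have hc := strictConcaveOn_cos_Icc.concaveOn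
  have hm0 : (49 / 50 : ℝ) ∈ Set.Icc (-(π / 2)) (π / 2) := by
    constructor <;> linarith [pi_gt_three]
  have hm1 : (21 / 20 : ℝ) ∈ Set.Icc (-(π / 2)) (π / 2) := by
    constructor <;> linarith [pi_gt_three]
  have ht0 : 0 ≤ (21 / 20 - θ) / (7 / 100) := by
    apply div_nonneg _ (by norm_num)
    linarith
  have ht1 : 0 ≤ (θ - 49 / 50) / (7 / 100) := by
    apply div_nonneg _ (by norm_num)
    linarith
  have h := hc.2 hm0 hm1 ht0 ht1 (by field_simp; ring)
  have e1 : ((21 / 20 - θ) / (7 / 100)) • (49 / 50 : ℝ) + ((θ - 49 / 50) / (7 / 100)) • (21 / 20 : ℝ)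
      = θ := by
    simp only [smul_eq_mul]
    ring
  rw [e1] at h
  simp only [smul_eq_mul] at h
  have h2 := mul_le_mul_of_nonneg_left cos_98.1 ht0
  have h3 := mul_le_mul_of_nonneg_left cos_105.1 ht1
  have e2 : (21 / 20 - θ) / (7 / 100) * (5570 / 10000) + (θ - 49 / 50) / (7 / 100) * (4975 / 10000)
      = 5570 / 10000 - 85 / 100 * (θ - 49 / 50) := by ring
  linarith

/-- the polynomial inequality for `x ≥ 2958/10000` in the variable `v = 5408/10000 - x` -/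
private theorem x1_poly2 {v : ℝ} (h0 : 0 ≤ v) (h1 : v ≤ 1 / 4) {x : ℝ}
    (hx : x = 5408 / 10000 - v) :
    (1 - x ^ 2 / 2 + x ^ 4 / 24) ^ 3 ≤ (42566 / 100000 + 24285 / 100000 * x) *
      (1 + (1 - 2 * x ^ 2 + 2 / 3 * x ^ 4 - 4 / 45 * x ^ 6)
        + (15707 / 10000 - x) * (1 - (2 * x - 4 / 3 * x ^ 3 + 4 / 15 * x ^ 5))
        - (2 * x - 4 / 3 * x ^ 3 + 4 / 15 * x ^ 5) / 2) := by
  subst hx
  have p2 : 0 ≤ v ^ 2 := by positivity
  have q : ∀ k : ℕ, v ^ (k + 2) ≤ (1 / 4) ^ k * v ^ 2 := by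
    intro k
    rw [pow_add]
    exact mul_le_mul_of_nonneg_right (pow_le_pow_left₀ h0 h1 k) p2
  have n : ∀ k : ℕ, 0 ≤ v ^ k := fun k => pow_nonneg h0 k
  have q4 := q 2
  have q5 := q 3
  have q6 := q 4
  have q7 := q 5
  have q8 := q 6
  have q9 := q 7
  have q10 := q 8
  have q11 := q 9
  have q12 := q 10
  have q13 := q 11
  have n3 := n 3
  have n4 := n 4
  have n5 := n 5
  have n6 := n 6
  have n7 := n 7
  have n8 := n 8
  have n9 := n 9
  have n10 := n 10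
  have n11 := n 11
  have n12 := n 12
  have n13 := n 13
  norm_num at q4 q5 q6 q7 q8 q9 q10 q11 q12 q13
  linarith

private theorem x1_poly1 {v : ℝ} (h0 : 0 ≤ v) (h1 : v ≤ 3 / 10) {x : ℝ}
    (hx : x = 2958 / 10000 - v) :
    (1 - x ^ 2 / 2 + x ^ 4 / 24) ^ 3 ≤ (4975 / 10000) *
      (1 + (1 - 2 * x ^ 2 + 2 / 3 * x ^ 4 - 4 / 45 * x ^ 6)
        + (15707 / 10000 - x) * (1 - (2 * x - 4 / 3 * x ^ 3 + 4 / 15 * x ^ 5))
        - (2 * x - 4 / 3 * x ^ 3 + 4 / 15 * x ^ 5) / 2) := by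
  subst hx
  have p2 : 0 ≤ v ^ 2 := by positivity
  have q : ∀ k : ℕ, v ^ (k + 2) ≤ (3 / 10) ^ k * v ^ 2 := by
    intro k
    rw [pow_add]
    exact mul_le_mul_of_nonneg_right (pow_le_pow_left₀ h0 h1 k) p2
  have n : ∀ k : ℕ, 0 ≤ v ^ k := fun k => pow_nonneg h0 k
  have q4 := q 2
  have q5 := q 3
  have q6 := q 4
  have q7 := q 5
  have q8 := q 6
  have q9 := q 7
  have q10 := q 8
  have q11 := q 9
  have q12 := q 10
  have n3 := n 3
  have n4 := n 4
  have n5 := n 5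
  have n6 := n 6
  have n7 := n 7
  have n8 := n 8
  have n9 := n 9
  have n10 := n 10
  have n11 := n 11
  have n12 := n 12
  norm_num at q4 q5 q6 q7 q8 q9 q10 q11 q12
  linarith

/-- the inequality `sin^3 b ≤ cos θ M b` from the polynomial one -/
private theorem x1_core {b x k C : ℝ} (hb : b = π / 2 - x) (hx0 : 0 ≤ x) (hx1 : x ≤ 5408 / 10000)
    (hk0 : 0 ≤ k) (hkC : k ≤ C)
    (hp : (1 - x ^ 2 / 2 + x ^ 4 / 24) ^ 3 ≤ k *
      (1 + (1 - 2 * x ^ 2 + 2 / 3 * x ^ 4 - 4 / 45 * x ^ 6)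
        + (15707 / 10000 - x) * (1 - (2 * x - 4 / 3 * x ^ 3 + 4 / 15 * x ^ 5))
        - (2 * x - 4 / 3 * x ^ 3 + 4 / 15 * x ^ 5) / 2)) :
    sin b ^ 3 ≤ C * (2 * sin b ^ 2 - 2 * b * (sin b * cos b) + b - sin b * cos b) := by
  have es : sin b = cos x := by rw [hb, sin_pi_div_two_sub]
  have ec : cos b = sin x := by rw [hb, cos_pi_div_two_sub]
  have e1 : 2 * (sin b * cos b) = sin (2 * x) := by
    rw [es, ec, sin_two_mul]; ring
  have e2 : 2 * sin b ^ 2 = 1 + cos (2 * x) := by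
    rw [es, cos_two_mul]; ring
  have hM : 2 * sin b ^ 2 - 2 * b * (sin b * cos b) + b - sin b * cos b =
      1 + cos (2 * x) + b * (1 - sin (2 * x)) - sin (2 * x) / 2 := by
    rw [← e1, ← e2]; ring
  have hU : sin (2 * x) ≤ 2 * x - 4 / 3 * x ^ 3 + 4 / 15 * x ^ 5 := by
    have := sin_le_5 (x := 2 * x) (by linarith)
    refine this.trans (le_of_eq ?_)
    ring
  have hL : 1 - 2 * x ^ 2 + 2 / 3 * x ^ 4 - 4 / 45 * x ^ 6 ≤ cos (2 * x) := by
    have := cos_ge_6 (x := 2 * x) (by linarith)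
    refine le_trans (le_of_eq ?_) this
    ring
  have hK := cos_le_4 (x := x) hx0
  have hc0 : 0 ≤ cos x := cos_nonneg_of_mem_Icc ⟨by linarith [pi_gt_three], by linarith [pi_gt_three]⟩
  have h1s : 0 ≤ 1 - sin (2 * x) := by linarith [sin_le_one (2 * x)]
  have hbP : 15707 / 10000 - x ≤ b := by rw [hb]; linarith [pi_gt_d4]
  have hPx : 0 ≤ 15707 / 10000 - x := by linarith
  have m1 : (15707 / 10000 - x) * (1 - sin (2 * x)) ≤ b * (1 - sin (2 * x)) :=
    mul_le_mul_of_nonneg_right hbP h1s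
  have m2 : (15707 / 10000 - x) * (1 - (2 * x - 4 / 3 * x ^ 3 + 4 / 15 * x ^ 5)) ≤
      (15707 / 10000 - x) * (1 - sin (2 * x)) :=
    mul_le_mul_of_nonneg_left (by linarith) hPx
  have hMl : 1 + (1 - 2 * x ^ 2 + 2 / 3 * x ^ 4 - 4 / 45 * x ^ 6)
        + (15707 / 10000 - x) * (1 - (2 * x - 4 / 3 * x ^ 3 + 4 / 15 * x ^ 5))
        - (2 * x - 4 / 3 * x ^ 3 + 4 / 15 * x ^ 5) / 2 ≤
      1 + cos (2 * x) + b * (1 - sin (2 * x)) - sin (2 * x) / 2 := by linarith
  have hM0 : 0 ≤ 1 + cos (2 * x) + b * (1 - sin (2 * x)) - sin (2 * x) / 2 := by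
    have a1 : 0 ≤ cos (2 * x) :=
      cos_nonneg_of_mem_Icc ⟨by linarith [pi_gt_three], by linarith [pi_gt_three]⟩
    have a2 : 0 ≤ b * (1 - sin (2 * x)) := mul_nonneg (by linarith) h1s
    linarith [sin_le_one (2 * x)]
  rw [hM, es]
  calc cos x ^ 3 ≤ (1 - x ^ 2 / 2 + x ^ 4 / 24) ^ 3 := pow_le_pow_left₀ hc0 hK 3
    _ ≤ _ := hp
    _ ≤ k * (1 + cos (2 * x) + b * (1 - sin (2 * x)) - sin (2 * x) / 2) :=
        mul_le_mul_of_nonneg_left hMl hk0
    _ ≤ _ := mul_le_mul_of_nonneg_right hkC hM0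

theorem x_e1 {θ e : ℝ} (h : Rx θ e) :
    sin (θ - e) * cos (θ - e) *
        (sin (θ + e) ^ 3 - cos θ * (θ + e - sin (θ + e) * cos (θ + e))) ≤
      cos θ * sin (θ + e) * tau (θ + e) := by
  have hb0 := h.b0
  have hd := h.d
  have hbb := h.b1
  have hth0 := h.a
  have hth1 := h.b
  have hcc := h.c
  have hcos0 := h.cos0
  have htau := h.tb
  obtain ⟨b, hbdef⟩ : ∃ b, b = θ + e := ⟨_, rfl⟩
  rw [← hbdef] at hb0 hd hbb htau ⊢
  -- the main inequality
  have main : sin b ^ 3 ≤ cos θ * (2 * sin b ^ 2 - 2 * b * (sin b * cos b) + b - sin b * cos b) := by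
    rcases le_total b (1275 / 1000) with hb | hb
    · apply x1_core (x := π / 2 - b) (k := 42566 / 100000 + 24285 / 100000 * (π / 2 - b)) (by ring)
        (by linarith) (by linarith [pi_lt_d4]) (by linarith)
      · have h1 := x1_chord hth0 hth1
        have h2 : θ ≤ (b + 24 / 10) / (35 / 10) := by
          rw [le_div_iff₀ (by norm_num)]
          linarith
        have h3 : (b + 24 / 10) / (35 / 10) = b * (10 / 35) + 24 / 35 := by ring
        rw [h3] at h2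
        linarith [pi_lt_d4, pi_gt_d4]
      · exact x1_poly2 (v := 5408 / 10000 - (π / 2 - b)) (by linarith [pi_lt_d4])
          (by linarith [pi_gt_d4]) (by ring)
    · apply x1_core (x := π / 2 - b) (k := 4975 / 10000) (by ring)
        (by linarith) (by linarith [pi_lt_d4]) (by norm_num) hcos0
      exact x1_poly1 (v := 2958 / 10000 - (π / 2 - b)) (by linarith [pi_lt_d4])
          (by linarith [pi_gt_d4]) (by ring)
  -- `sin p cos p ≤ 1/2`
  have hp : sin (θ - e) * cos (θ - e) ≤ 1 / 2 := by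
    nlinarith [sin_sq_add_cos_sq (θ - e), sq_nonneg (sin (θ - e) - cos (θ - e))]
  have hp0 : 0 ≤ sin (θ - e) * cos (θ - e) :=
    mul_nonneg h.sp0.le (le_trans (by linarith) h.cp)
  have hsb : 0 ≤ sin b := sin_nonneg_of_nonneg_of_le_pi (by linarith) (by linarith [pi_gt_three])
  have hr : 0 ≤ cos θ * sin b * tau b := by
    have hc : 0 ≤ cos θ := by linarith
    exact mul_nonneg (mul_nonneg hc hsb) htau.le
  rcases le_total (sin b ^ 3 - cos θ * (b - sin b * cos b)) 0 with hneg | hpos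
  · exact (mul_nonpos_of_nonneg_of_nonpos hp0 hneg).trans hr
  · calc sin (θ - e) * cos (θ - e) * (sin b ^ 3 - cos θ * (b - sin b * cos b))
        ≤ 1 / 2 * (sin b ^ 3 - cos θ * (b - sin b * cos b)) :=
          mul_le_mul_of_nonneg_right hp hpos
      _ ≤ cos θ * sin b * tau b := by
          unfold tau
          nlinarith [main]

end Pool.Agent.H46.KO
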