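import Pool.Agent.H46.KO.Xd

/-!
# A lower bound of `FF` on the region `Rx`

With `s = sin θ`, `c = cos θ`, `v = sin e`, `w = 1 - cos e`, exactly
`FF = F0 + 4 s c e - 2 s c v (c^2 + (1-w)^2) + w (5 s^2 + 2 s^2 c^2 - 2 s c θ - 2 s c e - 4 s^2 w +
  s^2 w^2 + c^2 v^2)`, `F0 = 2 s (2 c θ - s (1 + c^2))`.
* `x_lin`: `v <= e`, `.485 e^2 <= w <= .175`; so `4 s c e - 2 s c v (c^2 + (1-w)^2) >= 2 s^3 c e +
  2 s c e w (2 - w)` and the total coefficient of `w` is `>= 5 s^2 + 2 s^2 c^2 - 2 s c θ - 4 s^2 w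
  >= 2.3`.
* `x_zero`: one variable, slack `>= .007`.
* `x_fl`: `2 s^3 c >= .63`.
-/

open Real

namespace Pool.Agent.H46.KO

private theorem xf_deriv (x : ℝ) : HasDerivAt
    (fun x : ℝ => 4 * (x * (sin x * cos x)) - 2 * sin x ^ 2 - 2 * (sin x ^ 2 * cos x ^ 2) + 4 / 5 * x - 3 / 50 * x)
    (4 * (cos x ^ 2 - sin x ^ 2) * (x - sin x * cos x) + 4 / 5 - 3 / 50) x := by
  have hs := Real.hasDerivAt_sin x
  have hc := Real.hasDerivAt_cos x
  have hi := hasDerivAt_id x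
  have h := (((((hi.mul (hs.mul hc)).const_mul 4).sub ((hs.pow 2).const_mul 2)).sub
    (((hs.pow 2).mul (hc.pow 2)).const_mul 2)).add (hi.const_mul (4 / 5))).sub (hi.const_mul (3 / 50))
  refine h.congr_deriv ?_
  have h2 := sin_sq_add_cos_sq x
  simp only [Pi.mul_apply, Pi.pow_apply, id, Nat.cast_ofNat]
  ring

private theorem xf_mono {x : ℝ} (h0 : 49 / 50 ≤ x) (h1 : x ≤ 21 / 20) :
    4 * (cos x ^ 2 - sin x ^ 2) * (x - sin x * cos x) + 4 / 5 - 3 / 50 ≤ 0 := by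
  have hp := pi_gt_three
  have s1 : sin x ≤ 86743 / 100000 :=
    (sin_le_sin_of_le_of_le_pi_div_two (by linarith) (by linarith) h1).trans sin_105.2
  have s0 : 83049 / 100000 ≤ sin x :=
    sin_98.1.trans (sin_le_sin_of_le_of_le_pi_div_two (by linarith) (by linarith) h0)
  have c0 : 4975 / 10000 ≤ cos x :=
    cos_105.1.trans (cos_le_cos_of_nonneg_of_le_pi (by linarith) (by linarith) h1)
  have c1 : cos x ≤ 55704 / 100000 :=
    (cos_le_cos_of_nonneg_of_le_pi (by norm_num) (by linarith) h0).trans cos_98.2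
  have h2 : sin x * cos x ≤ 86743 / 100000 * (55704 / 100000) :=
    mul_le_mul s1 c1 (by linarith) (by norm_num)
  have h3 : 4967 / 10000 ≤ x - sin x * cos x := by
    have h4 : (86743 / 100000 * (55704 / 100000) : ℝ) ≤ 4833 / 10000 := by norm_num
    linarith
  have h5 : 3794 / 10000 ≤ sin x ^ 2 - cos x ^ 2 := by
    have h6 := pow_le_pow_left₀ (by norm_num) s0 2
    have h7 := pow_le_pow_left₀ (by linarith : (0 : ℝ) ≤ cos x) c1 2
    have h8 : (3794 / 10000 : ℝ) ≤ (83049 / 100000) ^ 2 - (55704 / 100000) ^ 2 := by norm_num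
    linarith
  have h9 : (3794 / 10000 : ℝ) * (4967 / 10000) ≤ (sin x ^ 2 - cos x ^ 2) * (x - sin x * cos x) :=
    mul_le_mul h5 h3 (by norm_num) (by linarith)
  have h10 : (37 / 200 : ℝ) ≤ 3794 / 10000 * (4967 / 10000) := by norm_num
  linarith

private theorem xf_poly {y : ℝ} (h0 : 2475 / 10000 ≤ y) (h1 : y ≤ 3104 / 10000) :
    3969 / 40000 ≤ (1 - y) ^ 3 * y := by
  have h2 : 0 ≤ (y - 2475 / 10000) * (3104 / 10000 - y) := mul_nonneg (by linarith) (by linarith)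
  nlinarith [mul_nonneg h2 (by linarith : 0 ≤ y), mul_nonneg h2 (sq_nonneg (y - 1))]

theorem x_zero {θ : ℝ} (h0 : 49 / 50 ≤ θ) (h1 : θ ≤ 21 / 20) :
    -(4 / 5) * (θ - 24 / 25) ≤ 2 * sin θ * (2 * cos θ * θ - sin θ * (1 + cos θ ^ 2)) := by
  have hp := pi_gt_three
  have hm : AntitoneOn (fun x : ℝ => 4 * (x * (sin x * cos x)) - 2 * sin x ^ 2 - 2 * (sin x ^ 2 * cos x ^ 2) + 4 / 5 * x - 3 / 50 * x)
      (Set.Icc (49 / 50) (21 / 20)) := by
    refine antitoneOn_of_deriv_nonpos (convex_Icc _ _) ?_ ?_ ?_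
    · exact fun x _ => (xf_deriv x).continuousAt.continuousWithinAt
    · exact fun x _ => (xf_deriv x).differentiableAt.differentiableWithinAt
    · intro x hx
      rw [interior_Icc] at hx
      rw [(xf_deriv x).deriv]
      exact xf_mono hx.1.le hx.2.le
  have h := hm ⟨h0, h1⟩ ⟨by norm_num, le_refl _⟩ h1
  simp only at h
  have s0 := sin_105.1
  have s1 := sin_105.2
  have c0 := cos_105.1
  have c1 := cos_105.2
  obtain ⟨a, ha⟩ : ∃ a, a = sin (21 / 20) := ⟨_, rfl⟩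
  obtain ⟨b, hb⟩ : ∃ b, b = cos (21 / 20) := ⟨_, rfl⟩
  rw [← ha] at h s0 s1
  rw [← hb] at h c0 c1
  have h2 : -(6510 / 100000) ≤ 4 * (21 / 20 * (a * b)) - 2 * a ^ 2 - 2 * (a ^ 2 * b ^ 2) := by
    have h3 : a * (1 + b ^ 2) ≤ 86743 / 100000 * (1 + (4976 / 10000) ^ 2) := by
      refine mul_le_mul s1 ?_ (by positivity) (by norm_num)
      have := pow_le_pow_left₀ (by linarith : (0 : ℝ) ≤ b) c1 2
      linarith
    have h4 : -(3747 / 100000) ≤ 21 / 10 * b - a * (1 + b ^ 2) := by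
      have h5 : (86743 / 100000 * (1 + (4976 / 10000) ^ 2) : ℝ) ≤ 108222 / 100000 := by norm_num
      linarith
    have h5 : 2 * a * (-(3747 / 100000)) ≤ 2 * a * (21 / 10 * b - a * (1 + b ^ 2)) :=
      mul_le_mul_of_nonneg_left h4 (by linarith)
    have h6 : 4 * (21 / 20 * (a * b)) - 2 * a ^ 2 - 2 * (a ^ 2 * b ^ 2) =
      2 * a * (21 / 10 * b - a * (1 + b ^ 2)) := by ring
    rw [h6]
    linarith
  have h3 : 2 * sin θ * (2 * cos θ * θ - sin θ * (1 + cos θ ^ 2)) =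
    4 * (θ * (sin θ * cos θ)) - 2 * sin θ ^ 2 - 2 * (sin θ ^ 2 * cos θ ^ 2) := by ring
  rw [h3]
  linarith

theorem x_lin {θ e : ℝ} (h : Rx θ e) :
    2 * sin θ * (2 * cos θ * θ - sin θ * (1 + cos θ ^ 2)) + 2 * sin θ ^ 3 * cos θ * e + e ^ 2 ≤
      FF θ e := by
  have he0 := h.e0
  have he1 := h.e1
  have s0 := h.sin0
  have s1 := h.sin1
  have c0 := h.cos0
  have c1 := h.cos1
  have ha := h.a
  have hb := h.b
  have v0 : 0 ≤ sin e := sin_nonneg_of_nonneg_of_le_pi (by linarith) (by linarith [pi_gt_three])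
  have v1 : sin e ≤ e := sin_le_x (by linarith)
  have q2 := cos_ge_2 (x := e) (by linarith)
  have q4 := cos_le_4 (x := e) (by linarith)
  obtain ⟨w, hw⟩ : ∃ w, w = 1 - cos e := ⟨_, rfl⟩
  have hq : cos e = 1 - w := by rw [hw]; ring
  have hid : FF θ e = 2 * sin θ * (2 * cos θ * θ - sin θ * (1 + cos θ ^ 2)) + 4 * (sin θ * cos θ * e) -
      2 * (sin θ * cos θ * sin e) * (cos θ ^ 2 + (1 - w) ^ 2) +
      w * (5 * sin θ ^ 2 + 2 * sin θ ^ 2 * cos θ ^ 2 - 2 * sin θ * cos θ * θ - 2 * sin θ * cos θ * e -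
        4 * sin θ ^ 2 * w + sin θ ^ 2 * w ^ 2 + cos θ ^ 2 * sin e ^ 2) := by
    unfold FF
    rw [sin_two_mul, sin_add, sin_sub, hq]
    ring
  rw [hq] at q2 q4
  have he2 : e ^ 2 ≤ 35 / 100 := by nlinarith
  have w1 : w ≤ 175 / 1000 := by linarith
  have w0 : 485 / 1000 * e ^ 2 ≤ w := by
    have h3 : e ^ 4 ≤ 35 / 100 * e ^ 2 := by nlinarith [sq_nonneg e]
    linarith
  have wn : 0 ≤ w := le_trans (by positivity) w0
  obtain ⟨s, hs⟩ : ∃ s, s = sin θ := ⟨_, rfl⟩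
  obtain ⟨c, hc⟩ : ∃ c, c = cos θ := ⟨_, rfl⟩
  obtain ⟨v, hv⟩ : ∃ v, v = sin e := ⟨_, rfl⟩
  have hsc := sin_sq_add_cos_sq θ
  rw [← hs, ← hc] at hsc
  rw [hid, ← hs, ← hc, ← hv]
  rw [← hs] at s0 s1
  rw [← hc] at c0 c1
  rw [← hv] at v0 v1
  have sc0 : 0 ≤ s * c := by
    have h3 : 0 ≤ s := by linarith
    have h4 : 0 ≤ c := by linarith
    positivity
  have k1 : s * c * v ≤ s * c * e := mul_le_mul_of_nonneg_left v1 sc0
  have k2 : 2 * (s * c * v) * (c ^ 2 + (1 - w) ^ 2) ≤ 2 * (s * c * e) * (c ^ 2 + (1 - w) ^ 2) :=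
    mul_le_mul_of_nonneg_right (by linarith) (by positivity)
  have k3 : 4 * (s * c * e) - 2 * (s * c * e) * (c ^ 2 + (1 - w) ^ 2) =
      2 * s ^ 3 * c * e + 2 * (s * c * e) * (w * (2 - w)) := by
    linear_combination (-2 * (s * c * e)) * hsc
  have scn : s * c ≤ 86743 / 100000 * (55704 / 100000) := mul_le_mul s1 c1 (by linarith) (by norm_num)
  have k4 : s * c * θ ≤ 86743 / 100000 * (55704 / 100000) * (21 / 20) :=
    mul_le_mul scn hb (by linarith) (by norm_num)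
  have s2 := pow_le_pow_left₀ (by norm_num) s0 2
  have c2 := pow_le_pow_left₀ (by norm_num) c0 2
  have k5 : (83049 / 100000) ^ 2 * (4975 / 10000) ^ 2 ≤ s ^ 2 * c ^ 2 :=
    mul_le_mul s2 c2 (by positivity) (by positivity)
  have k6 : s ^ 2 * w ≤ s ^ 2 * (175 / 1000) := mul_le_mul_of_nonneg_left w1 (by positivity)
  have k7 : 21 / 10 ≤ 5 * s ^ 2 + 2 * s ^ 2 * c ^ 2 - 2 * s * c * θ - 4 * s ^ 2 * w := by
    have k8 : (21 / 10 : ℝ) ≤ (43 / 10) * (83049 / 100000) ^ 2 + 2 * ((83049 / 100000) ^ 2 * (4975 / 10000) ^ 2) -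
      2 * (86743 / 100000 * (55704 / 100000) * (21 / 20)) := by norm_num
    linarith
  have k9 : 0 ≤ 2 * (s * c * e) * (1 - w) :=
    mul_nonneg (mul_nonneg zero_le_two (mul_nonneg sc0 (by linarith))) (by linarith)
  have k10 : 0 ≤ s ^ 2 * w ^ 2 + c ^ 2 * v ^ 2 := by positivity
  have k11 : w * (21 / 10) ≤ w * (5 * s ^ 2 + 2 * s ^ 2 * c ^ 2 - 2 * s * c * θ - 4 * s ^ 2 * w +
      2 * (s * c * e) * (1 - w) + (s ^ 2 * w ^ 2 + c ^ 2 * v ^ 2)) :=
    mul_le_mul_of_nonneg_left (by linarith) wn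
  have k12 : e ^ 2 ≤ w * (21 / 10) := by
    have : 0 ≤ e ^ 2 := by positivity
    linarith
  have k13 : w * (5 * s ^ 2 + 2 * s ^ 2 * c ^ 2 - 2 * s * c * θ - 4 * s ^ 2 * w +
      2 * (s * c * e) * (1 - w) + (s ^ 2 * w ^ 2 + c ^ 2 * v ^ 2)) =
      2 * (s * c * e) * (w * (2 - w)) + w * (5 * s ^ 2 + 2 * s ^ 2 * c ^ 2 - 2 * s * c * θ - 2 * s * c * e -
        4 * s ^ 2 * w + s ^ 2 * w ^ 2 + c ^ 2 * v ^ 2) := by ring
  linarith

theorem x_fl {θ e : ℝ} (h : Rx θ e) :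
    63 / 100 * e - 4 / 5 * (θ - 24 / 25) + e ^ 2 ≤ FF θ e := by
  have h1 := x_lin h
  have h2 := x_zero h.a h.b
  have he0 := h.e0
  have s0 := h.sin0
  have c0 := h.cos0
  have c1 := h.cos1
  have hsc := sin_sq_add_cos_sq θ
  have h3 : 63 / 100 ≤ 2 * sin θ ^ 3 * cos θ := by
    by_contra hcon
    push Not at hcon
    have h4 : 0 ≤ 2 * sin θ ^ 3 * cos θ := by
      have h5 : 0 ≤ sin θ := by linarith
      have h6 : 0 ≤ cos θ := by linarith
      positivity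
    have h5 := pow_lt_pow_left₀ hcon h4 two_ne_zero
    have c2 := pow_le_pow_left₀ (by norm_num) c0 2
    have c3 := pow_le_pow_left₀ (by linarith : (0 : ℝ) ≤ cos θ) c1 2
    have h6 := xf_poly (y := cos θ ^ 2) (le_trans (by norm_num) c2) (c3.trans (by norm_num))
    have h7 : 1 - cos θ ^ 2 = sin θ ^ 2 := by linarith
    rw [h7] at h6
    have h8 : (2 * sin θ ^ 3 * cos θ) ^ 2 = 4 * ((sin θ ^ 2) ^ 3 * cos θ ^ 2) := by ring
    rw [h8] at h5
    norm_num at h5 h6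
    linarith
  have h4 : 63 / 100 * e ≤ 2 * sin θ ^ 3 * cos θ * e := mul_le_mul_of_nonneg_right h3 (by linarith)
  linarith

end Pool.Agent.H46.KO
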