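import Pool.Agent.H46.KO.Ba

/-!
# The facts `ea`, `eb`, `0 < e < θ <= 49/50`, `b = θ + e`, `p = θ - e`

Numerical minima over the whole region: `ea >= 0.867`, `eb >= 1.11` (both tend to `+∞` for `e -> θ`
and for `θ -> 0`).
PROOF. `cot b + cot p = sin 2θ/(sin b sin p)` and `b sin b/tau b <= 3/b` (`three_tau`), so
* `ea = sin θ cos θ (2 cos e (1 + cos^2 θ / (sin b sin p)) - K sin e - tan p sin e)` with
  `K sin e <= 3/2`, `tan p sin e <= 0.2401/0.5486`;
* `eb >= sin θ (4 cos θ cos e + sin^2 p/cos p + 0.656 cos^2 p/sin p - 3)`, and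
  `4 cos θ cos e = 2 (cos b + cos p)` decreases in `b <= 49/25 - p`.
-/

open Real

namespace Pool.Agent.H46.KO

theorem three_tau {b : ℝ} (h0 : 0 ≤ b) (h1 : b ≤ π) : b ^ 2 * sin b ≤ 3 * tau b := by
  have hd : ∀ x : ℝ, HasDerivAt (fun x : ℝ => 3 * (sin x - x * cos x) - x ^ 2 * sin x)
      (x * (sin x - x * cos x)) x := by
    intro x
    have h := (((Real.hasDerivAt_sin x).sub ((hasDerivAt_id x).mul
      (Real.hasDerivAt_cos x))).const_mul 3).sub
        (((hasDerivAt_id x).pow 2).mul (Real.hasDerivAt_sin x))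
    refine h.congr_deriv ?_
    simp
    ring
  have hm : MonotoneOn (fun x : ℝ => 3 * (sin x - x * cos x) - x ^ 2 * sin x)
      (Set.Icc 0 π) := by
    refine monotoneOn_of_deriv_nonneg (convex_Icc 0 π) ?_ ?_ ?_
    · exact fun x _ => (hd x).continuousAt.continuousWithinAt
    · exact fun x _ => (hd x).differentiableAt.differentiableWithinAt
    · intro x hx
      rw [interior_Icc] at hx
      rw [(hd x).deriv]
      have h := tau_pos hx.1 hx.2
      unfold tau at h
      exact mul_nonneg hx.1.le h.le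
  have h := hm ⟨le_refl 0, pi_pos.le⟩ ⟨h0, h1⟩ h0
  unfold tau
  simp only [sin_zero, cos_zero] at h
  linarith

/-- `b sin b / tau b <= 3 / b` -/
private theorem sa_K {b : ℝ} (h0 : 0 < b) (h1 : b < π) : b * sin b / tau b ≤ 3 / b := by
  have h := three_tau h0.le h1.le
  rw [div_le_div_iff₀ (tau_pos h0 h1) h0]
  nlinarith

private theorem sa_c1 : (0.5486 : ℝ) ≤ cos (49 / 50) ∧ cos (49 / 50) ≤ 0.5593 := by
  have h1 : cos (49 / 50 : ℝ) = 2 * cos (49 / 100) ^ 2 - 1 := by
    rw [← cos_two_mul]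
    congr 1
    norm_num
  have h2 := Real.one_sub_sq_div_two_le_cos (x := 49 / 100)
  have h3 := (abs_le.1 (Real.cos_bound (x := 49 / 100) (by rw [abs_of_pos] <;> norm_num))).2
  rw [abs_of_pos (by norm_num : (0 : ℝ) < 49 / 100)] at h3
  rw [h1]
  constructor <;> nlinarith

private theorem sa_s1 : (0.8289 : ℝ) ≤ sin (49 / 50) ∧ sin (49 / 50) ≤ 0.8361 := by
  obtain ⟨h1, h2⟩ := sa_c1
  have h3 := sin_sq_add_cos_sq (49 / 50 : ℝ)
  have h4 : 0 < sin (49 / 50 : ℝ) :=
    sin_pos_of_pos_of_lt_pi (by norm_num) (by linarith [pi_gt_three])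
  constructor
  · by_contra h
    push Not at h
    nlinarith
  · by_contra h
    push Not at h
    nlinarith

theorem fact_ea {θ e : ℝ} (h0 : 0 < e) (h1 : e < θ) (h2 : θ ≤ 49 / 50) :
    0 ≤ sin (2 * θ) * cos e - (θ + e) * sin (θ + e) / tau (θ + e) * (sin θ * cos θ * sin e) +
      cos (θ + e) / sin (θ + e) * (cos θ ^ 2 * cos e) -
      sin (θ - e) / cos (θ - e) * (sin θ * cos θ * sin e) +
      cos (θ - e) / sin (θ - e) * (cos θ ^ 2 * cos e) := by
  have hpi := pi_gt_three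
  obtain ⟨hc1, -⟩ := sa_c1
  have hs : 0 < sin θ := sin_pos_of_pos_of_lt_pi (by linarith) (by linarith)
  have hc : 0.5486 ≤ cos θ := hc1.trans
    (cos_le_cos_of_nonneg_of_le_pi (by linarith) (by linarith) h2)
  have hce : 0.5486 ≤ cos e := hc1.trans
    (cos_le_cos_of_nonneg_of_le_pi h0.le (by linarith) (by linarith))
  have hcp : 0.5486 ≤ cos (θ - e) := hc1.trans
    (cos_le_cos_of_nonneg_of_le_pi (by linarith) (by linarith) (by linarith))
  have hb : 0 < sin (θ + e) := sin_pos_of_pos_of_lt_pi (by linarith) (by linarith)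
  have hp : 0 < sin (θ - e) := sin_pos_of_pos_of_lt_pi (by linarith) (by linarith)
  have hse : 0 < sin e := sin_pos_of_pos_of_lt_pi h0 (by linarith)
  have hse' : sin e ≤ e := sin_le h0.le
  have hp' : sin (θ - e) ≤ θ - e := sin_le (by linarith)
  have hb' : sin (θ + e) ≤ 1 := sin_le_one _
  have hK := sa_K (b := θ + e) (by linarith) (by linarith)
  have hK0 : 0 ≤ (θ + e) * sin (θ + e) / tau (θ + e) :=
    div_nonneg (mul_nonneg (by linarith) hb.le) (tau_pos (by linarith) (by linarith)).le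
  set K := (θ + e) * sin (θ + e) / tau (θ + e) with hKd
  have hKe : K * sin e ≤ 3 / 2 := by
    have h3 : K * sin e ≤ 3 / (θ + e) * e := mul_le_mul hK hse' hse.le (by
      have : 0 < θ + e := by linarith
      positivity)
    refine h3.trans ?_
    rw [div_mul_eq_mul_div, div_le_div_iff₀ (by linarith) (by norm_num)]
    nlinarith
  have hT : sin (θ - e) / cos (θ - e) * sin e ≤ 0.4377 := by
    rw [div_mul_eq_mul_div, div_le_iff₀ (by linarith)]
    have h3 : sin (θ - e) * sin e ≤ (θ - e) * e := mul_le_mul hp' hse' hse.le (by linarith)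
    nlinarith [sq_nonneg (θ - 2 * e)]
  have hQ : 0.3 / (θ - e) ≤ cos θ ^ 2 / (sin (θ + e) * sin (θ - e)) := by
    have h3 : 0 < sin (θ + e) * sin (θ - e) := mul_pos hb hp
    rw [div_le_div_iff₀ (by linarith) h3]
    have h4 : sin (θ + e) * sin (θ - e) ≤ θ - e := by nlinarith
    have h5 : 0.3 ≤ cos θ ^ 2 := by nlinarith
    have h6 : 0.3 * (θ - e) ≤ cos θ ^ 2 * (θ - e) :=
      mul_le_mul_of_nonneg_right h5 (by linarith)
    linarith
  have hR : 1.938 ≤ 2 * cos e * (1 + cos θ ^ 2 / (sin (θ + e) * sin (θ - e))) := by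
    rcases le_or_gt e 0.6 with he | he
    · have h5 : 0.82 ≤ cos e := by
        have := Real.one_sub_sq_div_two_le_cos (x := e)
        nlinarith
      have h6 : 0.306 ≤ 0.3 / (θ - e) := by
        rw [le_div_iff₀ (by linarith)]
        nlinarith
      nlinarith
    · have h6 : 0.789 ≤ 0.3 / (θ - e) := by
        rw [le_div_iff₀ (by linarith)]
        nlinarith
      nlinarith
  have hsum : cos (θ + e) / sin (θ + e) + cos (θ - e) / sin (θ - e) =
      2 * sin θ * cos θ / (sin (θ + e) * sin (θ - e)) := by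
    rw [div_add_div _ _ hb.ne' hp.ne']
    congr 1
    have h3 := sin_add (θ + e) (θ - e)
    rw [show θ + e + (θ - e) = 2 * θ by ring, sin_two_mul] at h3
    linarith
  have hmain : sin (2 * θ) * cos e - K * (sin θ * cos θ * sin e) +
      cos (θ + e) / sin (θ + e) * (cos θ ^ 2 * cos e) -
      sin (θ - e) / cos (θ - e) * (sin θ * cos θ * sin e) +
      cos (θ - e) / sin (θ - e) * (cos θ ^ 2 * cos e) =
      sin θ * cos θ * (2 * cos e * (1 + cos θ ^ 2 / (sin (θ + e) * sin (θ - e))) - K * sin e -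
        sin (θ - e) / cos (θ - e) * sin e) := by
    have h3 : cos (θ + e) / sin (θ + e) * (cos θ ^ 2 * cos e) +
        cos (θ - e) / sin (θ - e) * (cos θ ^ 2 * cos e) =
        2 * sin θ * cos θ / (sin (θ + e) * sin (θ - e)) * (cos θ ^ 2 * cos e) := by
      rw [← hsum]
      ring
    rw [sin_two_mul]
    linear_combination h3
  rw [hmain]
  exact mul_nonneg (mul_nonneg hs.le (by linarith)) (by linarith)

theorem fact_eb {θ e : ℝ} (h0 : 0 < e) (h1 : e < θ) (h2 : θ ≤ 49 / 50) :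
    0 ≤ 2 * (sin (2 * θ) * cos e) -
      (θ + e) * sin (θ + e) / tau (θ + e) * (sin θ * sin (θ + e)) +
      cos θ * cos (θ + e) ^ 2 / sin (θ + e) + sin θ * sin (θ - e) ^ 2 / cos (θ - e) +
      cos θ * cos (θ - e) ^ 2 / sin (θ - e) := by
  have hpi := pi_gt_three
  obtain ⟨hc1, hc1'⟩ := sa_c1
  obtain ⟨hs1, hs1'⟩ := sa_s1
  have hs : 0 < sin θ := sin_pos_of_pos_of_lt_pi (by linarith) (by linarith)
  have hc : 0.5486 ≤ cos θ := hc1.trans
    (cos_le_cos_of_nonneg_of_le_pi (by linarith) (by linarith) h2)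
  have hs' : sin θ ≤ 0.8361 := le_trans (sin_le_sin_of_le_of_le_pi_div_two (by linarith)
    (by linarith [pi_gt_three]) h2) hs1'
  have hcp : 0.5486 ≤ cos (θ - e) := hc1.trans
    (cos_le_cos_of_nonneg_of_le_pi (by linarith) (by linarith) (by linarith))
  have hsp' : sin (θ - e) ≤ 0.8361 := le_trans (sin_le_sin_of_le_of_le_pi_div_two (by linarith)
    (by linarith [pi_gt_three]) (by linarith)) hs1'
  have hb : 0 < sin (θ + e) := sin_pos_of_pos_of_lt_pi (by linarith) (by linarith)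
  have hp : 0 < sin (θ - e) := sin_pos_of_pos_of_lt_pi (by linarith) (by linarith)
  have hb' : sin (θ + e) ≤ θ + e := sin_le (by linarith)
  have hK := sa_K (b := θ + e) (by linarith) (by linarith)
  set K := (θ + e) * sin (θ + e) / tau (θ + e) with hKd
  have hK3 : K * (sin θ * sin (θ + e)) ≤ 3 * sin θ := by
    have h3 : K * (sin θ * sin (θ + e)) ≤ 3 / (θ + e) * (sin θ * (θ + e)) :=
      mul_le_mul hK (mul_le_mul_of_nonneg_left hb' hs.le) (mul_pos hs hb).le (by
        have : 0 < θ + e := by linarith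
        positivity)
    refine h3.trans (le_of_eq ?_)
    have : θ + e ≠ 0 := by linarith
    field_simp
  -- the product of cosines
  have hcc : 4 * cos θ * cos e ≥ 1.2038 * cos (θ - e) + 1.8189 * sin (θ - e) := by
    have h3 : 2 * (cos (θ + e) + cos (θ - e)) = 4 * cos θ * cos e := by
      rw [cos_add, cos_sub]
      ring
    have h4 : cos (49 / 25 - (θ - e)) ≤ cos (θ + e) :=
      cos_le_cos_of_nonneg_of_le_pi (by linarith) (by linarith) (by linarith)
    have h5 : 2 * (cos (49 / 25 - (θ - e)) + cos (θ - e)) =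
        4 * cos (49 / 50) * (cos (49 / 50) * cos (θ - e) + sin (49 / 50) * sin (θ - e)) := by
      rw [cos_sub, show (49 / 25 : ℝ) = 2 * (49 / 50) by norm_num, cos_two_mul, sin_two_mul]
      ring
    have h6 : 1.2038 ≤ 4 * cos (49 / 50 : ℝ) * cos (49 / 50) := by nlinarith
    have h7 : 1.8189 ≤ 4 * cos (49 / 50 : ℝ) * sin (49 / 50) := by nlinarith
    nlinarith
  have hcot : 0.656 * sin θ ≤ cos θ := by nlinarith
  have e1 : 0 ≤ cos θ * cos (θ + e) ^ 2 / sin (θ + e) := by
    have : 0 ≤ cos θ := by linarith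
    positivity
  have e2 : 0.656 * sin θ * cos (θ - e) ^ 2 / sin (θ - e) ≤
      cos θ * cos (θ - e) ^ 2 / sin (θ - e) := by
    gcongr
  have hxy := sin_sq_add_cos_sq (θ - e)
  have e3 : 3 ≤ 1.2038 * cos (θ - e) + 1.8189 * sin (θ - e) + sin (θ - e) ^ 2 / cos (θ - e) +
      0.656 * cos (θ - e) ^ 2 / sin (θ - e) := by
    set x := sin (θ - e) with hx
    set y := cos (θ - e) with hy
    have hy0 : 0 < y := by linarith
    have hxy' : x ≤ 1.53 * y := by linarith
    have h3 : 1.2038 * y + 1.8189 * x + x ^ 2 / y + 0.656 * y ^ 2 / x =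
        (1.2038 * x * y ^ 2 + 1.8189 * x ^ 2 * y + x ^ 3 + 0.656 * y ^ 3) / (x * y) := by
      field_simp
    rw [h3, le_div_iff₀ (mul_pos hp hy0)]
    have h4 : 2.44 * y ≤ x ^ 2 + y ^ 2 + 1.4884 * y ^ 2 := by nlinarith [sq_nonneg (1 - 1.22 * y)]
    have h5 : 3 * (x * y) ≤ 1.2296 * x * (x ^ 2 + 2.4884 * y ^ 2) := by nlinarith
    have h6 : 0 ≤ 0.656 * y ^ 2 - 1.856 * x * y + 1.4675 * x ^ 2 := by
      nlinarith [sq_nonneg (y - 1.4146 * x)]
    have h7 : 0 ≤ y * (0.656 * y ^ 2 - 1.856 * x * y + 1.4675 * x ^ 2) := mul_nonneg hy0.le h6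
    have h8 : 0 ≤ x ^ 2 * (1.53 * y - x) := mul_nonneg (sq_nonneg x) (by linarith)
    nlinarith
  have hmain : 0 ≤ sin θ * (4 * cos θ * cos e - 3 + sin (θ - e) ^ 2 / cos (θ - e) +
      0.656 * cos (θ - e) ^ 2 / sin (θ - e)) := mul_nonneg hs.le (by linarith)
  have h9 : sin θ * (4 * cos θ * cos e - 3 + sin (θ - e) ^ 2 / cos (θ - e) +
      0.656 * cos (θ - e) ^ 2 / sin (θ - e)) = 2 * (sin (2 * θ) * cos e) - 3 * sin θ +
      sin θ * sin (θ - e) ^ 2 / cos (θ - e) +
      0.656 * sin θ * cos (θ - e) ^ 2 / sin (θ - e) := by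
    rw [sin_two_mul]
    ring
  rw [h9] at hmain
  linarith

end Pool.Agent.H46.KO
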