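import Pool.Agent.H46.KO.Xd
import Pool.Agent.H46.KO.Sa

/-!
# The left side of `qr` on the region `Rx`

`b = θ + e`, `p = θ - e`. The right side is `>= .31 e + e^2` and `>= .63 e - .072 + e^2`.
* `WW <= .63 + 2.7 e`: `WW = sin e (b sin 2θ + sin^2 b) + sin b sin θ sin 2θ`, `θ sin 2θ <= .911`,
  `sin 2θ <= .9253`, `sin θ sin 2θ <= .77`, `sin b <= min (1, .8213 + .721 e)` (tangent at `1.03`,
  `b <= .96 + 1.4 e`).
* `tan (e/2) <= .5152 e`.
* `sin b sin p/(2 tau b cos p sin 2θ cos^2 (e/2)) <= 3 tan p/(2 b^2 sin 2θ cos^2 (e/2)) <= 2.25`, and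
  `<= 1.09` for `e >= .3` (`three_tau`; `tan .93 <= 1.341`, `b >= 1.03`, `sin 2θ >= .8632`,
  `cos^2 .15 >= .9777`; `p <= 1.05 - e <= .75`, `tan .75 <= .932`, `b >= 1.28`, `cos^2 (.2955) >= .915`).
So `lhs <= .2655 e^2 (1.0304 e W + R W^2)`, `W = .63 + 2.7 e`, `R = 2.25` resp. `1.09`, and for
`e <= .3`: `<= .41 e`; for `e >= .3` it is `<= .63 e - .072 + e^2` (slack `>= .04 e`).
-/

open Real

namespace Pool.Agent.H46.KO

private theorem xr_sin2 {θ e : ℝ} (h : Rx θ e) :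
    82633 / 100000 ≤ sin (2 * θ) ∧ sin (2 * θ) ≤ 9253 / 10000 := by
  have hpi := pi_gt_d2
  have hpi4 := pi_lt_d4
  constructor
  · rw [sin_two_mul]
    have h1 := h.sin0
    have h2 := h.cos0
    nlinarith
  · have h1 : sin (2 * θ) = sin (π - 2 * θ) := (sin_pi_sub _).symm
    have h2 : sin (2 * (49 / 50) : ℝ) = sin (π - 2 * (49 / 50)) := (sin_pi_sub _).symm
    have h3 : sin (π - 2 * θ) ≤ sin (π - 2 * (49 / 50)) :=
      sin_le_sin_of_le_of_le_pi_div_two (by linarith [h.b]) (by linarith) (by linarith [h.a])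
    have h4 : sin (2 * (49 / 50) : ℝ) ≤ 9253 / 10000 := by
      rw [sin_two_mul]
      have h5 := sin_98
      have h6 := cos_98
      nlinarith [h5.1, h5.2, h6.1, h6.2]
    linarith

private theorem xr_ss {θ e : ℝ} (h : Rx θ e) : sin θ * sin (2 * θ) ≤ 77 / 100 := by
  have h1 := h.cos0
  have h2 := h.cos1
  have h3 : sin θ * sin (2 * θ) = 2 * (1 - cos θ ^ 2) * cos θ := by
    rw [sin_two_mul]
    have := sin_sq_add_cos_sq θ
    linear_combination (2 * cos θ) * this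
  rw [h3]
  have h4 : 0 ≤ (55704 / 100000 - cos θ) *
      (1 - (55704 / 100000) ^ 2 - 55704 / 100000 * cos θ - cos θ ^ 2) := by
    refine mul_nonneg (by linarith) ?_
    nlinarith
  nlinarith

private theorem xr_sb {θ e : ℝ} (h : Rx θ e) (he : e ≤ 12 / 100) : sin (θ + e) ≤ 905 / 1000 := by
  have h1 : sin (θ + e) ≤ sin (1128 / 1000) :=
    sin_le_sin_of_le_of_le_pi_div_two (by linarith [h.b0, pi_gt_three])
      (by linarith [pi_gt_three]) (by linarith [h.c])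
  have h2 := sin_le_9 (x := 1128 / 1000) (by norm_num)
  refine h1.trans (h2.trans ?_)
  norm_num

private theorem xr_W {θ e : ℝ} (h : Rx θ e) : 0 ≤ WW θ e ∧ WW θ e ≤ 7 / 10 + 27 / 10 * e := by
  have hpi := pi_gt_three
  have he0 := h.e0
  have he1 := h.e1
  have hse0 : 0 ≤ sin e := sin_nonneg_of_nonneg_of_le_pi (by linarith) (by linarith)
  have hse1 : sin e ≤ e := sin_le_x (by linarith)
  obtain ⟨h2a, h2b⟩ := xr_sin2 h
  have hb0 := h.b0
  have hbb : θ + e ≤ 21 / 20 + e := by linarith [h.b]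
  have hsb0 : 83049 / 100000 ≤ sin (θ + e) := h.sin0.trans h.sb
  have hsb1 : sin (θ + e) ≤ 1 := sin_le_one _
  have hss := xr_ss h
  have hs0 := h.sin0
  have hss0 : 0 ≤ sin θ * sin (2 * θ) := mul_nonneg (by linarith) (by linarith)
  have hq : (θ + e) * sin (2 * θ) + sin (θ + e) ^ 2 ≤ (21 / 20 + e) * (9253 / 10000) + 1 := by
    have a1 : (θ + e) * sin (2 * θ) ≤ (21 / 20 + e) * (9253 / 10000) :=
      mul_le_mul hbb h2b (by linarith) (by linarith)
    have a2 : sin (θ + e) ^ 2 ≤ 1 := by nlinarith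
    linarith
  have hq0 : 0 ≤ (θ + e) * sin (2 * θ) + sin (θ + e) ^ 2 := by
    have a1 : 0 ≤ (θ + e) * sin (2 * θ) := mul_nonneg (by linarith) (by linarith)
    positivity
  have hfirst : sin e * ((θ + e) * sin (2 * θ) + sin (θ + e) ^ 2) ≤
      e * ((21 / 20 + e) * (9253 / 10000) + 1) := mul_le_mul hse1 hq hq0 (by linarith)
  unfold WW
  constructor
  · have a1 : 0 ≤ sin e * ((θ + e) * sin (2 * θ) + sin (θ + e) ^ 2) := mul_nonneg hse0 hq0
    have a2 : 0 ≤ sin (θ + e) * (sin θ * sin (2 * θ)) := mul_nonneg (by linarith) hss0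
    linarith
  · rcases le_total e (12 / 100) with hc | hc
    · have a1 := xr_sb h hc
      have a2 : sin (θ + e) * (sin θ * sin (2 * θ)) ≤ 905 / 1000 * (77 / 100) :=
        mul_le_mul a1 hss hss0 (by norm_num)
      nlinarith
    · have a2 : sin (θ + e) * (sin θ * sin (2 * θ)) ≤ 1 * (77 / 100) :=
        mul_le_mul hsb1 hss hss0 (by norm_num)
      nlinarith

private theorem xr_tan {θ e : ℝ} (h : Rx θ e) : 0 ≤ tan (e / 2) ∧ tan (e / 2) ≤ 13 / 25 * e := by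
  have hpi := pi_gt_three
  have he0 := h.e0
  have he1 := h.e1
  have hc : 0 < cos (e / 2) := cos_pos_of_mem_Ioo ⟨by linarith, by linarith⟩
  have hs : 0 ≤ sin (e / 2) := sin_nonneg_of_nonneg_of_le_pi (by linarith) (by linarith)
  rw [tan_eq_sin_div_cos]
  refine ⟨div_nonneg hs hc.le, ?_⟩
  rw [div_le_iff₀ hc]
  have h1 := sin_le_x (x := e / 2) (by linarith)
  have h2 := sin_le_5 (x := e / 2) (by linarith)
  have h3 := cos_ge_2 (x := e / 2) (by linarith)
  obtain ⟨x, hx⟩ : ∃ x, x = e / 2 := ⟨_, rfl⟩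
  rw [← hx] at h1 h2 h3 ⊢
  have hxe : e = 2 * x := by rw [hx]; ring
  rw [hxe]
  have hx0 : 0 < x := by rw [hx]; linarith
  have hx1 : x ≤ 2955 / 10000 := by rw [hx]; linarith
  have hx2 : x ^ 2 ≤ 8733 / 100000 := by nlinarith
  have h4 : 26 / 25 * x * (1 - x ^ 2 / 2) ≤ 13 / 25 * (2 * x) * cos x := by
    have := mul_le_mul_of_nonneg_left h3 (by positivity : 0 ≤ 26 / 25 * x)
    linarith
  have h5 : x - x ^ 3 / 6 + x ^ 5 / 120 ≤ 26 / 25 * x * (1 - x ^ 2 / 2) := by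
    have e1 : 26 / 25 * x * (1 - x ^ 2 / 2) - (x - x ^ 3 / 6 + x ^ 5 / 120) =
        x * (1 / 25 - 53 / 150 * x ^ 2 - x ^ 2 * x ^ 2 / 120) := by ring
    have e2 : 0 ≤ 1 / 25 - 53 / 150 * x ^ 2 - x ^ 2 * x ^ 2 / 120 := by nlinarith [sq_nonneg x]
    have e3 := mul_nonneg hx0.le e2
    linarith
  linarith

private theorem xr_R {θ e : ℝ} (h : Rx θ e) {s c β γ R : ℝ} (hs : sin (θ - e) ≤ s)
    (hc : c ≤ cos (θ - e)) (hc0 : 0 < c) (hβ0 : 0 < β) (hβ : β ≤ θ + e) (hγ0 : 0 < γ)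
    (hγ : γ ≤ cos (e / 2) ^ 2) (hR0 : 0 < R)
    (hR : 3 * s ≤ R * (2 * β ^ 2 * c * (82633 / 100000) * γ)) :
    sin (θ + e) * sin (θ - e) /
      (2 * tau (θ + e) * cos (θ - e) * sin (2 * θ) * cos (e / 2) ^ 2) ≤ R := by
  have hpi := pi_gt_three
  have htau := h.tb
  have hcp : 0 < cos (θ - e) := hc0.trans_le hc
  have hc2 : 0 < cos (e / 2) ^ 2 := hγ0.trans_le hγ
  obtain ⟨h2a, -⟩ := xr_sin2 h
  have hs2 : 0 < sin (2 * θ) := by linarith
  have hsb : 0 < sin (θ + e) := by linarith [h.sb, h.sin0]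
  have h3 := three_tau (b := θ + e) (by linarith [h.b0]) (by linarith [h.b1])
  rw [div_le_iff₀ (by positivity)]
  have h4 : β ^ 2 * sin (θ + e) ≤ 3 * tau (θ + e) := by
    refine le_trans ?_ h3
    gcongr
  have h5 : β ^ 2 * sin (θ + e) * c * (82633 / 100000) * γ ≤
      3 * tau (θ + e) * cos (θ - e) * sin (2 * θ) * cos (e / 2) ^ 2 := by
    gcongr
  have h6 : sin (θ + e) * sin (θ - e) ≤ sin (θ + e) * s := mul_le_mul_of_nonneg_left hs hsb.le
  have h7 : sin (θ + e) * (3 * s) ≤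
      sin (θ + e) * (R * (2 * β ^ 2 * c * (82633 / 100000) * γ)) :=
    mul_le_mul_of_nonneg_left hR hsb.le
  have h8 : R * (β ^ 2 * sin (θ + e) * c * (82633 / 100000) * γ) ≤
      R * (3 * tau (θ + e) * cos (θ - e) * sin (2 * θ) * cos (e / 2) ^ 2) :=
    mul_le_mul_of_nonneg_left h5 hR0.le
  linarith

private theorem xr_key {θ e : ℝ} (h : Rx θ e) {w R Q : ℝ} (hw : WW θ e ≤ w) (hQ : Q ≤ R)
    (hQ0 : 0 ≤ Q) :
    tan (e / 2) ^ 2 * (2 * WW θ e * tan (e / 2) + WW θ e ^ 2 * Q) ≤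
      (13 / 25 * e) ^ 2 * (2 * w * (13 / 25 * e) + w ^ 2 * R) := by
  obtain ⟨ht0, ht1⟩ := xr_tan h
  obtain ⟨hW0, -⟩ := xr_W h
  have he0 := h.e0
  have hw0 : 0 ≤ w := hW0.trans hw
  gcongr

private theorem xr_cos {e x : ℝ} (h0 : 0 ≤ e) (h1 : e ≤ x) (hx : x ≤ 1) :
    (1 - x ^ 2 / 8) ^ 2 ≤ cos (e / 2) ^ 2 := by
  have h2 := cos_ge_2 (x := e / 2) (by linarith)
  have h3 : 1 - x ^ 2 / 8 ≤ cos (e / 2) := by
    refine le_trans ?_ h2
    nlinarith
  have h4 : 0 ≤ 1 - x ^ 2 / 8 := by nlinarith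
  exact pow_le_pow_left₀ h4 h3 2

private theorem xr_sc {p q s c : ℝ} (h0 : 0 ≤ p) (h1 : p ≤ q) (hq : q ≤ 3 / 2)
    (hs : q - q ^ 3 / 6 + q ^ 5 / 120 ≤ s) (hc : c ≤ 1 - q ^ 2 / 2 + q ^ 4 / 24 - q ^ 6 / 720) :
    sin p ≤ s ∧ c ≤ cos p := by
  have hpi := pi_gt_three
  constructor
  · have a1 : sin p ≤ sin q :=
      sin_le_sin_of_le_of_le_pi_div_two (by linarith) (by linarith) h1
    have a2 := sin_le_5 (x := q) (by linarith)
    linarith
  · have a1 : cos q ≤ cos p := cos_le_cos_of_nonneg_of_le_pi h0 (by linarith) h1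
    have a2 := cos_ge_6 (x := q) (by linarith)
    linarith

theorem x_rh {θ e : ℝ} (h : Rx θ e) :
    tan (e / 2) ^ 2 * (2 * WW θ e * tan (e / 2) +
      WW θ e ^ 2 * (sin (θ + e) * sin (θ - e)) /
        (2 * tau (θ + e) * cos (θ - e) * sin (2 * θ) * cos (e / 2) ^ 2)) ≤
      63 / 100 * e - 4 / 5 * (θ - 24 / 25) + e ^ 2 := by
  have he0 := h.e0
  have he1 := h.e1
  have hp0 := h.p0
  obtain ⟨hW0, hW1⟩ := xr_W h
  have hcp : 0 < cos (θ - e) := by linarith [h.cp, h.cos0]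
  have hsb : 0 < sin (θ + e) := by linarith [h.sb, h.sin0]
  have hsp := h.sp0
  have htb := h.tb
  have hs2 : 0 < sin (2 * θ) := by linarith [(xr_sin2 h).1]
  have hQ0 : 0 ≤ sin (θ + e) * sin (θ - e) /
      (2 * tau (θ + e) * cos (θ - e) * sin (2 * θ) * cos (e / 2) ^ 2) := by positivity
  have hQR : ∀ {R : ℝ}, sin (θ + e) * sin (θ - e) /
      (2 * tau (θ + e) * cos (θ - e) * sin (2 * θ) * cos (e / 2) ^ 2) ≤ R →
      ∀ {w : ℝ}, WW θ e ≤ w → tan (e / 2) ^ 2 * (2 * WW θ e * tan (e / 2) +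
      WW θ e ^ 2 * (sin (θ + e) * sin (θ - e)) /
        (2 * tau (θ + e) * cos (θ - e) * sin (2 * θ) * cos (e / 2) ^ 2)) ≤
        (13 / 25 * e) ^ 2 * (2 * w * (13 / 25 * e) + w ^ 2 * R) := by
    intro R hR w hw
    have := xr_key h hw hR hQ0
    rwa [← mul_div_assoc] at this
  rcases le_total e (3 / 10) with h3 | h3
  · obtain ⟨a1, a2⟩ := xr_sc (p := θ - e) (q := 93 / 100) (s := 802 / 1000) (c := 597 / 1000)
      (by linarith) h.p1 (by norm_num) (by norm_num) (by norm_num)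
    have a3 := xr_cos (e := e) (x := 3 / 10) (by linarith) h3 (by norm_num)
    have hR := xr_R h (R := 5 / 2) a1 a2 (by norm_num) (β := 103 / 100) (by norm_num) h.b0
      (by norm_num) a3 (by norm_num) (by norm_num)
    refine (hQR hR (w := 151 / 100) (by linarith)).trans ?_
    have a4 : θ - 24 / 25 ≤ 2 / 5 * e := by linarith [h.c]
    nlinarith
  · rcases le_total e (9 / 20) with h4 | h4
    · obtain ⟨a1, a2⟩ := xr_sc (p := θ - e) (q := 3 / 4) (s := 682 / 1000) (c := 731 / 1000)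
        (by linarith) (by linarith [h.b]) (by norm_num) (by norm_num) (by norm_num)
      have a3 := xr_cos (e := e) (x := 9 / 20) (by linarith) h4 (by norm_num)
      have hR := xr_R h (R := 6 / 5) a1 a2 (by norm_num) (β := 128 / 100) (by norm_num)
        (by linarith [h.a]) (by norm_num) a3 (by norm_num) (by norm_num)
      refine (hQR hR (w := 1915 / 1000) (by linarith)).trans ?_
      have a4 : θ - 24 / 25 ≤ 9 / 100 := by linarith [h.b]
      have a5 : 0 ≤ (e - 3 / 10) * (9 / 20 - e) := mul_nonneg (by linarith) (by linarith)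
      nlinarith [mul_nonneg a5 (by linarith : 0 ≤ e)]
    · obtain ⟨a1, a2⟩ := xr_sc (p := θ - e) (q := 3 / 5) (s := 565 / 1000) (c := 825 / 1000)
        (by linarith) (by linarith [h.b]) (by norm_num) (by norm_num) (by norm_num)
      have a3 := xr_cos (e := e) (x := 591 / 1000) (by linarith) he1 (by norm_num)
      have hR := xr_R h (R := 4 / 5) a1 a2 (by norm_num) (β := 143 / 100) (by norm_num)
        (by linarith [h.a]) (by norm_num) a3 (by norm_num) (by norm_num)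
      refine (hQR hR (w := 2296 / 1000) (by linarith)).trans ?_
      have a4 : θ - 24 / 25 ≤ 9 / 100 := by linarith [h.b]
      have a5 : 0 ≤ (e - 9 / 20) * (591 / 1000 - e) := mul_nonneg (by linarith) (by linarith)
      nlinarith [mul_nonneg a5 (by linarith : 0 ≤ e)]

end Pool.Agent.H46.KO
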