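import Pool.Agent.H46.KO.Xa
import Pool.Agent.H46.KO.X1
import Pool.Agent.H46.KO.Xf
import Pool.Agent.H46.KO.Xr

/-!
# All scalar facts on the region `Rx`
-/

namespace Pool.Agent.H46.KO

theorem facts_x {θ e : ℝ} (h : Rx θ e) : Facts θ e where
  vv := x_vv h
  qr := (x_rh h).trans (x_fl h)
  e1 := x_e1 h
  ea := x_ea h
  eb := x_eb h
  f5 := x_f5 h

end Pool.Agent.H46.KO
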