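import Pool.Agent.H46.KO.Ba

/-!
# The fact `e1`, `0 < e < θ <= 49/50`, `b = θ + e`, `p = θ - e`, `c = cos θ`

`D = c sin b tau b - sin p cos p (sin^3 b - c (b - sin b cos b))` vanishes at `e = 0` and
`dD/de = c (cos b tau b + b sin^2 b) + cos 2p (sin^3 b - c (b - sin b cos b))
  - sin p cos p sin^2 b (3 cos b - 2 c)`,
which is `>= 0` on the whole triangle `0 <= e <= θ <= 49/50` (numerically `>= 0.0115 b^3`, minimum
at `e = θ = 49/50`; `>= 0.19 b^3` for `b <= π/2`; for small angles it is `(2/3) b^3 + 2 e b^2`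
up to higher order).
`e1_deriv` is the scalar fact (to be proved by polynomial bounds or by interval arithmetic),
`fact_e1` follows from it by the mean value theorem in `e`.

Proof of `e1_deriv`. With `s, k = sin b, cos b`, `m, q = sin p, cos p`, `B = b - s k`,
`dD/de = (2q^2-1) s^3 + 2 c k tau + 2 c m^2 B + m q s^2 (2c - 3k)`.
* `b <= π/2`: `tau >= s^3/3`, `B >= 2 s^3/3`, `c >= (k+q)/2`, so it is `>= s^2` times
  `s (2q^2-1 + (k+q)(k+2m^2)/3) + m q (q-2k)`; if `q >= 2k` then `p <= π/4` and all terms are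
  `>= 0`, otherwise `m <= s` and the rest is a polynomial in `k <= q`, minimal at `k = q >= .55`.
* `b >= π/2`: it is `>= s^3 + 2 c k tau`, `c <= cos (b/2)`, a one variable inequality.
-/

open Real

namespace Pool.Agent.H46.KO

/-- `dD/de` -/
noncomputable def De (θ e : ℝ) : ℝ :=
  cos θ * (cos (θ + e) * tau (θ + e) + (θ + e) * sin (θ + e) ^ 2) +
    cos (2 * (θ - e)) *
      (sin (θ + e) ^ 3 - cos θ * (θ + e - sin (θ + e) * cos (θ + e))) -
    sin (θ - e) * cos (θ - e) * (sin (θ + e) ^ 2 * (3 * cos (θ + e) - 2 * cos θ))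

/-- `sin^3 b <= 3 tau b` -/
private theorem s1_tau {b : ℝ} (h0 : 0 ≤ b) (h1 : b ≤ π) : sin b ^ 3 / 3 ≤ tau b := by
  have hd : ∀ x : ℝ, HasDerivAt (fun x : ℝ => sin x - x * cos x - sin x ^ 3 / 3)
      (sin x * (x - sin x * cos x)) x := by
    intro x
    have h := ((Real.hasDerivAt_sin x).sub
      ((hasDerivAt_id x).mul (Real.hasDerivAt_cos x))).sub
        (((Real.hasDerivAt_sin x).pow 3).div_const 3)
    refine h.congr_deriv ?_
    simp
    ring
  have hm : MonotoneOn (fun x : ℝ => sin x - x * cos x - sin x ^ 3 / 3) (Set.Icc 0 π) := by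
    refine monotoneOn_of_deriv_nonneg (convex_Icc 0 π) ?_ ?_ ?_
    · exact fun x _ => (hd x).continuousAt.continuousWithinAt
    · exact fun x _ => (hd x).differentiableAt.differentiableWithinAt
    · intro x hx
      rw [interior_Icc] at hx
      rw [(hd x).deriv]
      have h2 : 0 < sin x := sin_pos_of_pos_of_lt_pi hx.1 hx.2
      have h3 : sin x < x := sin_lt hx.1
      have h4 : cos x ≤ 1 := cos_le_one x
      refine mul_nonneg h2.le ?_
      nlinarith
  have h := hm ⟨le_refl 0, pi_pos.le⟩ ⟨h0, h1⟩ h0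
  unfold tau
  simp at h
  linarith

/-- `2 sin^3 b <= 3 (b - sin b cos b)` -/
private theorem s1_B {b : ℝ} (h0 : 0 ≤ b) (h1 : b ≤ π) :
    2 * sin b ^ 3 / 3 ≤ b - sin b * cos b := by
  have hd : ∀ x : ℝ, HasDerivAt (fun x : ℝ => x - sin x * cos x - 2 * sin x ^ 3 / 3)
      (2 * sin x ^ 2 * (1 - cos x)) x := by
    intro x
    have h := ((hasDerivAt_id x).sub
      ((Real.hasDerivAt_sin x).mul (Real.hasDerivAt_cos x))).sub
        ((((Real.hasDerivAt_sin x).pow 3).const_mul 2).div_const 3)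
    refine h.congr_deriv ?_
    have h3 := sin_sq_add_cos_sq x
    simp
    linear_combination (1 : ℝ) * (-1) * h3
  have hm : MonotoneOn (fun x : ℝ => x - sin x * cos x - 2 * sin x ^ 3 / 3) (Set.Icc 0 π) := by
    refine monotoneOn_of_deriv_nonneg (convex_Icc 0 π) ?_ ?_ ?_
    · exact fun x _ => (hd x).continuousAt.continuousWithinAt
    · exact fun x _ => (hd x).differentiableAt.differentiableWithinAt
    · intro x hx
      rw [(hd x).deriv]
      have h4 : cos x ≤ 1 := cos_le_one x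
      have h5 : 0 ≤ 1 - cos x := by linarith
      positivity
  have h := hm ⟨le_refl 0, pi_pos.le⟩ ⟨h0, h1⟩ h0
  simp at h
  linarith

private theorem s1_cos {θ : ℝ} (h0 : 0 ≤ θ) (h1 : θ ≤ 49 / 50) : 11 / 20 ≤ cos θ := by
  have h2 : cos θ = 1 - 2 * sin (θ / 2) ^ 2 := by
    have := cos_two_mul' (θ / 2)
    have h3 := sin_sq_add_cos_sq (θ / 2)
    have h4 : 2 * (θ / 2) = θ := by ring
    rw [h4] at this
    rw [this]
    linarith
  have h3 : sin (θ / 2) ≤ 474 / 1000 := by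
    have hm : sin (θ / 2) ≤ sin (49 / 100) := by
      refine sin_le_sin_of_le_of_le_pi_div_two ?_ ?_ ?_
      · linarith [pi_pos]
      · linarith [pi_gt_three]
      · linarith
    have hb := Real.sin_bound (x := 49 / 100) (by norm_num [abs_le])
    rw [abs_le] at hb
    have h5 : |(49 / 100 : ℝ)| = 49 / 100 := abs_of_pos (by norm_num)
    rw [h5] at hb
    have := hb.2
    norm_num at this
    linarith
  have h4 : 0 ≤ sin (θ / 2) := by
    refine sin_nonneg_of_nonneg_of_le_pi (by linarith) ?_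
    linarith [pi_gt_three]
  rw [h2]
  nlinarith

/-- the derivative in product form -/
private theorem s1_form (θ e : ℝ) : De θ e =
    (2 * cos (θ - e) ^ 2 - 1) * sin (θ + e) ^ 3 +
      2 * cos θ * cos (θ + e) * tau (θ + e) +
      2 * cos θ * sin (θ - e) ^ 2 * (θ + e - sin (θ + e) * cos (θ + e)) +
      sin (θ - e) * cos (θ - e) * sin (θ + e) ^ 2 * (2 * cos θ - 3 * cos (θ + e)) := by
  have h1 := sin_sq_add_cos_sq (θ - e)
  have h2 := sin_sq_add_cos_sq (θ + e)
  have h3 : cos (2 * (θ - e)) = 2 * cos (θ - e) ^ 2 - 1 := cos_two_mul _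
  unfold De tau
  rw [h3]
  generalize cos θ = c at *
  generalize cos (θ - e) = q at *
  generalize sin (θ - e) = m at *
  generalize θ + e = b at *
  generalize cos b = k at *
  generalize sin b = s at *
  linear_combination (-2 * c * (b - s * k)) * h1 + (c * b) * h2

/-- `c >= (k + q)/2` -/
private theorem s1_c {θ e : ℝ} (h0 : 0 ≤ cos θ) :
    cos (θ + e) + cos (θ - e) ≤ 2 * cos θ := by
  rw [cos_add, cos_sub]
  nlinarith [cos_le_one e]

private theorem s1_poly {k q : ℝ} (h0 : k ≤ q) (h1 : 11 / 20 ≤ q) (h2 : q ≤ 1) :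
    0 ≤ 2 * q ^ 2 - 1 + (k + q) * (k + 2 * (1 - q ^ 2)) / 3 + q * (q - 2 * k) := by
  have e1 : 2 * q ^ 2 - 1 + (k + q) * (k + 2 * (1 - q ^ 2)) / 3 + q * (q - 2 * k) =
      (-1 + 4 / 3 * q + 5 / 3 * q ^ 2 - 4 / 3 * q ^ 3) +
        (q - k) * ((2 * q - 1) * (q + 2) / 3) + (q - k) ^ 2 / 3 := by
    ring
  rw [e1]
  have h3 : 0 ≤ (q - k) * ((2 * q - 1) * (q + 2) / 3) := by
    refine mul_nonneg (by linarith) ?_
    have : 0 ≤ (2 * q - 1) * (q + 2) := mul_nonneg (by linarith) (by linarith)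
    linarith
  have h4 : 0 ≤ -1 + 4 / 3 * q + 5 / 3 * q ^ 2 - 4 / 3 * q ^ 3 := by
    have h5 : 0 ≤ (q - 11 / 20) * (1 - q) := mul_nonneg (by linarith) (by linarith)
    nlinarith
  have h6 : 0 ≤ (q - k) ^ 2 / 3 := by positivity
  linarith

/-- small `b` -/
private theorem s1_small {θ e : ℝ} (h0 : 0 ≤ e) (h1 : e ≤ θ) (h2 : θ ≤ 49 / 50)
    (hb : θ + e ≤ π / 2) : 0 ≤ De θ e := by
  have hpi := pi_gt_d2
  have hpi2 := pi_lt_d2
  have hc : 11 / 20 ≤ cos θ := s1_cos (by linarith) h2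
  have hq : 11 / 20 ≤ cos (θ - e) := s1_cos (by linarith) (by linarith)
  have hq1 : cos (θ - e) ≤ 1 := cos_le_one _
  have hk0 : 0 ≤ cos (θ + e) := cos_nonneg_of_mem_Icc ⟨by linarith, hb⟩
  have hkq : cos (θ + e) ≤ cos (θ - e) :=
    cos_le_cos_of_nonneg_of_le_pi (by linarith) (by linarith) (by linarith)
  have hm0 : 0 ≤ sin (θ - e) := sin_nonneg_of_nonneg_of_le_pi (by linarith) (by linarith)
  have hs0 : 0 ≤ sin (θ + e) := sin_nonneg_of_nonneg_of_le_pi (by linarith) (by linarith)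
  have hms : sin (θ - e) ≤ sin (θ + e) :=
    sin_le_sin_of_le_of_le_pi_div_two (by linarith) hb (by linarith)
  have hT := s1_tau (b := θ + e) (by linarith) (by linarith)
  have hB := s1_B (b := θ + e) (by linarith) (by linarith)
  have hcc := s1_c (θ := θ) (e := e) (by linarith)
  have hsq := sin_sq_add_cos_sq (θ - e)
  -- if `q >= 2k` then `2 q^2 >= 1`
  have hcase : cos (θ - e) < 2 * cos (θ + e) ∨ 1 ≤ 2 * cos (θ - e) ^ 2 := by
    rcases le_or_gt (θ - e) (π / 4) with hp | hp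
    · right
      have h3 : cos (π / 4) ≤ cos (θ - e) :=
        cos_le_cos_of_nonneg_of_le_pi (by linarith) (by linarith) hp
      rw [cos_pi_div_four] at h3
      have h4 : (0 : ℝ) ≤ √2 / 2 := by positivity
      have h5 : (√2 / 2) ^ 2 ≤ cos (θ - e) ^ 2 := pow_le_pow_left₀ h4 h3 2
      have h6 : (√2 / 2) ^ 2 = 1 / 2 := by
        rw [div_pow, sq_sqrt (by norm_num)]
        norm_num
      linarith
    · left
      have h3 : cos (θ - e) ≤ cos (π / 4) :=
        cos_le_cos_of_nonneg_of_le_pi (by linarith) (by linarith) hp.le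
      rw [cos_pi_div_four] at h3
      have h4 : √2 < 1.42 := by
        rw [sqrt_lt' (by norm_num)]
        norm_num
      have h5 : sin (39 / 100) ≤ cos (θ + e) := by
        rw [← sin_pi_div_two_sub]
        refine sin_le_sin_of_le_of_le_pi_div_two ?_ ?_ ?_
        · linarith
        · linarith
        · have h6 := pi_gt_d4
          linarith
      have h7 : (39 / 100 : ℝ) - (39 / 100) ^ 3 / 6 < sin (39 / 100) :=
        sin_gt_sub_cube (by norm_num)
      norm_num at h7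
      linarith
  have hform := s1_form θ e
  generalize De θ e = DD at *
  generalize tau (θ + e) = T at *
  have hBB : 0 ≤ θ + e - sin (θ + e) * cos (θ + e) := by
    have : 0 ≤ 2 * sin (θ + e) ^ 3 / 3 := by positivity
    linarith
  generalize θ + e - sin (θ + e) * cos (θ + e) = B at *
  generalize cos θ = c at *
  generalize cos (θ - e) = q at *
  generalize sin (θ - e) = m at *
  generalize cos (θ + e) = k at *
  generalize sin (θ + e) = s at *
  have hc0 : 0 ≤ c := by linarith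
  have hq0 : 0 ≤ q := by linarith
  -- step 1
  have g1 : 2 * c * k * (s ^ 3 / 3) ≤ 2 * c * k * T :=
    mul_le_mul_of_nonneg_left hT (by positivity)
  have g2 : 2 * c * m ^ 2 * (2 * s ^ 3 / 3) ≤ 2 * c * m ^ 2 * B :=
    mul_le_mul_of_nonneg_left hB (by positivity)
  -- step 2
  have g3 : 0 ≤ (2 * c - (k + q)) * (k * s ^ 3 / 3 + 2 * m ^ 2 * s ^ 3 / 3 + m * q * s ^ 2) :=
    mul_nonneg (by linarith) (by positivity)
  have g4 : s ^ 2 * (s * (2 * q ^ 2 - 1 + (k + q) * (k + 2 * (1 - q ^ 2)) / 3) +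
      m * q * (q - 2 * k)) ≤ DD := by
    rw [hform]
    have e1 : m ^ 2 = 1 - q ^ 2 := by linarith
    have e2 : (2 * q ^ 2 - 1) * s ^ 3 + 2 * c * k * (s ^ 3 / 3) + 2 * c * m ^ 2 * (2 * s ^ 3 / 3) +
        m * q * s ^ 2 * (2 * c - 3 * k) -
        (2 * c - (k + q)) * (k * s ^ 3 / 3 + 2 * m ^ 2 * s ^ 3 / 3 + m * q * s ^ 2) =
        s ^ 2 * (s * (2 * q ^ 2 - 1 + (k + q) * (k + 2 * (1 - q ^ 2)) / 3) +
      m * q * (q - 2 * k)) := by
      linear_combination (2 / 3 * (k + q) * s ^ 3) * e1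
    linarith
  refine le_trans (mul_nonneg (sq_nonneg s) ?_) g4
  rcases le_or_gt (2 * k) q with hA | hA
  · have h5 : 1 ≤ 2 * q ^ 2 := by
      rcases hcase with h | h
      · exact absurd hA (not_le.mpr h)
      · exact h
    have h6 : 0 ≤ (k + q) * (k + 2 * (1 - q ^ 2)) := by
      refine mul_nonneg (by linarith) ?_
      nlinarith
    have h7 : 0 ≤ m * q * (q - 2 * k) := mul_nonneg (by positivity) (by linarith)
    have h8 : 0 ≤ s * (2 * q ^ 2 - 1 + (k + q) * (k + 2 * (1 - q ^ 2)) / 3) :=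
      mul_nonneg hs0 (by linarith)
    linarith
  · have h5 := s1_poly hkq hq hq1
    have h6 : 0 ≤ (s - m) * (q * (2 * k - q)) :=
      mul_nonneg (by linarith) (mul_nonneg hq0 (by linarith))
    have h7 := mul_nonneg hs0 h5
    have e1 : s * (2 * q ^ 2 - 1 + (k + q) * (k + 2 * (1 - q ^ 2)) / 3) + m * q * (q - 2 * k) =
        s * (2 * q ^ 2 - 1 + (k + q) * (k + 2 * (1 - q ^ 2)) / 3 + q * (q - 2 * k)) +
          (s - m) * (q * (2 * k - q)) := by
      ring
    rw [e1]
    linarith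

private theorem s1_y {y : ℝ} (hy : 0 ≤ y) (hy' : y ≤ 39 / 100) :
    y * ((1 - y ^ 2 / 2) + 49 / 25 * y) ≤ (1 - y ^ 2) * (707 / 1000 + 32 / 100 * y) := by
  have n1 : 0 ≤ y * (39 / 100 - y) := mul_nonneg hy (by linarith)
  have n2 : 0 ≤ y ^ 3 := by positivity
  have e1 : (1 - y ^ 2) * (707 / 1000 + 32 / 100 * y) - y * ((1 - y ^ 2 / 2) + 49 / 25 * y) =
      (707 / 1000 - 172013 / 100000 * y) + 2667 / 1000 * (y * (39 / 100 - y)) +
        18 / 100 * y ^ 3 := by
    ring
  have n3 : 0 ≤ (707 / 1000 - 172013 / 100000 * y) := by linarith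
  linarith

private theorem s1_s {s y : ℝ} (hs : s ^ 2 = 1 - y ^ 2) (h0 : 0 ≤ 1 - y ^ 2 / 2) :
    s ≤ 1 - y ^ 2 / 2 := by
  refine le_of_sq_le_sq ?_ h0
  rw [hs]
  nlinarith [sq_nonneg (y ^ 2)]

private theorem s1_σ {σ y : ℝ} (h1 : σ ^ 2 = (1 + y) / 2) (hσ0 : 0 ≤ σ) (hy : 0 ≤ y)
    (hy' : y ≤ 39 / 100) : 707 / 1000 + 32 / 100 * y ≤ σ := by
  refine le_of_sq_le_sq ?_ hσ0
  rw [h1]
  nlinarith

/-- large `b` -/
private theorem s1_large {θ e : ℝ} (h0 : 0 ≤ e) (h1 : e ≤ θ) (h2 : θ ≤ 49 / 50)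
    (hb : π / 2 ≤ θ + e) : 0 ≤ De θ e := by
  have hpi := pi_gt_d2
  have hpi2 := pi_lt_d2
  have hpi4 := pi_gt_d4
  have hc : 11 / 20 ≤ cos θ := s1_cos (by linarith) h2
  have hp : θ - e ≤ 2 / 5 := by linarith
  have hm0 : 0 ≤ sin (θ - e) := sin_nonneg_of_nonneg_of_le_pi (by linarith) (by linarith)
  have hm1 : sin (θ - e) ≤ 2 / 5 := (sin_le (by linarith)).trans hp
  have hq : 9 / 10 ≤ cos (θ - e) := by
    have := one_sub_sq_div_two_le_cos (x := θ - e)
    nlinarith
  have hs0 : 0 < sin (θ + e) := sin_pos_of_pos_of_lt_pi (by linarith) (by linarith)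
  have hs1 : sin (θ + e) ≤ 1 := sin_le_one _
  -- `y = - cos b`
  have hy0 : cos (θ + e) ≤ 0 := cos_nonpos_of_pi_div_two_le_of_le hb (by linarith)
  have hy1 : - cos (θ + e) ≤ 39 / 100 := by
    have h3 : - cos (θ + e) = sin (θ + e - π / 2) := by
      rw [sin_sub_pi_div_two]
    rw [h3]
    refine (sin_le (by linarith)).trans ?_
    linarith
  have hB := s1_B (b := θ + e) (by linarith) (by linarith)
  have hBB : 0 ≤ θ + e - sin (θ + e) * cos (θ + e) := by
    have : 0 ≤ 2 * sin (θ + e) ^ 3 / 3 := by positivity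
    linarith
  have hsq := sin_sq_add_cos_sq (θ + e)
  have hsqp := sin_sq_add_cos_sq (θ - e)
  -- half angle
  have hg : cos θ ≤ cos ((θ + e) / 2) :=
    cos_le_cos_of_nonneg_of_le_pi (by linarith) (by linarith) (by linarith)
  have hs2 : sin (θ + e) = 2 * sin ((θ + e) / 2) * cos ((θ + e) / 2) := by
    rw [← sin_two_mul]
    congr 1
    ring
  have hk2 : cos (θ + e) = 1 - 2 * sin ((θ + e) / 2) ^ 2 := by
    have := cos_two_mul' ((θ + e) / 2)
    have h3 := sin_sq_add_cos_sq ((θ + e) / 2)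
    have h4 : 2 * ((θ + e) / 2) = θ + e := by ring
    rw [h4] at this
    rw [this]
    linarith
  have hσ0 : 0 ≤ sin ((θ + e) / 2) :=
    sin_nonneg_of_nonneg_of_le_pi (by linarith) (by linarith)
  have hform := s1_form θ e
  have hτ : tau (θ + e) = sin (θ + e) + (θ + e) * (- cos (θ + e)) := by
    unfold tau
    ring
  have hbb : θ + e ≤ 49 / 25 := by linarith
  have hb0 : 0 ≤ θ + e := by linarith
  rw [hform, hτ]
  generalize θ + e - sin (θ + e) * cos (θ + e) = B at *
  generalize sin ((θ + e) / 2) = σ at *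
  generalize cos ((θ + e) / 2) = g at *
  generalize cos θ = c at *
  generalize cos (θ - e) = q at *
  generalize sin (θ - e) = m at *
  generalize hk : cos (θ + e) = k at *
  generalize hs : sin (θ + e) = s at *
  generalize θ + e = b at *
  obtain ⟨y, rfl⟩ : ∃ y, k = -y := ⟨-k, by ring⟩
  have hy : 0 ≤ y := by linarith
  have hy' : y ≤ 39 / 100 := by linarith
  have hc0 : 0 ≤ c := by linarith
  have hq0 : 0 ≤ q := by linarith
  -- one variable inequality
  have k1 : σ ^ 2 = (1 + y) / 2 := by linarith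
  have k2 : 707 / 1000 + 32 / 100 * y ≤ σ := s1_σ k1 hσ0 hy hy'
  have k4 : s ^ 2 = 1 - y ^ 2 := by linarith
  have k3 : s ≤ 1 - y ^ 2 / 2 := s1_s k4 (by nlinarith)
  have k5 : y * (s + b * y) ≤ s ^ 2 * σ := by
    have l1 : y * (s + b * y) ≤ y * ((1 - y ^ 2 / 2) + 49 / 25 * y) := by
      refine mul_le_mul_of_nonneg_left ?_ hy
      nlinarith
    have l2 : s ^ 2 * (707 / 1000 + 32 / 100 * y) ≤ s ^ 2 * σ :=
      mul_le_mul_of_nonneg_left k2 (sq_nonneg s)
    rw [k4] at l2 ⊢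
    linarith [s1_y hy hy']
  have hT0 : 0 ≤ s + b * y := by positivity
  -- main term
  have k6 : 2 * c * (y * (s + b * y)) ≤ s ^ 3 := by
    have hg0 : 0 ≤ g := by linarith
    have hY : 0 ≤ y * (s + b * y) := mul_nonneg hy hT0
    have m1 : c * (y * (s + b * y)) ≤ g * (s ^ 2 * σ) := mul_le_mul hg k5 hY hg0
    have m2 : s ^ 3 = 2 * (g * (s ^ 2 * σ)) := by
      linear_combination (s ^ 2) * hs2
    linarith
  have k7 : 0 ≤ 2 * s ^ 2 * m * (c * q - s * m) := by
    refine mul_nonneg (by positivity) ?_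
    have l1 : 11 / 20 * (9 / 10) ≤ c * q := mul_le_mul hc hq (by norm_num) hc0
    have l2 : s * m ≤ 1 * (2 / 5) := mul_le_mul hs1 hm1 hm0 (by norm_num)
    linarith
  have k8 : 0 ≤ 2 * c * m ^ 2 * B := by positivity
  have k9 : 0 ≤ m * q * s ^ 2 * (3 * y) := by positivity
  have e1 : (2 * q ^ 2 - 1) * s ^ 3 + 2 * c * -y * (s + b * (- -y)) + 2 * c * m ^ 2 * B +
      m * q * s ^ 2 * (2 * c - 3 * -y) =
      (s ^ 3 - 2 * c * (y * (s + b * y))) + 2 * s ^ 2 * m * (c * q - s * m) +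
        2 * c * m ^ 2 * B + m * q * s ^ 2 * (3 * y) := by
    linear_combination (2 * s ^ 3) * hsqp
  rw [e1]
  linarith

theorem e1_deriv {θ e : ℝ} (h0 : 0 ≤ e) (h1 : e ≤ θ) (h2 : θ ≤ 49 / 50) : 0 ≤ De θ e := by
  rcases le_total (θ + e) (π / 2) with h | h
  · exact s1_small h0 h1 h2 h
  · exact s1_large h0 h1 h2 h

theorem fact_e1 {θ e : ℝ} (h0 : 0 < e) (h1 : e < θ) (h2 : θ ≤ 49 / 50) :
    sin (θ - e) * cos (θ - e) *
        (sin (θ + e) ^ 3 - cos θ * (θ + e - sin (θ + e) * cos (θ + e))) ≤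
      cos θ * sin (θ + e) * tau (θ + e) := by
  have hd : ∀ x : ℝ, HasDerivAt (fun x : ℝ => cos θ * sin (θ + x) * tau (θ + x) -
      sin (θ - x) * cos (θ - x) *
        (sin (θ + x) ^ 3 - cos θ * (θ + x - sin (θ + x) * cos (θ + x)))) (De θ x) x := by
    intro x
    have ha : HasDerivAt (fun x : ℝ => θ + x) 1 x := (hasDerivAt_id x).const_add θ
    have hb : HasDerivAt (fun x : ℝ => θ - x) (-1) x := (hasDerivAt_id x).const_sub θ
    have hsa := ha.sin
    have hca := ha.cos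
    have hsb := hb.sin
    have hcb := hb.cos
    have ht : HasDerivAt (fun x : ℝ => tau (θ + x)) ((θ + x) * sin (θ + x)) x := by
      unfold tau
      refine (hsa.sub (ha.mul hca)).congr_deriv ?_
      ring
    have h := ((hsa.const_mul (cos θ)).mul ht).sub
      ((hsb.mul hcb).mul ((hsa.pow 3).sub ((ha.sub (hsa.mul hca)).const_mul (cos θ))))
    refine h.congr_deriv ?_
    have h3 := sin_sq_add_cos_sq (θ - x)
    have h4 := sin_sq_add_cos_sq (θ + x)
    have h5 : cos (2 * (θ - x)) = 2 * cos (θ - x) ^ 2 - 1 := cos_two_mul _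
    unfold De
    rw [h5]
    simp only [Pi.mul_apply, Pi.sub_apply, Pi.pow_apply]
    generalize cos θ = c at *
    generalize cos (θ - x) = q at *
    generalize sin (θ - x) = m at *
    generalize tau (θ + x) = T at *
    generalize θ + x = b at *
    generalize cos b = k at *
    generalize sin b = s at *
    norm_num
    linear_combination (s ^ 3 - c * (b - s * k)) * (-1 : ℝ) * h3 - (m * q * c) * h4
  have hm : MonotoneOn (fun x : ℝ => cos θ * sin (θ + x) * tau (θ + x) -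
      sin (θ - x) * cos (θ - x) *
        (sin (θ + x) ^ 3 - cos θ * (θ + x - sin (θ + x) * cos (θ + x)))) (Set.Icc 0 θ) := by
    refine monotoneOn_of_deriv_nonneg (convex_Icc 0 θ) ?_ ?_ ?_
    · exact fun x _ => (hd x).continuousAt.continuousWithinAt
    · exact fun x _ => (hd x).differentiableAt.differentiableWithinAt
    · intro x hx
      rw [interior_Icc] at hx
      rw [(hd x).deriv]
      exact e1_deriv hx.1.le hx.2.le h2
  have h := hm ⟨le_refl 0, by linarith⟩ ⟨h0.le, h1.le⟩ h0.le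
  have h3 : cos θ * sin (θ + 0) * tau (θ + 0) -
      sin (θ - 0) * cos (θ - 0) *
        (sin (θ + 0) ^ 3 - cos θ * (θ + 0 - sin (θ + 0) * cos (θ + 0))) = 0 := by
    unfold tau
    rw [add_zero, sub_zero]
    linear_combination (- cos θ * sin θ ^ 2) * sin_sq_add_cos_sq θ
  simp only [] at h
  rw [h3] at h
  linarith

end Pool.Agent.H46.KO
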