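import Pool.Agent.H46.KO.Ba

/-!
# The fact `rh`: the left side of `qr` is `<= b^2 e^2/3`, `0 < e < θ <= 49/50`

Numerically it is `<= .275 b^2 e^2` (maximum at `θ = .9`, `e = .316`; for small angles it is of
order `e^2 b^2 θ^2`). Useful: `sin b/tau b <= 3/b^2` (loses a factor `<= 1.09` for `b <= 1.3`;
`3 tau b >= b^2 sin b` on `[0, π]`), so
`WW^2 sin b sin p/(2 tau b cos p sin 2θ cos^2 (e/2)) <= (3/2) (WW/b)^2 tan p/(sin 2θ cos^2 (e/2))`,
`WW/b = sin e (sin 2θ + sin^2 b/b) + (sin b/b) sin θ sin 2θ`.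
-/

open Real

namespace Pool.Agent.H46.KO

/-! ### Taylor bounds -/

private theorem SrMono {f f' : ℝ → ℝ} (hd : ∀ x, HasDerivAt f (f' x) x) (h0 : f 0 = 0)
    (hp : ∀ x, 0 ≤ x → 0 ≤ f' x) {x : ℝ} (hx : 0 ≤ x) : 0 ≤ f x := by
  have hm : MonotoneOn f (Set.Ici 0) := by
    refine monotoneOn_of_deriv_nonneg (convex_Ici 0) ?_ ?_ ?_
    · exact fun y _ => (hd y).continuousAt.continuousWithinAt
    · exact fun y _ => (hd y).differentiableAt.differentiableWithinAt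
    · intro y hy
      rw [interior_Ici] at hy
      rw [(hd y).deriv]
      exact hp y (le_of_lt hy)
  have h := hm (Set.mem_Ici.mpr (le_refl 0)) (Set.mem_Ici.mpr hx) hx
  rw [h0] at h
  exact h

private theorem SrC2 {x : ℝ} (hx : 0 ≤ x) : 1 - x ^ 2 / 2 ≤ cos x := by
  have := SrMono (f := fun x => cos x - (1 - x ^ 2 / 2)) (f' := fun x => - sin x + x)
    (fun x => by
      have h := (Real.hasDerivAt_cos x).sub (((hasDerivAt_pow 2 x).div_const 2).const_sub 1)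
      refine h.congr_deriv ?_
      simp)
    (by simp) (fun x hx => by linarith [Real.sin_le hx]) hx
  linarith

private theorem SrS3 {x : ℝ} (hx : 0 ≤ x) : x - x ^ 3 / 6 ≤ sin x := by
  have := SrMono (f := fun x => sin x - (x - x ^ 3 / 6)) (f' := fun x => cos x - (1 - x ^ 2 / 2))
    (fun x => by
      have h := (Real.hasDerivAt_sin x).sub ((hasDerivAt_id x).sub ((hasDerivAt_pow 3 x).div_const 6))
      refine h.congr_deriv ?_
      simp
      ring)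
    (by simp) (fun x hx => by linarith [SrC2 hx]) hx
  linarith

private theorem SrC4 {x : ℝ} (hx : 0 ≤ x) : cos x ≤ 1 - x ^ 2 / 2 + x ^ 4 / 24 := by
  have := SrMono (f := fun x => 1 - x ^ 2 / 2 + x ^ 4 / 24 - cos x)
    (f' := fun x => sin x - (x - x ^ 3 / 6))
    (fun x => by
      have h := ((((hasDerivAt_pow 2 x).div_const 2).const_sub 1).add
        ((hasDerivAt_pow 4 x).div_const 24)).sub (Real.hasDerivAt_cos x)
      refine h.congr_deriv ?_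
      simp
      ring)
    (by simp) (fun x hx => by linarith [SrS3 hx]) hx
  linarith

private theorem SrS5 {x : ℝ} (hx : 0 ≤ x) : sin x ≤ x - x ^ 3 / 6 + x ^ 5 / 120 := by
  have := SrMono (f := fun x => x - x ^ 3 / 6 + x ^ 5 / 120 - sin x)
    (f' := fun x => 1 - x ^ 2 / 2 + x ^ 4 / 24 - cos x)
    (fun x => by
      have h := (((hasDerivAt_id x).sub ((hasDerivAt_pow 3 x).div_const 6)).add
        ((hasDerivAt_pow 5 x).div_const 120)).sub (Real.hasDerivAt_sin x)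
      refine h.congr_deriv ?_
      simp
      ring)
    (by simp) (fun x hx => by linarith [SrC4 hx]) hx
  linarith

private theorem SrC6 {x : ℝ} (hx : 0 ≤ x) : 1 - x ^ 2 / 2 + x ^ 4 / 24 - x ^ 6 / 720 ≤ cos x := by
  have := SrMono (f := fun x => cos x - (1 - x ^ 2 / 2 + x ^ 4 / 24 - x ^ 6 / 720))
    (f' := fun x => x - x ^ 3 / 6 + x ^ 5 / 120 - sin x)
    (fun x => by
      have h := (Real.hasDerivAt_cos x).sub (((((hasDerivAt_pow 2 x).div_const 2).const_sub 1).add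
        ((hasDerivAt_pow 4 x).div_const 24)).sub ((hasDerivAt_pow 6 x).div_const 720))
      refine h.congr_deriv ?_
      simp
      ring)
    (by simp) (fun x hx => by linarith [SrS5 hx]) hx
  linarith

private theorem SrS7 {x : ℝ} (hx : 0 ≤ x) :
    x - x ^ 3 / 6 + x ^ 5 / 120 - x ^ 7 / 5040 ≤ sin x := by
  have := SrMono (f := fun x => sin x - (x - x ^ 3 / 6 + x ^ 5 / 120 - x ^ 7 / 5040))
    (f' := fun x => cos x - (1 - x ^ 2 / 2 + x ^ 4 / 24 - x ^ 6 / 720))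
    (fun x => by
      have h := (Real.hasDerivAt_sin x).sub ((((hasDerivAt_id x).sub
        ((hasDerivAt_pow 3 x).div_const 6)).add ((hasDerivAt_pow 5 x).div_const 120)).sub
        ((hasDerivAt_pow 7 x).div_const 5040))
      refine h.congr_deriv ?_
      simp
      ring)
    (by simp) (fun x hx => by linarith [SrC6 hx]) hx
  linarith

private theorem SrTan {x : ℝ} (hx : 0 ≤ x) (h1 : x ≤ 1 / 2) :
    tan x ≤ x * (1 + x ^ 2 / 3 + x ^ 4 / 6) := by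
  have hc : 0 < cos x := by
    have := SrC2 hx
    nlinarith
  rw [tan_eq_sin_div_cos, div_le_iff₀ hc]
  have h2 := SrS5 hx
  have h3 := SrC6 hx
  have h4 : 0 ≤ x * (1 + x ^ 2 / 3 + x ^ 4 / 6) := by positivity
  have h5 : x ^ 2 ≤ 1 / 4 := by nlinarith
  have h6 := mul_le_mul_of_nonneg_left h3 h4
  have h7 : x * (1 + x ^ 2 / 3 + x ^ 4 / 6) * (1 - x ^ 2 / 2 + x ^ 4 / 24 - x ^ 6 / 720) -
      (x - x ^ 3 / 6 + x ^ 5 / 120) = x ^ 5 * (1 / 30 - 51 / 720 * x ^ 2 +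
        7 / 1080 * x ^ 4 - x ^ 6 / 4320) := by ring
  have h8 : 0 ≤ 1 / 30 - 51 / 720 * x ^ 2 + 7 / 1080 * x ^ 4 - x ^ 6 / 4320 := by
    have h9 : x ^ 6 ≤ x ^ 4 := by
      have : x ^ 6 = x ^ 4 * x ^ 2 := by ring
      rw [this]
      nlinarith [pow_nonneg hx 4]
    nlinarith [pow_nonneg hx 4]
  have h10 : 0 ≤ x ^ 5 * (1 / 30 - 51 / 720 * x ^ 2 + 7 / 1080 * x ^ 4 - x ^ 6 / 4320) :=
    mul_nonneg (pow_nonneg hx 5) h8
  linarith

private theorem SrTau {b : ℝ} (h0 : 0 ≤ b) (h1 : b ≤ 49 / 25) : b ^ 2 * sin b ≤ 3 * tau b := by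
  have hd : ∀ x : ℝ, HasDerivAt (fun x : ℝ => 3 * (sin x - x * cos x) - x ^ 2 * sin x)
      (x * (sin x - x * cos x)) x := by
    intro x
    have h := (((Real.hasDerivAt_sin x).sub ((hasDerivAt_id x).mul (Real.hasDerivAt_cos x))).const_mul
      3).sub ((hasDerivAt_pow 2 x).mul (Real.hasDerivAt_sin x))
    refine h.congr_deriv ?_
    simp
    ring
  have hm : MonotoneOn (fun x : ℝ => 3 * (sin x - x * cos x) - x ^ 2 * sin x)
      (Set.Icc 0 (49 / 25)) := by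
    refine monotoneOn_of_deriv_nonneg (convex_Icc _ _) ?_ ?_ ?_
    · exact fun y _ => (hd y).continuousAt.continuousWithinAt
    · exact fun y _ => (hd y).differentiableAt.differentiableWithinAt
    · intro y hy
      rw [interior_Icc] at hy
      rw [(hd y).deriv]
      have h2 := tau_pos hy.1 (lt_trans hy.2 (by linarith [Real.pi_gt_three]))
      unfold tau at h2
      exact mul_nonneg hy.1.le h2.le
  have h := hm ⟨le_refl 0, by norm_num⟩ ⟨h0, h1⟩ h0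
  unfold tau
  simp at h
  linarith

private theorem SrCore {θ e A T R Q : ℝ} (h0 : 0 < e) (h1 : e < θ) (h2 : θ ≤ 49 / 50)
    (hA : 0 ≤ A) (hW0 : 0 ≤ WW θ e) (hW : WW θ e ≤ A * (θ + e) ^ 2) (hT : tan (e / 2) ≤ T)
    (hT0 : 0 ≤ tan (e / 2)) (hR : tan (e / 2) ≤ R * e)
    (hQ : sin (θ - e) / (cos (θ - e) * sin (2 * θ) * cos (e / 2) ^ 2) ≤ Q)
    (hQ0 : 0 ≤ sin (θ - e) / (cos (θ - e) * sin (2 * θ) * cos (e / 2) ^ 2))
    (hf : R ^ 2 * (2 * A * T + 3 / 2 * A ^ 2 * Q) ≤ 1 / 3) :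
    tan (e / 2) ^ 2 * (2 * WW θ e * tan (e / 2) +
      WW θ e ^ 2 * (sin (θ + e) * sin (θ - e)) /
        (2 * tau (θ + e) * cos (θ - e) * sin (2 * θ) * cos (e / 2) ^ 2)) ≤
      (θ + e) ^ 2 * e ^ 2 / 3 := by
  have hb0 : 0 < θ + e := by linarith
  have hb1 : θ + e ≤ 49 / 25 := by linarith
  have hpi := Real.pi_gt_three
  have ht := tau_pos hb0 (by linarith)
  have hs : 0 < sin (θ + e) := sin_pos_of_pos_of_lt_pi hb0 (by linarith)
  have hst : sin (θ + e) / tau (θ + e) ≤ 3 / (θ + e) ^ 2 := by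
    rw [div_le_div_iff₀ ht (by positivity)]
    linarith [SrTau hb0.le hb1]
  have hst0 : 0 ≤ sin (θ + e) / tau (θ + e) := by positivity
  set b := θ + e with hb
  set W := WW θ e with hWd
  set t := tan (e / 2) with htd
  have e1 : W ^ 2 * (sin b * sin (θ - e)) /
      (2 * tau b * cos (θ - e) * sin (2 * θ) * cos (e / 2) ^ 2) =
      W ^ 2 / 2 * (sin b / tau b) *
        (sin (θ - e) / (cos (θ - e) * sin (2 * θ) * cos (e / 2) ^ 2)) := by
    rw [div_mul_div_comm, div_mul_div_comm]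
    congr 1
    · ring
    · ring
  rw [e1]
  set q := sin (θ - e) / (cos (θ - e) * sin (2 * θ) * cos (e / 2) ^ 2) with hq
  set s := sin b / tau b with hs'
  have hW2 : W ^ 2 ≤ (A * b ^ 2) ^ 2 := pow_le_pow_left₀ hW0 hW 2
  have a1 : W ^ 2 / 2 * s ≤ (A * b ^ 2) ^ 2 / 2 * (3 / b ^ 2) := by
    apply mul_le_mul _ hst hst0 (by positivity)
    linarith
  have a2 : W ^ 2 / 2 * s * q ≤ (A * b ^ 2) ^ 2 / 2 * (3 / b ^ 2) * Q := by
    apply mul_le_mul a1 hQ hQ0 (by positivity)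
  have a3 : (A * b ^ 2) ^ 2 / 2 * (3 / b ^ 2) * Q = 3 / 2 * A ^ 2 * Q * b ^ 2 := by
    field_simp
  have a4 : 2 * W * t ≤ 2 * (A * b ^ 2) * T := by
    apply mul_le_mul _ hT hT0 (by positivity)
    linarith
  have a5 : 2 * W * t + W ^ 2 / 2 * s * q ≤ (2 * A * T + 3 / 2 * A ^ 2 * Q) * b ^ 2 := by
    rw [a3] at a2
    linarith
  have a6 : t ^ 2 ≤ (R * e) ^ 2 := pow_le_pow_left₀ hT0 hR 2
  have a7 : 0 ≤ 2 * W * t + W ^ 2 / 2 * s * q := by positivity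
  calc t ^ 2 * (2 * W * t + W ^ 2 / 2 * s * q)
      ≤ (R * e) ^ 2 * ((2 * A * T + 3 / 2 * A ^ 2 * Q) * b ^ 2) :=
        mul_le_mul a6 a5 a7 (by positivity)
    _ = (R ^ 2 * (2 * A * T + 3 / 2 * A ^ 2 * Q)) * (b ^ 2 * e ^ 2) := by ring
    _ ≤ 1 / 3 * (b ^ 2 * e ^ 2) := mul_le_mul_of_nonneg_right hf (by positivity)
    _ = b ^ 2 * e ^ 2 / 3 := by ring

/-! ### positivity -/

private theorem SrPos {θ e : ℝ} (h0 : 0 < e) (h1 : e < θ) (h2 : θ ≤ 49 / 50) :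
    0 ≤ WW θ e ∧ 0 ≤ tan (e / 2) ∧ 0 < cos (θ - e) ∧ 0 < sin (2 * θ) ∧ 0 < cos (e / 2) ∧
      0 < sin (θ - e) ∧ 0 < sin e ∧ 0 < sin (θ + e) ∧ 0 < sin θ := by
  have hpi := Real.pi_gt_three
  have s1 : 0 < sin e := sin_pos_of_pos_of_lt_pi h0 (by linarith)
  have s2 : 0 < sin (θ + e) := sin_pos_of_pos_of_lt_pi (by linarith) (by linarith)
  have s3 : 0 < sin θ := sin_pos_of_pos_of_lt_pi (by linarith) (by linarith)
  have s4 : 0 < sin (2 * θ) := sin_pos_of_pos_of_lt_pi (by linarith) (by linarith)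
  have s5 : 0 < sin (θ - e) := sin_pos_of_pos_of_lt_pi (by linarith) (by linarith)
  have s6 : 0 < cos (θ - e) := cos_pos_of_mem_Ioo ⟨by linarith, by linarith⟩
  have s7 : 0 < cos (e / 2) := cos_pos_of_mem_Ioo ⟨by linarith, by linarith⟩
  have s8 : 0 < sin (e / 2) := sin_pos_of_pos_of_lt_pi (by linarith) (by linarith)
  refine ⟨?_, ?_, s6, s4, s7, s5, s1, s2, s3⟩
  · unfold WW
    have : 0 < θ + e := by linarith
    positivity
  · rw [tan_eq_sin_div_cos]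
    positivity

/-! ### small angles -/

private theorem SrSmall {θ e : ℝ} (h0 : 0 < e) (h1 : e < θ) (h2 : θ ≤ 1 / 5) :
    tan (e / 2) ^ 2 * (2 * WW θ e * tan (e / 2) +
      WW θ e ^ 2 * (sin (θ + e) * sin (θ - e)) /
        (2 * tau (θ + e) * cos (θ - e) * sin (2 * θ) * cos (e / 2) ^ 2)) ≤
      (θ + e) ^ 2 * e ^ 2 / 3 := by
  obtain ⟨hW0, hT0, hc, hs2, hce, hsp, hse, hsb, hst⟩ := SrPos h0 h1 (by linarith)
  have ht := SrTan (x := e / 2) (by linarith) (by linarith)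
  have ht2 : tan (e / 2) ≤ 51 / 100 * e := by
    have : (e / 2) ^ 2 ≤ 1 / 100 := by nlinarith
    have h4 : (e / 2) ^ 4 ≤ 1 / 10000 := by nlinarith
    nlinarith
  have hθ : 0 < θ := by linarith
  refine SrCore (A := 1) (T := 11 / 100) (R := 51 / 100) (Q := 11 / 20) h0 h1 (by linarith)
    (by norm_num) hW0 ?_ (by linarith) hT0 ht2 ?_ (by positivity) (by norm_num)
  · unfold WW
    have b1 := Real.sin_le h0.le
    have b2 := Real.sin_le (x := θ + e) (by linarith)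
    have b3 := Real.sin_le hθ.le
    have b4 := Real.sin_le (x := 2 * θ) (by linarith)
    have c1 : sin e * ((θ + e) * sin (2 * θ) + sin (θ + e) ^ 2) ≤
        e * ((θ + e) * (2 * θ) + (θ + e) ^ 2) := by
      apply mul_le_mul b1 _ (by positivity) h0.le
      apply add_le_add
      · apply mul_le_mul_of_nonneg_left b4 (by linarith)
      · exact pow_le_pow_left₀ hsb.le b2 2
    have c2 : sin (θ + e) * (sin θ * sin (2 * θ)) ≤ (θ + e) * (θ * (2 * θ)) := by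
      apply mul_le_mul b2 _ (by positivity) (by linarith)
      exact mul_le_mul b3 b4 hs2.le hθ.le
    have c3 : e * ((θ + e) * (2 * θ) + (θ + e) ^ 2) + (θ + e) * (θ * (2 * θ)) ≤
        (3 * e + 2 * θ) * (θ + e) ^ 2 := by
      have : 0 ≤ e * θ := by positivity
      nlinarith [mul_nonneg (mul_nonneg h0.le hθ.le) (by linarith : 0 ≤ θ + e), mul_nonneg (mul_nonneg h0.le h0.le) (by linarith : 0 ≤ θ + e)]
    have c4 : (3 * e + 2 * θ) * (θ + e) ^ 2 ≤ 1 * (θ + e) ^ 2 := by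
      apply mul_le_mul_of_nonneg_right (by linarith) (by positivity)
    linarith
  · rw [div_le_iff₀ (by positivity)]
    have d1 := Real.sin_le (x := θ - e) (by linarith)
    have d2 := SrS3 (x := 2 * θ) (by linarith)
    have d3 := SrC2 (x := θ - e) (by linarith)
    have d4 := SrC2 (x := e / 2) (by linarith)
    have d5 : 49 / 50 ≤ cos (θ - e) := by nlinarith
    have d6 : 99 / 100 ≤ cos (e / 2) := by nlinarith
    have d7 : 73 / 75 * (2 * θ) ≤ sin (2 * θ) := by nlinarith [mul_pos hθ hθ, mul_nonneg hθ.le (by nlinarith : 0 ≤ 1 / 25 - θ ^ 2)]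
    have d8 : (99 / 100 : ℝ) ^ 2 ≤ cos (e / 2) ^ 2 := pow_le_pow_left₀ (by norm_num) d6 2
    have d9 : 49 / 50 * (73 / 75 * (2 * θ)) ≤ cos (θ - e) * sin (2 * θ) :=
      mul_le_mul d5 d7 (by positivity) (by linarith)
    have d10 : 49 / 50 * (73 / 75 * (2 * θ)) * (99 / 100 : ℝ) ^ 2 ≤
        cos (θ - e) * sin (2 * θ) * cos (e / 2) ^ 2 :=
      mul_le_mul d9 d8 (by positivity) (by positivity)
    nlinarith

/-! ### boxes -/

/-- upper bound for `sin` -/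
def SrU (x : ℚ) : ℚ := x - x ^ 3 / 6 + x ^ 5 / 120

/-- lower bound for `sin` -/
def SrL (x : ℚ) : ℚ := x - x ^ 3 / 6 + x ^ 5 / 120 - x ^ 7 / 5040

/-- lower bound for `cos` -/
def SrC (x : ℚ) : ℚ := 1 - x ^ 2 / 2 + x ^ 4 / 24 - x ^ 6 / 720

/-- upper bound for `tan (e/2) / e` -/
def SrR (e : ℚ) : ℚ := (1 + (e / 2) ^ 2 / 3 + (e / 2) ^ 4 / 6) / 2

/-- upper bound for `sin 2θ` -/
def SrS (t0 t1 : ℚ) : ℚ :=
  if 2 * t1 ≤ 3 / 2 then SrU (2 * t1) else if 79 / 100 ≤ t0 then SrU (2 * t0) else 1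

/-- upper bound for `sin b / b` -/
def SrF (b : ℚ) : ℚ := 1 - b ^ 2 / 6 + b ^ 4 / 120

/-- upper bound for `WW / b^2` -/
def SrA (t0 t1 e0 e1 : ℚ) : ℚ :=
  SrU e1 * (SrS t0 t1 / (t0 + e0) + SrF (t0 + e0) * SrF (t0 + e0)) +
    SrF (t0 + e0) * SrU t1 * SrS t0 t1 / (t0 + e0)

/-- lower bound for `sin 2θ` -/
def SrM (t0 t1 : ℚ) : ℚ := min (SrL (2 * t0)) (SrL (2 * t1))

/-- upper bound for `p = θ - e` -/
def SrP (t1 e0 : ℚ) : ℚ := max 0 (t1 - e0)

/-- the quotient `sin p/(cos p sin 2θ cos^2 (e/2))` -/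
def SrQ (t0 t1 e0 e1 : ℚ) : ℚ :=
  SrU (SrP t1 e0) / (SrC (SrP t1 e0) * SrM t0 t1 * ((1 + SrC e1) / 2))

/-- the test of a box -/
def SrT (t0 t1 e0 e1 : ℚ) : Bool :=
  decide (t1 ≤ e0) ||
    (decide (0 < SrM t0 t1) && decide (0 < SrC (SrP t1 e0)) && decide (0 < SrC e1) &&
      decide (SrR e1 ^ 2 * (2 * SrA t0 t1 e0 e1 * (SrR e1 * e1) +
        3 / 2 * SrA t0 t1 e0 e1 ^ 2 * SrQ t0 t1 e0 e1) ≤ 1 / 3))

/-- bisection -/
def SrK : ℕ → ℚ → ℚ → ℚ → ℚ → Bool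
  | 0, _, _, _, _ => false
  | n + 1, t0, t1, e0, e1 => SrT t0 t1 e0 e1 ||
      (SrK n t0 ((t0 + t1) / 2) e0 ((e0 + e1) / 2) && SrK n t0 ((t0 + t1) / 2) ((e0 + e1) / 2) e1 &&
        SrK n ((t0 + t1) / 2) t1 e0 ((e0 + e1) / 2) && SrK n ((t0 + t1) / 2) t1 ((e0 + e1) / 2) e1)

private theorem SrK_true : SrK 8 (1 / 5) (49 / 50) 0 (49 / 50) = true := by
  decide +kernel

private theorem SrUb {x : ℚ} (hx : 0 ≤ x) : sin (x : ℝ) ≤ ((SrU x : ℚ) : ℝ) := by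
  have h := SrS5 (x := (x : ℝ)) (by exact_mod_cast hx)
  unfold SrU
  push_cast
  exact h

private theorem SrLb {x : ℚ} (hx : 0 ≤ x) : ((SrL x : ℚ) : ℝ) ≤ sin (x : ℝ) := by
  have h := SrS7 (x := (x : ℝ)) (by exact_mod_cast hx)
  unfold SrL
  push_cast
  exact h

private theorem SrCb {x : ℚ} (hx : 0 ≤ x) : ((SrC x : ℚ) : ℝ) ≤ cos (x : ℝ) := by
  have h := SrC6 (x := (x : ℝ)) (by exact_mod_cast hx)
  unfold SrC
  push_cast
  exact h

private theorem SrSinMono {x y : ℝ} (h0 : 0 ≤ x) (h : x ≤ y) (h1 : y ≤ 3 / 2) :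
    sin x ≤ sin y := by
  have hpi := Real.pi_gt_three
  exact sin_le_sin_of_le_of_le_pi_div_two (by linarith) (by linarith) h

private theorem SrSinAnti {x y : ℝ} (h0 : 79 / 50 ≤ x) (h : x ≤ y) (h1 : y ≤ 3) :
    sin y ≤ sin x := by
  have hpi := Real.pi_gt_three
  have hpi2 := Real.pi_lt_d2
  rw [← sin_pi_sub x, ← sin_pi_sub y]
  exact sin_le_sin_of_le_of_le_pi_div_two (by linarith) (by linarith) (by linarith)

private theorem SrSinMin {x a b : ℝ} (h0 : 0 ≤ a) (h : a ≤ x) (h1 : x ≤ b) (h2 : b ≤ 3) :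
    min (sin a) (sin b) ≤ sin x := by
  have hpi := Real.pi_gt_three
  rcases le_total x (π / 2) with hx | hx
  · exact le_trans (min_le_left _ _)
      (sin_le_sin_of_le_of_le_pi_div_two (by linarith) hx h)
  · refine le_trans (min_le_right _ _) ?_
    rw [← sin_pi_sub x, ← sin_pi_sub b]
    exact sin_le_sin_of_le_of_le_pi_div_two (by linarith) (by linarith) (by linarith)

private theorem SrBox {θ e : ℝ} {t0 t1 e0 e1 : ℚ} (h0 : 0 < e) (h1 : e < θ)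
    (ht0 : 1 / 5 ≤ t0) (ht1 : t1 ≤ 49 / 50) (he0 : 0 ≤ e0) (he1 : e1 ≤ 49 / 50)
    (ha : (t0 : ℝ) ≤ θ) (hb : θ ≤ (t1 : ℝ)) (hc : (e0 : ℝ) ≤ e) (hd : e ≤ (e1 : ℝ))
    (hT : SrT t0 t1 e0 e1 = true) :
    tan (e / 2) ^ 2 * (2 * WW θ e * tan (e / 2) +
      WW θ e ^ 2 * (sin (θ + e) * sin (θ - e)) /
        (2 * tau (θ + e) * cos (θ - e) * sin (2 * θ) * cos (e / 2) ^ 2)) ≤
      (θ + e) ^ 2 * e ^ 2 / 3 := by
  have rt0 : (1 / 5 : ℝ) ≤ (t0 : ℝ) := by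
    have : ((1 / 5 : ℚ) : ℝ) ≤ (t0 : ℝ) := by exact_mod_cast ht0
    push_cast at this; exact this
  have rt1 : (t1 : ℝ) ≤ 49 / 50 := by
    have : (t1 : ℝ) ≤ ((49 / 50 : ℚ) : ℝ) := by exact_mod_cast ht1
    push_cast at this; exact this
  have re0 : (0 : ℝ) ≤ (e0 : ℝ) := by exact_mod_cast he0
  have re1 : (e1 : ℝ) ≤ 49 / 50 := by
    have : (e1 : ℝ) ≤ ((49 / 50 : ℚ) : ℝ) := by exact_mod_cast he1
    push_cast at this; exact this
  obtain ⟨hW0, hT0, hcp, hs2, hce, hsp, hse, hsb, hst⟩ := SrPos h0 h1 (le_trans hb rt1)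
  unfold SrT at hT
  simp only [Bool.or_eq_true, Bool.and_eq_true, decide_eq_true_eq] at hT
  rcases hT with hT | ⟨⟨⟨hM, hC⟩, hC1⟩, hU⟩
  · exfalso
    have : (t1 : ℝ) ≤ (e0 : ℝ) := by exact_mod_cast hT
    linarith
  have qt1 : 0 ≤ t1 := by
    have : (0 : ℝ) ≤ (t1 : ℝ) := by linarith
    exact_mod_cast this
  have qt0 : 0 ≤ t0 := by linarith
  have qe1 : 0 ≤ e1 := by
    have : (0 : ℝ) ≤ (e1 : ℝ) := by linarith
    exact_mod_cast this
  -- upper bound for sin 2θ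
  have kS : sin (2 * θ) ≤ ((SrS t0 t1 : ℚ) : ℝ) := by
    unfold SrS
    split_ifs with c1 c2
    · have c1' : 2 * (t1 : ℝ) ≤ 3 / 2 := by
        have : ((2 * t1 : ℚ) : ℝ) ≤ ((3 / 2 : ℚ) : ℝ) := by exact_mod_cast c1
        push_cast at this; exact this
      have := SrUb (x := 2 * t1) (by linarith)
      push_cast at this ⊢
      exact le_trans (SrSinMono (by linarith) (by linarith) c1') this
    · have c2' : (79 / 100 : ℝ) ≤ (t0 : ℝ) := by
        have : ((79 / 100 : ℚ) : ℝ) ≤ (t0 : ℝ) := by exact_mod_cast c2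
        push_cast at this; exact this
      have := SrUb (x := 2 * t0) (by linarith)
      push_cast at this ⊢
      exact le_trans (SrSinAnti (by linarith) (by linarith) (by linarith)) this
    · push_cast
      exact sin_le_one _
  have kM : ((SrM t0 t1 : ℚ) : ℝ) ≤ sin (2 * θ) := by
    have c1 := SrLb (x := 2 * t0) (by linarith)
    have c2 := SrLb (x := 2 * t1) (by linarith)
    have c3 := SrSinMin (x := 2 * θ) (a := 2 * (t0 : ℝ)) (b := 2 * (t1 : ℝ)) (by linarith)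
      (by linarith) (by linarith) (by linarith)
    unfold SrM
    push_cast at c1 c2 ⊢
    exact le_trans (min_le_min c1 c2) c3
  have kM0 : (0 : ℝ) < ((SrM t0 t1 : ℚ) : ℝ) := by exact_mod_cast hM
  have kP0 : 0 ≤ SrP t1 e0 := le_max_left _ _
  have kPe : ((SrP t1 e0 : ℚ) : ℝ) = (t1 : ℝ) - (e0 : ℝ) := by
    unfold SrP
    push_cast
    exact max_eq_right (by linarith)
  have kPs : sin (θ - e) ≤ ((SrU (SrP t1 e0) : ℚ) : ℝ) := by
    refine le_trans ?_ (SrUb kP0)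
    rw [kPe]
    exact SrSinMono (by linarith) (by linarith) (by linarith)
  have kPc : ((SrC (SrP t1 e0) : ℚ) : ℝ) ≤ cos (θ - e) := by
    refine le_trans (SrCb kP0) ?_
    rw [kPe]
    have hpi := Real.pi_gt_three
    exact cos_le_cos_of_nonneg_of_le_pi (by linarith) (by linarith) (by linarith)
  have kPc0 : (0 : ℝ) < ((SrC (SrP t1 e0) : ℚ) : ℝ) := by exact_mod_cast hC
  have kE : ((SrC e1 : ℚ) : ℝ) ≤ cos e := by
    refine le_trans (SrCb qe1) ?_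
    have hpi := Real.pi_gt_three
    exact cos_le_cos_of_nonneg_of_le_pi (by linarith) (by linarith) (by linarith)
  have kE0 : (0 : ℝ) < ((SrC e1 : ℚ) : ℝ) := by exact_mod_cast hC1
  have kE2 : (1 + ((SrC e1 : ℚ) : ℝ)) / 2 ≤ cos (e / 2) ^ 2 := by
    have : cos (e / 2) ^ 2 = 1 / 2 + cos e / 2 := by
      rw [Real.cos_sq]
      congr 2
      ring_nf
    linarith
  -- sin b / b
  have rb0 : (1 / 5 : ℝ) ≤ (t0 : ℝ) + (e0 : ℝ) := by linarith
  have kF : sin (θ + e) / (θ + e) ≤ ((SrF (t0 + e0) : ℚ) : ℝ) := by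
    have hb0 : 0 < θ + e := by linarith
    rw [div_le_iff₀ hb0]
    have c1 := SrS5 hb0.le
    have c2 : (1 - (θ + e) ^ 2 / 6 + (θ + e) ^ 4 / 120) ≤ ((SrF (t0 + e0) : ℚ) : ℝ) := by
      unfold SrF
      push_cast
      have d1 : ((t0 : ℝ) + e0) ^ 2 ≤ (θ + e) ^ 2 := pow_le_pow_left₀ (by linarith) (by linarith) 2
      have d2 : (θ + e) ^ 2 ≤ 4 := by nlinarith
      have d3 : (θ + e) ^ 4 - ((t0 : ℝ) + e0) ^ 4 =
        ((θ + e) ^ 2 - ((t0 : ℝ) + e0) ^ 2) * ((θ + e) ^ 2 + ((t0 : ℝ) + e0) ^ 2) := by ring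
      nlinarith
    have c3 : θ + e - (θ + e) ^ 3 / 6 + (θ + e) ^ 5 / 120 =
        (1 - (θ + e) ^ 2 / 6 + (θ + e) ^ 4 / 120) * (θ + e) := by ring
    rw [c3] at c1
    exact le_trans c1 (mul_le_mul_of_nonneg_right c2 hb0.le)
  have kF0 : 0 ≤ sin (θ + e) / (θ + e) := by
    have hb0 : 0 < θ + e := by linarith
    positivity
  have kb : 1 / (θ + e) ≤ 1 / ((t0 : ℝ) + e0) := one_div_le_one_div_of_le (by linarith) (by linarith)
  have kb0 : 0 ≤ 1 / (θ + e) := by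
    have hb0 : 0 < θ + e := by linarith
    positivity
  have kse : sin e ≤ ((SrU e1 : ℚ) : ℝ) := le_trans (SrSinMono h0.le hd (by linarith)) (SrUb qe1)
  have kst : sin θ ≤ ((SrU t1 : ℚ) : ℝ) :=
    le_trans (SrSinMono (by linarith) hb (by linarith)) (SrUb qt1)
  -- W
  have hb0 : 0 < θ + e := by linarith
  have kA : sin e * (sin (2 * θ) * (1 / (θ + e)) + (sin (θ + e) / (θ + e)) * (sin (θ + e) / (θ + e))) +
      (sin (θ + e) / (θ + e)) * sin θ * sin (2 * θ) * (1 / (θ + e)) ≤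
      ((SrA t0 t1 e0 e1 : ℚ) : ℝ) := by
    have v1 : 0 ≤ ((SrU e1 : ℚ) : ℝ) := le_trans hse.le kse
    have v2 : 0 ≤ ((SrS t0 t1 : ℚ) : ℝ) := le_trans hs2.le kS
    have v3 : 0 ≤ ((SrF (t0 + e0) : ℚ) : ℝ) := le_trans kF0 kF
    have v4 : 0 ≤ ((SrU t1 : ℚ) : ℝ) := le_trans hst.le kst
    have v5 : 0 ≤ 1 / ((t0 : ℝ) + e0) := le_trans kb0 kb
    have g1 : sin (2 * θ) * (1 / (θ + e)) ≤ ((SrS t0 t1 : ℚ) : ℝ) * (1 / ((t0 : ℝ) + e0)) :=
      mul_le_mul kS kb kb0 v2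
    have g2 : (sin (θ + e) / (θ + e)) * (sin (θ + e) / (θ + e)) ≤
        ((SrF (t0 + e0) : ℚ) : ℝ) * ((SrF (t0 + e0) : ℚ) : ℝ) := mul_le_mul kF kF kF0 v3
    have g3 := mul_le_mul kse (add_le_add g1 g2) (by positivity) v1
    have g4 : (sin (θ + e) / (θ + e)) * sin θ ≤ ((SrF (t0 + e0) : ℚ) : ℝ) * ((SrU t1 : ℚ) : ℝ) :=
      mul_le_mul kF kst hst.le v3
    have g5 := mul_le_mul g4 kS hs2.le (by positivity)
    have g6 := mul_le_mul g5 kb kb0 (by positivity)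
    unfold SrA
    push_cast
    refine le_trans (add_le_add g3 g6) (le_of_eq ?_)
    ring
  have kA0 : 0 ≤ ((SrA t0 t1 e0 e1 : ℚ) : ℝ) := le_trans (by positivity) kA
  have kW : WW θ e ≤ ((SrA t0 t1 e0 e1 : ℚ) : ℝ) * (θ + e) ^ 2 := by
    have := mul_le_mul_of_nonneg_right kA (by positivity : 0 ≤ (θ + e) ^ 2)
    refine le_trans (le_of_eq ?_) this
    unfold WW
    field_simp
  have kt := SrTan (x := e / 2) (by linarith) (by linarith)
  have kR : tan (e / 2) ≤ ((SrR e1 : ℚ) : ℝ) * e := by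
    refine le_trans kt ?_
    unfold SrR
    push_cast
    have z1 : (e / 2) ^ 2 ≤ ((e1 : ℝ) / 2) ^ 2 := pow_le_pow_left₀ (by linarith) (by linarith) 2
    have z2 : (e / 2) ^ 4 ≤ ((e1 : ℝ) / 2) ^ 4 := pow_le_pow_left₀ (by linarith) (by linarith) 4
    have z3 : (1 + (e / 2) ^ 2 / 3 + (e / 2) ^ 4 / 6) / 2 * e ≤
        (1 + ((e1 : ℝ) / 2) ^ 2 / 3 + ((e1 : ℝ) / 2) ^ 4 / 6) / 2 * e :=
      mul_le_mul_of_nonneg_right (by linarith) h0.le
    linarith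
  have kR0 : 0 ≤ ((SrR e1 : ℚ) : ℝ) := by
    unfold SrR
    push_cast
    positivity
  have kT : tan (e / 2) ≤ ((SrR e1 : ℚ) : ℝ) * (e1 : ℝ) :=
    le_trans kR (mul_le_mul_of_nonneg_left hd kR0)
  refine SrCore (A := ((SrA t0 t1 e0 e1 : ℚ) : ℝ)) (T := ((SrR e1 : ℚ) : ℝ) * (e1 : ℝ))
    (R := ((SrR e1 : ℚ) : ℝ)) (Q := ((SrQ t0 t1 e0 e1 : ℚ) : ℝ)) h0 h1 (le_trans hb rt1)
    kA0 hW0 kW kT hT0 kR ?_ (by positivity) ?_
  · unfold SrQ
    push_cast
    apply div_le_div₀ (le_trans hsp.le kPs) kPs (by positivity)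
    exact mul_le_mul (mul_le_mul kPc kM kM0.le hcp.le) kE2 (by positivity) (by positivity)
  · have : ((SrR e1 ^ 2 * (2 * SrA t0 t1 e0 e1 * (SrR e1 * e1) +
        3 / 2 * SrA t0 t1 e0 e1 ^ 2 * SrQ t0 t1 e0 e1) : ℚ) : ℝ) ≤ ((1 / 3 : ℚ) : ℝ) := by
      exact_mod_cast hU
    push_cast at this
    exact this

private theorem SrRec (n : ℕ) : ∀ {t0 t1 e0 e1 : ℚ}, SrK n t0 t1 e0 e1 = true → 1 / 5 ≤ t0 →
    t0 ≤ t1 → t1 ≤ 49 / 50 → 0 ≤ e0 → e0 ≤ e1 → e1 ≤ 49 / 50 → ∀ {θ e : ℝ}, 0 < e → e < θ →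
    (t0 : ℝ) ≤ θ → θ ≤ (t1 : ℝ) → (e0 : ℝ) ≤ e → e ≤ (e1 : ℝ) →
    tan (e / 2) ^ 2 * (2 * WW θ e * tan (e / 2) +
      WW θ e ^ 2 * (sin (θ + e) * sin (θ - e)) /
        (2 * tau (θ + e) * cos (θ - e) * sin (2 * θ) * cos (e / 2) ^ 2)) ≤
      (θ + e) ^ 2 * e ^ 2 / 3 := by
  induction n with
  | zero =>
    intro t0 t1 e0 e1 h
    simp [SrK] at h
  | succ n ih =>
    intro t0 t1 e0 e1 h g1 g2 g3 g4 g5 g6 θ e h0 h1 ha hb hc hd
    unfold SrK at h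
    simp only [Bool.or_eq_true, Bool.and_eq_true] at h
    rcases h with h | ⟨⟨⟨k1, k2⟩, k3⟩, k4⟩
    · exact SrBox h0 h1 g1 g3 g4 g6 ha hb hc hd h
    · rcases le_total θ (((t0 + t1) / 2 : ℚ) : ℝ) with p | p <;>
        rcases le_total e (((e0 + e1) / 2 : ℚ) : ℝ) with q | q
      · exact ih k1 g1 (by linarith) (by linarith) g4 (by linarith) (by linarith) h0 h1 ha p hc q
      · exact ih k2 g1 (by linarith) (by linarith) (by linarith) (by linarith) g6 h0 h1 ha p q hd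
      · exact ih k3 (by linarith) (by linarith) g3 g4 (by linarith) (by linarith) h0 h1 p hb hc q
      · exact ih k4 (by linarith) (by linarith) g3 (by linarith) (by linarith) g6 h0 h1 p hb q hd

theorem rh {θ e : ℝ} (h0 : 0 < e) (h1 : e < θ) (h2 : θ ≤ 49 / 50) :
    tan (e / 2) ^ 2 * (2 * WW θ e * tan (e / 2) +
      WW θ e ^ 2 * (sin (θ + e) * sin (θ - e)) /
        (2 * tau (θ + e) * cos (θ - e) * sin (2 * θ) * cos (e / 2) ^ 2)) ≤
      (θ + e) ^ 2 * e ^ 2 / 3 := by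
  rcases le_total θ (1 / 5) with h3 | h3
  · exact SrSmall h0 h1 h3
  · refine SrRec 8 SrK_true (by norm_num) (by norm_num) (by norm_num) (by norm_num) (by norm_num)
      (by norm_num) h0 h1 ?_ ?_ ?_ ?_
    · push_cast
      exact h3
    · push_cast
      exact h2
    · push_cast
      exact h0.le
    · push_cast
      linarith

end Pool.Agent.H46.KO
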