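import Pool.Agent.H46.KO.Sf
import Pool.Agent.H46.KO.Sr

/-!
# The fact `qr` from `fl` and `rh`
-/

open Real

namespace Pool.Agent.H46.KO

theorem fact_qr {θ e : ℝ} (h0 : 0 < e) (h1 : e < θ) (h2 : θ ≤ 49 / 50) :
    tan (e / 2) ^ 2 * (2 * WW θ e * tan (e / 2) +
      WW θ e ^ 2 * (sin (θ + e) * sin (θ - e)) /
        (2 * tau (θ + e) * cos (θ - e) * sin (2 * θ) * cos (e / 2) ^ 2)) ≤ FF θ e :=
  (rh h0 h1 h2).trans (fl h0.le h1.le h2)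

end Pool.Agent.H46.KO
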