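import Pool.Agent.H46.KO.Sc
import Pool.Agent.H46.KO.Sa
import Pool.Agent.H46.KO.S1
import Pool.Agent.H46.KO.Sq

/-!
# All scalar facts for `0 < e < θ <= 49/50`
-/

namespace Pool.Agent.H46.KO

theorem facts {θ e : ℝ} (h0 : 0 < e) (h1 : e < θ) (h2 : θ ≤ 49 / 50) : Facts θ e where
  vv := fact_vv h0 h1 h2
  qr := fact_qr h0 h1 h2
  e1 := fact_e1 h0 h1 h2
  ea := fact_ea h0 h1 h2
  eb := fact_eb h0 h1 h2
  f5 := fact_f5 h0 h1 h2

end Pool.Agent.H46.KO
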