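import Pool.Agent.H46.KO.Lk
import Pool.Agent.H46.KO.Fa
import Pool.Agent.H97.SU.Cz

/-!
# The pair inequality `Pr` with `K = 1`

* `pr_one`: `Pr t θ b h` from the scalar facts at `e = b - θ`.
* `pr_low`: `Pr t θ b h` for `θ <= 49/50`.
-/

open Real

namespace Pool.Agent.H46.KO

open Pool.Agent.H36.SZ Pool.Agent.H15.PM Pool.Agent.H97.SU

theorem cov_full {C S θ φ r : ℝ} (h : Cx C S θ φ r) :
    C * cos (2 * θ) ≤ r * |cos (2 * φ)| := by
  have hp := pi_pos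
  have hc : 0 ≤ cos (2 * φ) := cos_nonneg_of_mem_Icc ⟨by linarith [h.f0], by linarith [h.f1]⟩
  rw [abs_of_nonneg hc]
  rcases le_total (cos (2 * θ)) 0 with h1 | h1
  · have := mul_nonneg h.r0.le hc
    nlinarith [h.C0]
  · have hr := h.r0
    have hC := h.C0
    have e1 : r ^ 2 * cos (2 * φ) = C ^ 2 * cos θ ^ 2 - S ^ 2 * sin θ ^ 2 := by
      rw [cos_two_mul']
      have e2 : (r * cos φ) ^ 2 - (r * sin φ) ^ 2 = C ^ 2 * cos θ ^ 2 - S ^ 2 * sin θ ^ 2 := by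
        rw [h.rc, h.rs]; ring
      linarith
    have e2 : r ^ 2 = C ^ 2 * cos θ ^ 2 + S ^ 2 * sin θ ^ 2 := by
      have e3 : (r * cos φ) ^ 2 + (r * sin φ) ^ 2 = C ^ 2 * cos θ ^ 2 + S ^ 2 * sin θ ^ 2 := by
        rw [h.rc, h.rs]; ring
      have := sin_sq_add_cos_sq φ
      nlinarith
    have e3 : C * r ≤ (C ^ 2 + r ^ 2) / 2 := by nlinarith [sq_nonneg (C - r)]
    have e4 : C * r * cos (2 * θ) ≤ (C ^ 2 + r ^ 2) / 2 * cos (2 * θ) :=
      mul_le_mul_of_nonneg_right e3 h1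
    have e5 : (C ^ 2 + r ^ 2) / 2 * cos (2 * θ) ≤ r ^ 2 * cos (2 * φ) := by
      rw [e1, e2, cos_two_mul'] 
      rw [cos_two_mul'] at h1
      have hs := sin_sq_add_cos_sq θ
      have hs' : sin θ ^ 2 = 1 - cos θ ^ 2 := by linarith
      have hCS := h.CS
      have hC2 : C ^ 2 = 1 + S ^ 2 := by linarith
      rw [hs', hC2]
      rw [hs'] at h1
      have hq : 0 ≤ 1 - cos θ ^ 2 := by nlinarith [sq_nonneg (sin θ)]
      nlinarith [mul_nonneg hq (by linarith : 0 ≤ cos θ ^ 2 - (1 - cos θ ^ 2)), sq_nonneg (cos θ)]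
    have e6 : r * (C * cos (2 * θ)) ≤ r * (r * cos (2 * φ)) := by nlinarith
    exact le_of_mul_le_mul_left e6 hr

theorem pr_one {t θ b h : ℝ} (ht : 0 < t) (h0 : 0 < θ) (h1 : θ < π / 2)
    (hT : tanh t * tan θ ≤ 1) (hb : θ < b) (hb2 : b ≤ 2 * θ) (hh : b = 2 * θ → h = 2 * hJ t θ)
    (hF : b < 2 * θ → Facts θ (b - θ))
    (hF2 : b = 2 * θ → ∀ e, hJ t θ < e → e < θ → Facts θ e) : Pr t θ b h := by
  have hs : 0 < sin b := sin_pos_of_pos_of_lt_pi (by linarith) (by linarith)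
  refine ⟨1, one_pos, by linarith, by linarith, ?_⟩
  rcases lt_or_eq_of_le hb2 with h2 | h2
  · by_cases hv : π / 2 ≤ 1 * b ∨ 1 * (cosh t * sin b) * cos (1 * b) ≤
      √(r2 t θ) * |cos h| * sin (1 * b)
    · exact Or.inl ⟨hv, K1_big ht h0 h1 hT hb h2 (hF h2) hv⟩
    · refine Or.inr ⟨?_, K1_nat ht h0 h1 hT hb h2 (hF h2) hv⟩
      push Not at hv
      exact hv.1
  · left
    have hh' := hh h2
    subst h2
    subst hh'
    constructor
    · right
      have h3 := cov_full (cx ht h0 h1 hT)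
      simp only [one_mul]
      nlinarith
    · have h4 := K1_full ht h0 h1 hT (hF2 rfl)
      have e1 : psi (r2 t θ) 1 0 (2 * θ - 2 * θ) (2 * hJ t θ - 2 * hJ t θ) = 0 := by
        unfold psi
        simp
      rw [e1, add_zero]
      exact h4

theorem pr_low {t θ b h : ℝ} (ht : 0 < t) (h0 : 0 < θ) (h1 : θ ≤ 49 / 50)
    (hT : tanh t * tan θ ≤ 1) (hb : θ < b) (hb2 : b ≤ 2 * θ) (hh : b = 2 * θ → h = 2 * hJ t θ) :
    Pr t θ b h := by
  have hp := pi_gt_three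
  have hj := hJ_mem ht h0 (by linarith) hT
  exact pr_one ht h0 (by linarith) hT hb hb2 hh
    (fun h2 => facts (by linarith) (by linarith) h1)
    (fun _ e he he2 => facts (by linarith [hj.1]) he2 h1)

end Pool.Agent.H46.KO
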