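import Pool.Agent.H46.KO.Df

/-!
# Derivatives in `η`

`Xp' = - Yp`, `Yp' = Xp`; `x^2 + y^2` is constant along the curve.
* `dBc`: derivative `(2 y / tau b) (C sin^2 b - x (b - sin b cos b)/sin b)`, `x = Xp η`, `y = Yp η`
  (`b sin b - tau b cos b / sin b = (b - sin b cos b)/sin b`).
* `dNb`: derivative `2 x y / (sin b cos b)`.
* `dNp`: derivative of `η ↦ Na p (Xp (-η)) (Yp (-η))`: `- 2 x' y' / (sin p cos p)`,
  `x' = Xp (-η)`, `y' = Yp (-η)`.
-/

open Real

namespace Pool.Agent.H46.KO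

variable {C S θ : ℝ}

theorem dX (η : ℝ) : HasDerivAt (fun η => Xp C S θ η) (-Yp C S θ η) η := by
  have h := ((Real.hasDerivAt_cos η).const_mul (C * cos θ)).sub
    ((Real.hasDerivAt_sin η).const_mul (S * sin θ))
  refine h.congr_deriv ?_
  unfold Yp
  ring

theorem dY (η : ℝ) : HasDerivAt (fun η => Yp C S θ η) (Xp C S θ η) η := by
  have h := ((Real.hasDerivAt_sin η).const_mul (C * cos θ)).add
    ((Real.hasDerivAt_cos η).const_mul (S * sin θ))
  refine h.congr_deriv ?_
  unfold Xp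
  ring

theorem dBc {b : ℝ} (hb : sin b ≠ 0) (ht : tau b ≠ 0) (η : ℝ) :
    HasDerivAt (fun η => Bc C b (Xp C S θ η) (Yp C S θ η))
      (2 * Yp C S θ η / tau b *
        (C * sin b ^ 2 - Xp C S θ η * ((b - sin b * cos b) / sin b))) η := by
  have hX := dX (C := C) (S := S) (θ := θ) η
  have hY := dY (C := C) (S := S) (θ := θ) η
  have h := (((hX.pow 2).add (hY.pow 2)).mul_const b).add
    ((((((hX.pow 2).const_mul (b * sin b)).sub
      ((hX.const_mul C).const_mul (2 * sin b ^ 2))).add_const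
        (C ^ 2 * (sin b ^ 2 * cos b))).div_const (tau b)).add
      ((hY.pow 2).const_mul (cos b / sin b)))
  have hk : b - sin b * cos b = b * sin b ^ 2 - tau b * cos b := by
    unfold tau
    have h1 := Real.sin_sq_add_cos_sq b
    have h2 : b * sin b ^ 2 - (sin b - b * cos b) * cos b =
        b * (sin b ^ 2 + cos b ^ 2) - sin b * cos b := by ring
    rw [h2, h1, mul_one]
  refine (h.congr_of_eventuallyEq (Filter.Eventually.of_forall fun x => ?_)).congr_deriv ?_
  · simp only [Bc, Pi.add_apply, Pi.pow_apply, Pi.sub_apply]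
    ring
  · rw [hk]
    push_cast
    field_simp
    ring

theorem dNb {b : ℝ} (hb : sin b ≠ 0) (hc : cos b ≠ 0) (η : ℝ) :
    HasDerivAt (fun η => Na b (Xp C S θ η) (Yp C S θ η))
      (2 * Xp C S θ η * Yp C S θ η / (sin b * cos b)) η := by
  have hX := dX (C := C) (S := S) (θ := θ) η
  have hY := dY (C := C) (S := S) (θ := θ) η
  have h := ((((hX.pow 2).add (hY.pow 2)).mul_const b).add
    ((hY.pow 2).const_mul (cos b / sin b))).sub ((hX.pow 2).const_mul (sin b / cos b))
  refine (h.congr_of_eventuallyEq (Filter.Eventually.of_forall fun x => ?_)).congr_deriv ?_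
  · simp only [Na, Pi.add_apply, Pi.pow_apply, Pi.sub_apply]
  · have h1 := Real.sin_sq_add_cos_sq b
    have h2 : 2 * Xp C S θ η * Yp C S θ η / (sin b * cos b) =
        2 * Xp C S θ η * Yp C S θ η * (sin b ^ 2 + cos b ^ 2) / (sin b * cos b) := by
      rw [h1, mul_one]
    rw [h2]
    push_cast
    field_simp
    ring

theorem dNp {p : ℝ} (hp : sin p ≠ 0) (hc : cos p ≠ 0) (η : ℝ) :
    HasDerivAt (fun η => Na p (Xp C S θ (-η)) (Yp C S θ (-η)))
      (-(2 * Xp C S θ (-η) * Yp C S θ (-η) / (sin p * cos p))) η := by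
  have h := (dNb (C := C) (S := S) (θ := θ) hp hc (-η)).scomp η (hasDerivAt_neg η)
  refine h.congr_deriv ?_
  simp

end Pool.Agent.H46.KO
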