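import Pool.Agent.H46.KO.Ba
import Pool.Agent.H46.KO.Dv

/-!
# The pair on the left: `- φ <= η <= 0`

The function `T η = Bc C (θ+e) (Xp η) (Yp η) + Na (θ-e) (Xp (-η)) (Yp (-η))` is nonincreasing on
`[-φ, 0]`. PROOF. By `dBc`, `dNp` the derivative is
`(2 y/tau b)(C sin^2 b - x (b - sin b cos b)/sin b) - 2 x' y'/(sin p cos p)`, `h = φ + η ∈ [0, φ]`,
`x = r cos h >= r cos φ = C cos θ`, `y = r sin h >= 0`, `b - sin b cos b > 0`, so by `Facts.e1`
`C sin^2 b - x (b - sin b cos b)/sin b <= C (sin^3 b - cos θ (b - sin b cos b))/sin b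
  <= C cos θ tau b/(sin p cos p) = r cos φ tau b/(sin p cos p)`; hence the first term is
`<= 2 r^2 sin h cos φ/(sin p cos p)`, and `2 x' y' = r^2 sin (2 (φ - η)) = r^2 sin (4 φ - 2 h)`.
`trig_left`: `2 sin h cos φ <= sin (4 φ - 2 h)` for `0 <= h <= φ <= π/4`. PROOF. `z = φ - h`:
`sin (4φ - 2h) - 2 sin h cos φ = sin (2φ + 2z) - sin (2φ - z) + sin z
 = 2 cos (2φ + z/2) sin (3z/2) + 2 sin (z/2) cos (z/2)`, and `2φ + z/2 <= π/2 + z/2` gives
`cos (2φ + z/2) >= - sin (z/2)`, `sin (3z/2) <= cos (z/2)` (`3z/2 <= π/2 - z/2`), `0 <= z <= π/4`.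
-/

open Real

namespace Pool.Agent.H46.KO

theorem trig_left {φ h : ℝ} (h0 : 0 ≤ h) (h1 : h ≤ φ) (h2 : φ ≤ π / 4) :
    2 * sin h * cos φ ≤ sin (4 * φ - 2 * h) := by
  obtain ⟨z, hz⟩ : ∃ z, z = φ - h := ⟨_, rfl⟩
  have hz0 : 0 ≤ z := by linarith
  have hz1 : z ≤ π / 4 := by linarith
  have e1 : 2 * sin h * cos φ = sin (2 * φ - z) - sin z := by
    have a1 : (2 * φ - z : ℝ) = h + φ := by linarith
    have a2 : (z : ℝ) = -(h - φ) := by linarith
    rw [a1]
    rw [a2, sin_neg, sin_add, sin_sub]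
    ring
  have e2 : (4 * φ - 2 * h : ℝ) = 2 * φ + 2 * z := by linarith
  have e3 : sin (2 * φ + 2 * z) - sin (2 * φ - z) = 2 * sin (3 * z / 2) * cos (2 * φ + z / 2) := by
    rw [sin_sub_sin]
    congr 2
    · congr 1
      ring
    · ring
  have e4 : sin z = 2 * sin (z / 2) * cos (z / 2) := by
    rw [← sin_two_mul]
    congr 1
    ring
  have c1 : -sin (z / 2) ≤ cos (2 * φ + z / 2) := by
    have a1 : cos (z / 2 + π / 2) = -sin (z / 2) := cos_add_pi_div_two _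
    rw [← a1]
    refine cos_le_cos_of_nonneg_of_le_pi ?_ ?_ ?_ <;> linarith [pi_pos]
  have c2 : sin (3 * z / 2) ≤ cos (z / 2) := by
    rw [← sin_pi_div_two_sub]
    refine sin_le_sin_of_le_of_le_pi_div_two ?_ ?_ ?_ <;> linarith [pi_pos]
  have c3 : 0 ≤ sin (3 * z / 2) := by
    refine sin_nonneg_of_nonneg_of_le_pi ?_ ?_ <;> linarith [pi_pos]
  have c4 : 0 ≤ sin (z / 2) := by
    refine sin_nonneg_of_nonneg_of_le_pi ?_ ?_ <;> linarith [pi_pos]
  rw [e1, e2]
  have d1 : sin (3 * z / 2) * -sin (z / 2) ≤ sin (3 * z / 2) * cos (2 * φ + z / 2) :=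
    mul_le_mul_of_nonneg_left c1 c3
  have d2 : sin (z / 2) * sin (3 * z / 2) ≤ sin (z / 2) * cos (z / 2) :=
    mul_le_mul_of_nonneg_left c2 c4
  nlinarith [e3, e4, d1, d2]

private theorem slope {C S θ φ r e η : ℝ} (h : Cx C S θ φ r) (he : 0 < e) (he2 : e < θ)
    (hF : Facts θ e) (h3 : -φ ≤ η) (h4 : η ≤ 0) :
    2 * Yp C S θ η / tau (θ + e) *
        (C * sin (θ + e) ^ 2 - Xp C S θ η * ((θ + e - sin (θ + e) * cos (θ + e)) / sin (θ + e))) +
      -(2 * Xp C S θ (-η) * Yp C S θ (-η) / (sin (θ - e) * cos (θ - e))) ≤ 0 := by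
  have ht0 := h.t0
  have ht1 := h.t1
  have hf0 := h.f0
  have hf1 := h.f1
  have hr := h.r0
  have hC := h.C0
  have hb : 0 < sin (θ + e) := sin_pos_of_pos_of_lt_pi (by linarith) (by linarith)
  have hp : 0 < sin (θ - e) := sin_pos_of_pos_of_lt_pi (by linarith) (by linarith)
  have hcp : 0 < cos (θ - e) := cos_pos_of_mem_Ioo ⟨by linarith, by linarith⟩
  have hct : 0 < cos θ := cos_pos_of_mem_Ioo ⟨by linarith, by linarith⟩
  have htau : 0 < tau (θ + e) := tau_pos (by linarith) (by linarith)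
  have hm : 0 < θ + e - sin (θ + e) * cos (θ + e) := by
    have a1 : sin (θ + e) * cos (θ + e) ≤ sin (θ + e) := by
      nlinarith [cos_le_one (θ + e)]
    have a2 : sin (θ + e) < θ + e := sin_lt (by linarith)
    linarith
  rw [h.xp, h.yp, h.xp, h.yp]
  have hy : 0 ≤ r * sin (φ + η) :=
    mul_nonneg hr.le (sin_nonneg_of_nonneg_of_le_pi (by linarith) (by linarith))
  have hx : C * cos θ ≤ r * cos (φ + η) := by
    rw [← h.rc]
    exact mul_le_mul_of_nonneg_left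
      (cos_le_cos_of_nonneg_of_le_pi (by linarith) (by linarith) (by linarith)) hr.le
  have hpp : 0 < sin (θ - e) * cos (θ - e) := mul_pos hp hcp
  have k1 : C * sin (θ + e) ^ 2 - r * cos (φ + η) *
      ((θ + e - sin (θ + e) * cos (θ + e)) / sin (θ + e)) ≤
      r * cos φ * tau (θ + e) / (sin (θ - e) * cos (θ - e)) := by
    have k2 : C * cos θ * ((θ + e - sin (θ + e) * cos (θ + e)) / sin (θ + e)) ≤
        r * cos (φ + η) * ((θ + e - sin (θ + e) * cos (θ + e)) / sin (θ + e)) :=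
      mul_le_mul_of_nonneg_right hx (div_pos hm hb).le
    have k3 : C * sin (θ + e) ^ 2 - C * cos θ * ((θ + e - sin (θ + e) * cos (θ + e)) / sin (θ + e)) =
        C * (sin (θ + e) ^ 3 - cos θ * (θ + e - sin (θ + e) * cos (θ + e))) / sin (θ + e) := by
      field_simp
    have k4 : C * (sin (θ + e) ^ 3 - cos θ * (θ + e - sin (θ + e) * cos (θ + e))) / sin (θ + e) ≤
        r * cos φ * tau (θ + e) / (sin (θ - e) * cos (θ - e)) := by
      rw [div_le_div_iff₀ hb hpp, h.rc]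
      have := mul_le_mul_of_nonneg_left hF.e1 hC.le
      linarith
    linarith
  have k5 : 2 * (r * sin (φ + η)) / tau (θ + e) *
      (C * sin (θ + e) ^ 2 - r * cos (φ + η) *
        ((θ + e - sin (θ + e) * cos (θ + e)) / sin (θ + e))) ≤
      2 * (r * sin (φ + η)) / tau (θ + e) *
        (r * cos φ * tau (θ + e) / (sin (θ - e) * cos (θ - e))) :=
    mul_le_mul_of_nonneg_left k1 (div_nonneg (by linarith) htau.le)
  have k6 : 2 * (r * sin (φ + η)) / tau (θ + e) *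
        (r * cos φ * tau (θ + e) / (sin (θ - e) * cos (θ - e))) =
      r ^ 2 * (2 * sin (φ + η) * cos φ) / (sin (θ - e) * cos (θ - e)) := by
    field_simp
  have k7 : 2 * (r * cos (φ + -η)) * (r * sin (φ + -η)) = r ^ 2 * sin (4 * φ - 2 * (φ + η)) := by
    have a1 : (4 * φ - 2 * (φ + η) : ℝ) = 2 * (φ + -η) := by ring
    rw [a1, sin_two_mul]
    ring
  have k8 : r ^ 2 * (2 * sin (φ + η) * cos φ) / (sin (θ - e) * cos (θ - e)) ≤
      r ^ 2 * sin (4 * φ - 2 * (φ + η)) / (sin (θ - e) * cos (θ - e)) := by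
    refine div_le_div_of_nonneg_right ?_ hpp.le
    exact mul_le_mul_of_nonneg_left (trig_left (by linarith) (by linarith) hf1) (sq_nonneg r)
  rw [k7]
  linarith

theorem left {C S θ φ r e η : ℝ} (h : Cx C S θ φ r) (he : 0 < e) (he2 : e < θ)
    (hF : Facts θ e) (h3 : -φ ≤ η) (h4 : η ≤ 0) :
    Bc C (θ + e) (Xp C S θ 0) (Yp C S θ 0) + Na (θ - e) (Xp C S θ (-0)) (Yp C S θ (-0)) ≤
      Bc C (θ + e) (Xp C S θ η) (Yp C S θ η) + Na (θ - e) (Xp C S θ (-η)) (Yp C S θ (-η)) := by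
  have ht0 := h.t0
  have ht1 := h.t1
  have hf0 := h.f0
  have hb : 0 < sin (θ + e) := sin_pos_of_pos_of_lt_pi (by linarith) (by linarith)
  have hp : 0 < sin (θ - e) := sin_pos_of_pos_of_lt_pi (by linarith) (by linarith)
  have hcp : 0 < cos (θ - e) := cos_pos_of_mem_Ioo ⟨by linarith, by linarith⟩
  have htau : 0 < tau (θ + e) := tau_pos (by linarith) (by linarith)
  have hd : ∀ x : ℝ, HasDerivAt (fun η => Bc C (θ + e) (Xp C S θ η) (Yp C S θ η) +
      Na (θ - e) (Xp C S θ (-η)) (Yp C S θ (-η)))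
      (2 * Yp C S θ x / tau (θ + e) *
        (C * sin (θ + e) ^ 2 - Xp C S θ x * ((θ + e - sin (θ + e) * cos (θ + e)) / sin (θ + e))) +
      -(2 * Xp C S θ (-x) * Yp C S θ (-x) / (sin (θ - e) * cos (θ - e)))) x := fun x =>
    (dBc hb.ne' htau.ne' x).add (dNp hp.ne' hcp.ne' x)
  have hanti : AntitoneOn (fun η => Bc C (θ + e) (Xp C S θ η) (Yp C S θ η) +
      Na (θ - e) (Xp C S θ (-η)) (Yp C S θ (-η))) (Set.Icc (-φ) 0) := by
    refine antitoneOn_of_deriv_nonpos (convex_Icc _ _)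
      (fun x _ => (hd x).continuousAt.continuousWithinAt)
      (fun x _ => (hd x).differentiableAt.differentiableWithinAt) ?_
    intro x hx
    rw [interior_Icc] at hx
    rw [(hd x).deriv]
    exact slope h he he2 hF hx.1.le hx.2.le
  exact hanti ⟨h3, h4⟩ ⟨by linarith, le_refl 0⟩ h4

end Pool.Agent.H46.KO
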