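import Pool.Agent.H46.KO.Ba
import Pool.Agent.H46.KO.Dv

/-!
# The pair on the right, covering regime: `e <= η`, `φ + η <= π/2`

`T η = Bc C (θ+e) (Xp η) (Yp η) + Na (θ-e) (Xp (-η)) (Yp (-η))` is nondecreasing there.
PROOF. The derivative is `D η = (2 y/tau b)(C sin^2 b - x κ) - 2 x' y'/(sin p cos p)`,
`κ = (b - sin b cos b)/sin b > 0`, `h = φ + η ∈ [φ + e, π/2]`, `x = r cos h`, `y = r sin h`,
`2 x' y' = r^2 sin (2 (φ - η))`.
* `slope_e`: `0 <= D e`. `D e = 2 (C - S) sin e (C A + S A')`, where `A` is the right side of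
  `Facts.ea` and `A + A'` is the right side of `Facts.eb`, i.e.
  `A' = sin 2θ cos e - β sin^2 θ cos e - cot b cos θ sin θ sin e + tan p sin^2 θ cos e
   + cot p cos θ sin θ sin e`, `β = b sin b/tau b`; and `C A + S A' = (C - S) A + S (A + A') >= 0`.
  (At `η = e`: `x = C cos b + s X`, `y = S sin b + c X`, `x' = C cos p - s X`,
  `y' = S sin p - c X` with `X = (C - S) sin e`, `s = sin θ`, `c = cos θ`.)
* `brack`: `C sin^2 b - x κ >= 0`: `x <= Xp e = C cos θ cos e - S sin θ sin e <= C cos θ cos e` and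
  `Facts.f5`.
* for `η >= e`: `y`, `C sin^2 b - x κ` are nonnegative and nondecreasing; if `φ - η >= 0`:
  `sin (2 (φ - η)) <= sin (2 (φ - e))` (in `[0, π/2]`), so `D η >= D e >= 0`; if `φ - η < 0`:
  `sin (2 (φ - η)) <= 0` (`2 (φ - η) >= - π`), so `D η >= 0`.
-/

open Real

namespace Pool.Agent.H46.KO

variable {C S θ φ r e : ℝ}

/-- `(b - sin b cos b)/sin b/tau b = b sin b/tau b - cos b/sin b` -/
theorem kap_tau {b : ℝ} (hb : sin b ≠ 0) (ht : tau b ≠ 0) :
    (b - sin b * cos b) / sin b / tau b = b * sin b / tau b - cos b / sin b := by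
  have h1 : sin b ^ 2 = 1 - cos b ^ 2 := by
    linear_combination sin_sq_add_cos_sq b
  rw [div_div, div_sub_div _ _ ht hb, div_eq_div_iff (mul_ne_zero hb ht) (mul_ne_zero ht hb)]
  unfold tau
  have h2 : b - sin b * cos b = b * sin b * sin b - (sin b - b * cos b) * cos b := by
    linear_combination (-b) * sin_sq_add_cos_sq b
  rw [h2]
  ring

theorem slope_e (h : Cx C S θ φ r) (he : 0 < e) (he2 : e < θ) (hF : Facts θ e) :
    2 * Xp C S θ (-e) * Yp C S θ (-e) / (sin (θ - e) * cos (θ - e)) ≤
      2 * Yp C S θ e / tau (θ + e) * (C * sin (θ + e) ^ 2 -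
        Xp C S θ e * ((θ + e - sin (θ + e) * cos (θ + e)) / sin (θ + e))) := by
  have hC := h.C0
  have hS := h.S0
  have hCS := h.SC
  have ht0 := h.t0
  have ht1 := h.t1
  have hb : 0 < sin (θ + e) := sin_pos_of_pos_of_lt_pi (by linarith) (by linarith)
  have hp : 0 < sin (θ - e) := sin_pos_of_pos_of_lt_pi (by linarith) (by linarith)
  have hcp : 0 < cos (θ - e) := cos_pos_of_mem_Ioo ⟨by linarith, by linarith⟩
  have hse : 0 < sin e := sin_pos_of_pos_of_lt_pi he (by linarith)
  have hτ : 0 < tau (θ + e) := tau_pos (by linarith) (by linarith)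
  have hea := hF.ea
  have heb := hF.eb
  have hk := kap_tau hb.ne' hτ.ne'
  -- the names
  set s := sin θ with hs
  set c := cos θ with hc
  set sb := sin (θ + e) with hsb
  set cb := cos (θ + e) with hcb
  set sp := sin (θ - e) with hsp
  set cp := cos (θ - e) with hcp'
  set T := tau (θ + e) with hT
  set β := (θ + e) * sb / T with hβ
  have hs2 : sin (2 * θ) = 2 * s * c := by rw [sin_two_mul]
  have esb : sb = s * cos e + c * sin e := by rw [hsb, sin_add]
  have ecb : cb = c * cos e - s * sin e := by rw [hcb, cos_add]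
  have esp : sp = s * cos e - c * sin e := by rw [hsp, sin_sub]
  have ecp : cp = c * cos e + s * sin e := by rw [hcp', cos_sub]
  have u1 : sb ^ 2 + cb ^ 2 = 1 := sin_sq_add_cos_sq _
  have u2 : sp ^ 2 + cp ^ 2 = 1 := sin_sq_add_cos_sq _
  set X := (C - S) * sin e with hX
  have hX0 : 0 < X := mul_pos (by linarith) hse
  have ex : Xp C S θ e = C * cb + s * X := by
    unfold Xp
    rw [ecb, hX]
    ring
  have ey : Yp C S θ e = S * sb + c * X := by
    unfold Yp
    rw [esb, hX]
    ring
  have ex' : Xp C S θ (-e) = C * cp - s * X := by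
    unfold Xp
    rw [cos_neg, sin_neg, ecp, hX]
    ring
  have ey' : Yp C S θ (-e) = S * sp - c * X := by
    unfold Yp
    rw [cos_neg, sin_neg, esp, hX]
    ring
  -- the identities
  have f1 : c / sb = cb / sb * (c ^ 2 * cos e) - cb / sb * (s * c * sin e) + c * sb := by
    have h1 : c = cb * (c ^ 2 * cos e) - cb * (s * c * sin e) + c * sb * sb := by
      linear_combination (-c) * u1 + (c * cb) * ecb
    field_simp
    linear_combination h1
  have f2 : c / sp = cp / sp * (c ^ 2 * cos e) + cp / sp * (s * c * sin e) + c * sp := by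
    have h1 : c = cp * (c ^ 2 * cos e) + cp * (s * c * sin e) + c * sp * sp := by
      linear_combination (-c) * u2 + (c * cp) * ecp
    field_simp
    linear_combination h1
  have f3 : s / cp = sp / cp * (s ^ 2 * cos e) - sp / cp * (s * c * sin e) + s * cp := by
    have h1 : s = sp * (s ^ 2 * cos e) - sp * (s * c * sin e) + s * cp * cp := by
      linear_combination (-s) * u2 + (s * sp) * esp
    field_simp
    linear_combination h1
  have f4 : 1 / (sp * cp) = sp / cp + cp / sp := by
    field_simp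
    linear_combination -u2
  have f5 : sb ^ 2 - cb * ((θ + e - sb * cb) / sb) = T / sb := by
    have h1 : T = sb - (θ + e) * cb := rfl
    rw [h1]
    field_simp
    linear_combination sb * u1
  have f6 : sb * (cb / sb) = cb := by
    field_simp
  set tb := cb / sb with htb
  set tp := sp / cp with htp
  set kp := cp / sp with hkp
  have g1 : 2 * Yp C S θ e / T * (C * sb ^ 2 -
        Xp C S θ e * ((θ + e - sb * cb) / sb)) =
      2 * (S * sb + c * X) * (C / sb - s * X * (β - tb)) := by
    rw [ey, ex, ← hk]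
    have h1 : C * sb ^ 2 - (C * cb + s * X) * ((θ + e - sb * cb) / sb) =
        C * (T / sb) - s * X * ((θ + e - sb * cb) / sb) := by
      linear_combination C * f5
    rw [h1]
    field_simp
  have g2 : 2 * Xp C S θ (-e) * Yp C S θ (-e) / (sp * cp) =
      2 * (C * S - C * X * (c / sp) - S * X * (s / cp) + s * c * X ^ 2 * (tp + kp)) := by
    rw [ex', ey', ← f4]
    field_simp
    ring
  rw [g1, g2]
  have g3 : 2 * (S * sb + c * X) * (C / sb - s * X * (β - tb)) -
      2 * (C * S - C * X * (c / sp) - S * X * (s / cp) + s * c * X ^ 2 * (tp + kp)) =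
      2 * X * (C * (c / sb + c / sp - s * c * sin e * (β - tb + tp + kp)) +
        S * (s / cp - s * sb * (β - tb) + s * c * sin e * (β - tb + tp + kp))) := by
    have h1 : sb * (C / sb) = C := by field_simp
    have h2 : C / sb * c = C * (c / sb) := by ring
    rw [hX]
    linear_combination (2 * S) * h1 + (2 * (C - S) * sin e) * h2
  have hA : 0 ≤ c / sb + c / sp - s * c * sin e * (β - tb + tp + kp) := by
    rw [hs2] at hea
    have h1 : c / sb + c / sp - s * c * sin e * (β - tb + tp + kp) =
        2 * s * c * cos e - β * (s * c * sin e) + tb * (c ^ 2 * cos e) -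
        tp * (s * c * sin e) + kp * (c ^ 2 * cos e) := by
      rw [f1, f2]
      linear_combination c * esb + c * esp
    rw [h1]
    exact hea
  have hB : 0 ≤ c / sb + c / sp + s / cp - s * sb * (β - tb) := by
    rw [hs2] at heb
    have h1 : c / sb + c / sp + s / cp - s * sb * (β - tb) =
        2 * (2 * s * c * cos e) - β * (s * sb) + c * cb ^ 2 / sb + s * sp ^ 2 / cp +
          c * cp ^ 2 / sp := by
      have k1 : c * cb ^ 2 / sb = c * cb * tb := by rw [htb]; ring
      have k2 : s * sp ^ 2 / cp = s * sp * tp := by rw [htp]; ring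
      have k3 : c * cp ^ 2 / sp = c * cp * kp := by rw [hkp]; ring
      rw [k1, k2, k3, f1, f2, f3]
      linear_combination (c * tb * (-1)) * ecb + (c * kp * (-1)) * ecp +
        (s * tp * (-1)) * esp + c * esb + c * esp + s * f6 + s * ecb + s * ecp
    rw [h1]
    exact heb
  have g4 : 0 ≤ 2 * X * (C * (c / sb + c / sp - s * c * sin e * (β - tb + tp + kp)) +
        S * (s / cp - s * sb * (β - tb) + s * c * sin e * (β - tb + tp + kp))) := by
    refine mul_nonneg (by linarith) ?_
    have h1 : C * (c / sb + c / sp - s * c * sin e * (β - tb + tp + kp)) +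
        S * (s / cp - s * sb * (β - tb) + s * c * sin e * (β - tb + tp + kp)) =
        (C - S) * (c / sb + c / sp - s * c * sin e * (β - tb + tp + kp)) +
          S * (c / sb + c / sp + s / cp - s * sb * (β - tb)) := by
      ring
    rw [h1]
    exact add_nonneg (mul_nonneg (by linarith) hA) (mul_nonneg hS.le hB)
  linarith

theorem brack (h : Cx C S θ φ r) (he : 0 < e) (he2 : e < θ) (hF : Facts θ e) :
    0 ≤ C * sin (θ + e) ^ 2 -
        Xp C S θ e * ((θ + e - sin (θ + e) * cos (θ + e)) / sin (θ + e)) := by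
  have hC := h.C0
  have hS := h.S0
  have ht0 := h.t0
  have ht1 := h.t1
  have hb : 0 < sin (θ + e) := sin_pos_of_pos_of_lt_pi (by linarith) (by linarith)
  have hse : 0 < sin e := sin_pos_of_pos_of_lt_pi he (by linarith)
  have hs : 0 < sin θ := sin_pos_of_pos_of_lt_pi ht0 (by linarith)
  have hκ : 0 ≤ (θ + e - sin (θ + e) * cos (θ + e)) / sin (θ + e) := by
    refine div_nonneg ?_ hb.le
    have h1 : sin (2 * (θ + e)) < 2 * (θ + e) := sin_lt (by linarith)
    rw [sin_two_mul] at h1
    linarith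
  have hx : Xp C S θ e ≤ C * (cos θ * cos e) := by
    unfold Xp
    have h1 : 0 ≤ S * sin θ * sin e := by positivity
    linarith
  have h5 : cos θ * cos e * ((θ + e - sin (θ + e) * cos (θ + e)) / sin (θ + e)) ≤
      sin (θ + e) ^ 2 := by
    rw [← mul_div_assoc, div_le_iff₀ hb]
    have h1 := hF.f5
    have h2 : sin (θ + e) ^ 2 * sin (θ + e) = sin (θ + e) ^ 3 := by ring
    rw [h2]
    exact h1
  have h6 := mul_le_mul_of_nonneg_right hx hκ
  have h7 := mul_le_mul_of_nonneg_left h5 hC.le
  have h8 : C * (cos θ * cos e) * ((θ + e - sin (θ + e) * cos (θ + e)) / sin (θ + e)) =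
      C * (cos θ * cos e * ((θ + e - sin (θ + e) * cos (θ + e)) / sin (θ + e))) := by ring
  rw [h8] at h6
  linarith

theorem rc_mono (h : Cx C S θ φ r) (he : 0 < e) (he2 : e < θ) (hF : Facts θ e) {η η' : ℝ}
    (h1 : e ≤ η) (h2 : η ≤ η') (h3 : φ + η' ≤ π / 2) :
    Bc C (θ + e) (Xp C S θ η) (Yp C S θ η) + Na (θ - e) (Xp C S θ (-η)) (Yp C S θ (-η)) ≤
      Bc C (θ + e) (Xp C S θ η') (Yp C S θ η') +
        Na (θ - e) (Xp C S θ (-η')) (Yp C S θ (-η')) := by
  have hC := h.C0
  have hS := h.S0
  have ht0 := h.t0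
  have ht1 := h.t1
  have hf0 := h.f0
  have hf1 := h.f1
  have hr := h.r0
  have hb : 0 < sin (θ + e) := sin_pos_of_pos_of_lt_pi (by linarith) (by linarith)
  have hp : 0 < sin (θ - e) := sin_pos_of_pos_of_lt_pi (by linarith) (by linarith)
  have hcp : 0 < cos (θ - e) := cos_pos_of_mem_Ioo ⟨by linarith, by linarith⟩
  have hτ : 0 < tau (θ + e) := tau_pos (by linarith) (by linarith)
  have hκ : 0 ≤ (θ + e - sin (θ + e) * cos (θ + e)) / sin (θ + e) := by
    refine div_nonneg ?_ hb.le
    have h1 : sin (2 * (θ + e)) < 2 * (θ + e) := sin_lt (by linarith)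
    rw [sin_two_mul] at h1
    linarith
  set κ := (θ + e - sin (θ + e) * cos (θ + e)) / sin (θ + e) with hκd
  have hd : ∀ x : ℝ, HasDerivAt (fun η => Bc C (θ + e) (Xp C S θ η) (Yp C S θ η) +
      Na (θ - e) (Xp C S θ (-η)) (Yp C S θ (-η)))
      (2 * Yp C S θ x / tau (θ + e) * (C * sin (θ + e) ^ 2 - Xp C S θ x * κ) +
        -(2 * Xp C S θ (-x) * Yp C S θ (-x) / (sin (θ - e) * cos (θ - e)))) x := fun x =>
    (dBc hb.ne' hτ.ne' x).add (dNp hp.ne' hcp.ne' x)
  have hm : MonotoneOn (fun η => Bc C (θ + e) (Xp C S θ η) (Yp C S θ η) +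
      Na (θ - e) (Xp C S θ (-η)) (Yp C S θ (-η))) (Set.Icc e η') := by
    refine monotoneOn_of_deriv_nonneg (convex_Icc e η') ?_ ?_ ?_
    · exact fun x _ => (hd x).continuousAt.continuousWithinAt
    · exact fun x _ => (hd x).differentiableAt.differentiableWithinAt
    · intro x hx
      rw [interior_Icc] at hx
      obtain ⟨x1, x2⟩ := hx
      rw [(hd x).deriv]
      have y0 : 0 ≤ Yp C S θ e := by
        rw [h.yp]
        exact mul_nonneg hr.le (sin_nonneg_of_nonneg_of_le_pi (by linarith) (by linarith [pi_pos]))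
      have y1 : Yp C S θ e ≤ Yp C S θ x := by
        rw [h.yp, h.yp]
        refine mul_le_mul_of_nonneg_left ?_ hr.le
        exact sin_le_sin_of_le_of_le_pi_div_two (by linarith [pi_pos]) (by linarith) (by linarith)
      have k0 : 0 ≤ C * sin (θ + e) ^ 2 - Xp C S θ e * κ := brack h he he2 hF
      have xx : Xp C S θ x ≤ Xp C S θ e := by
        rw [h.xp, h.xp]
        refine mul_le_mul_of_nonneg_left ?_ hr.le
        exact cos_le_cos_of_nonneg_of_le_pi (by linarith) (by linarith [pi_pos]) (by linarith)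
      have k1 : C * sin (θ + e) ^ 2 - Xp C S θ e * κ ≤ C * sin (θ + e) ^ 2 - Xp C S θ x * κ := by
        have := mul_le_mul_of_nonneg_right xx hκ
        linarith
      have m1 : 2 * Yp C S θ e / tau (θ + e) * (C * sin (θ + e) ^ 2 - Xp C S θ e * κ) ≤
          2 * Yp C S θ x / tau (θ + e) * (C * sin (θ + e) ^ 2 - Xp C S θ x * κ) := by
        refine mul_le_mul ?_ k1 k0 ?_
        · exact div_le_div_of_nonneg_right (by linarith) hτ.le
        · exact div_nonneg (by linarith) hτ.le
      have m0 : 0 ≤ 2 * Yp C S θ e / tau (θ + e) * (C * sin (θ + e) ^ 2 - Xp C S θ e * κ) :=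
        mul_nonneg (div_nonneg (by linarith) hτ.le) k0
      have hpos : 0 < sin (θ - e) * cos (θ - e) := mul_pos hp hcp
      have w : ∀ z : ℝ, 2 * Xp C S θ (-z) * Yp C S θ (-z) = r ^ 2 * sin (2 * (φ - z)) := by
        intro z
        rw [h.xp, h.yp, sin_two_mul, ← sub_eq_add_neg]
        ring
      rcases le_or_gt x φ with hxφ | hxφ
      · have n1 : 2 * Xp C S θ (-x) * Yp C S θ (-x) ≤ 2 * Xp C S θ (-e) * Yp C S θ (-e) := by
          rw [w, w]
          refine mul_le_mul_of_nonneg_left ?_ (by positivity)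
          exact sin_le_sin_of_le_of_le_pi_div_two (by linarith [pi_pos]) (by linarith) (by linarith)
        have n2 := div_le_div_of_nonneg_right n1 hpos.le
        have n3 := slope_e h he he2 hF
        linarith
      · have n1 : 2 * Xp C S θ (-x) * Yp C S θ (-x) ≤ 0 := by
          rw [w]
          have : sin (2 * (φ - x)) ≤ 0 :=
            sin_nonpos_of_nonpos_of_neg_pi_le (by linarith) (by linarith)
          exact mul_nonpos_of_nonneg_of_nonpos (by positivity) this
        have n2 : 2 * Xp C S θ (-x) * Yp C S θ (-x) / (sin (θ - e) * cos (θ - e)) ≤ 0 :=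
          div_nonpos_of_nonpos_of_nonneg n1 hpos.le
        linarith
  exact hm ⟨h1, h2⟩ ⟨h1.trans h2, le_refl _⟩ h2

end Pool.Agent.H46.KO
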