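import Pool.Agent.H46.KO.Ba
import Pool.Agent.H46.KO.Dv

/-!
# The pair on the right, natural regime: `b < π/2`, `e <= η`, `φ + η <= π/2`

`η ↦ Na (θ+e) (Xp η) (Yp η) + Na (θ-e) (Xp (-η)) (Yp (-η))` is nondecreasing there.
PROOF. The derivative is `2 r^2 (sin 2h/sin 2b - sin 2h'/sin 2p)`, `h = φ + η`, `h' = φ - η`
(`dNb`, `dNp`, `2 x y = r^2 sin 2h`). If `h' <= 0` both terms are fine. If `h' >= 0`, i.e.
`e <= η <= φ <= π/4`: `trig_right`:
`sin 2h sin 2p - sin 2h' sin 2b = sin (2θ - 2φ) sin (2η + 2e) + sin (2θ + 2φ) sin (2η - 2e)`, and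
`0 <= sin (2η - 2e) <= sin (2η + 2e)` (`4η <= π`), `0 <= sin (2θ - 2φ)`,
`sin (2θ - 2φ) + sin (2θ + 2φ) = 2 sin 2θ cos 2φ >= 0`. So the sum is `>= 0`: if
`sin (2θ + 2φ) >= 0` trivially, else it is
`>= (sin (2θ - 2φ) + sin (2θ + 2φ)) sin (2η - 2e) >= 0`.
-/

open Real

namespace Pool.Agent.H46.KO

theorem trig_right {θ φ e η : ℝ} (h0 : 0 < φ) (h1 : φ ≤ π / 4) (h2 : φ < θ) (h3 : θ < π / 2)
    (he : 0 < e) (h4 : e ≤ η) (h5 : η ≤ φ) :
    sin (2 * (φ - η)) * sin (2 * (θ + e)) ≤ sin (2 * (φ + η)) * sin (2 * (θ - e)) := by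
  have hpi := pi_pos
  have e1 : sin (2 * (φ - η)) = sin (2 * φ) * cos (2 * η) - cos (2 * φ) * sin (2 * η) := by
    rw [mul_sub, sin_sub]
  have e2 : sin (2 * (φ + η)) = sin (2 * φ) * cos (2 * η) + cos (2 * φ) * sin (2 * η) := by
    rw [mul_add, sin_add]
  have e3 : sin (2 * (θ + e)) = sin (2 * θ) * cos (2 * e) + cos (2 * θ) * sin (2 * e) := by
    rw [mul_add, sin_add]
  have e4 : sin (2 * (θ - e)) = sin (2 * θ) * cos (2 * e) - cos (2 * θ) * sin (2 * e) := by
    rw [mul_sub, sin_sub]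
  have sf : 0 ≤ sin (2 * φ) := sin_nonneg_of_nonneg_of_le_pi (by linarith) (by linarith)
  have cf : 0 ≤ cos (2 * φ) := cos_nonneg_of_neg_pi_div_two_le_of_le (by linarith) (by linarith)
  have sn : 0 ≤ sin (2 * η) := sin_nonneg_of_nonneg_of_le_pi (by linarith) (by linarith)
  have cn : 0 ≤ cos (2 * η) := cos_nonneg_of_neg_pi_div_two_le_of_le (by linarith) (by linarith)
  have se : 0 ≤ sin (2 * e) := sin_nonneg_of_nonneg_of_le_pi (by linarith) (by linarith)
  have ce : 0 ≤ cos (2 * e) := cos_nonneg_of_neg_pi_div_two_le_of_le (by linarith) (by linarith)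
  have st : 0 ≤ sin (2 * θ) := sin_nonneg_of_nonneg_of_le_pi (by linarith) (by linarith)
  have key : sin (2 * φ) * cos (2 * θ) * (cos (2 * η) * sin (2 * e)) ≤
      sin (2 * θ) * cos (2 * φ) * (sin (2 * η) * cos (2 * e)) := by
    rcases le_or_gt (cos (2 * θ)) 0 with hc | hc
    · have a1 : 0 ≤ sin (2 * θ) * cos (2 * φ) * (sin (2 * η) * cos (2 * e)) := by positivity
      have a2 : sin (2 * φ) * cos (2 * θ) * (cos (2 * η) * sin (2 * e)) ≤ 0 :=
        mul_nonpos_of_nonpos_of_nonneg (mul_nonpos_of_nonneg_of_nonpos sf hc) (by positivity)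
      linarith
    · have a1 : sin (2 * φ) * cos (2 * θ) ≤ sin (2 * θ) * cos (2 * φ) := by
        have a3 : 0 ≤ sin (2 * θ - 2 * φ) :=
          sin_nonneg_of_nonneg_of_le_pi (by linarith) (by linarith)
        rw [sin_sub] at a3
        linarith
      have a2 : cos (2 * η) * sin (2 * e) ≤ sin (2 * η) * cos (2 * e) := by
        have a3 : 0 ≤ sin (2 * η - 2 * e) :=
          sin_nonneg_of_nonneg_of_le_pi (by linarith) (by linarith)
        rw [sin_sub] at a3
        linarith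
      exact mul_le_mul a1 a2 (by positivity) (by positivity)
  rw [e1, e2, e3, e4]
  nlinarith [key]

theorem rn_mono {C S θ φ r e : ℝ} (h : Cx C S θ φ r) (he : 0 < e) (he2 : e < θ)
    (hb : θ + e < π / 2) {η η' : ℝ} (h1 : e ≤ η) (h2 : η ≤ η') (h3 : φ + η' ≤ π / 2) :
    Na (θ + e) (Xp C S θ η) (Yp C S θ η) + Na (θ - e) (Xp C S θ (-η)) (Yp C S θ (-η)) ≤
      Na (θ + e) (Xp C S θ η') (Yp C S θ η') +
        Na (θ - e) (Xp C S θ (-η')) (Yp C S θ (-η')) := by
  have hpi := pi_pos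
  have ht0 := h.t0
  have ht1 := h.t1
  have hf0 := h.f0
  have hf1 := h.f1
  have hft := h.ft
  have sb : 0 < sin (θ + e) := sin_pos_of_pos_of_lt_pi (by linarith) (by linarith)
  have cb : 0 < cos (θ + e) := cos_pos_of_mem_Ioo ⟨by linarith, by linarith⟩
  have sp : 0 < sin (θ - e) := sin_pos_of_pos_of_lt_pi (by linarith) (by linarith)
  have cp : 0 < cos (θ - e) := cos_pos_of_mem_Ioo ⟨by linarith, by linarith⟩
  have hd : ∀ x : ℝ, HasDerivAt (fun η => Na (θ + e) (Xp C S θ η) (Yp C S θ η) +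
      Na (θ - e) (Xp C S θ (-η)) (Yp C S θ (-η)))
      (2 * Xp C S θ x * Yp C S θ x / (sin (θ + e) * cos (θ + e)) +
        -(2 * Xp C S θ (-x) * Yp C S θ (-x) / (sin (θ - e) * cos (θ - e)))) x := fun x =>
    (dNb sb.ne' cb.ne' x).add (dNp sp.ne' cp.ne' x)
  have hm : MonotoneOn (fun η => Na (θ + e) (Xp C S θ η) (Yp C S θ η) +
      Na (θ - e) (Xp C S θ (-η)) (Yp C S θ (-η))) (Set.Icc η η') := by
    refine monotoneOn_of_deriv_nonneg (convex_Icc η η') ?_ ?_ ?_
    · exact fun x _ => (hd x).continuousAt.continuousWithinAt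
    · exact fun x _ => (hd x).differentiableAt.differentiableWithinAt
    · intro x hx
      rw [interior_Icc] at hx
      obtain ⟨hx1, hx2⟩ := hx
      rw [(hd x).deriv, h.xp, h.yp, h.xp, h.yp]
      have f1 : φ + -x = φ - x := by ring
      rw [f1]
      have g1 : 2 * (r * cos (φ + x)) * (r * sin (φ + x)) = r ^ 2 * sin (2 * (φ + x)) := by
        rw [sin_two_mul]; ring
      have g2 : 2 * (r * cos (φ - x)) * (r * sin (φ - x)) = r ^ 2 * sin (2 * (φ - x)) := by
        rw [sin_two_mul]; ring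
      rw [g1, g2]
      have P1 : 0 < sin (θ + e) * cos (θ + e) := mul_pos sb cb
      have P2 : 0 < sin (θ - e) * cos (θ - e) := mul_pos sp cp
      have k1 : 0 ≤ sin (2 * (φ + x)) :=
        sin_nonneg_of_nonneg_of_le_pi (by linarith) (by linarith)
      rcases le_or_gt (φ - x) 0 with hc | hc
      · have k2 : sin (2 * (φ - x)) ≤ 0 := by
          have := sin_nonneg_of_nonneg_of_le_pi (x := 2 * (x - φ)) (by linarith) (by linarith)
          have k3 : sin (2 * (φ - x)) = - sin (2 * (x - φ)) := by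
            rw [← sin_neg]; congr 1; ring
          rw [k3]; linarith
        have k4 : 0 ≤ r ^ 2 * sin (2 * (φ + x)) / (sin (θ + e) * cos (θ + e)) := by positivity
        have k5 : r ^ 2 * sin (2 * (φ - x)) / (sin (θ - e) * cos (θ - e)) ≤ 0 :=
          div_nonpos_of_nonpos_of_nonneg
            (mul_nonpos_of_nonneg_of_nonpos (by positivity) k2) P2.le
        linarith
      · have k2 := trig_right hf0 hf1 hft ht1 he (by linarith : e ≤ x) (by linarith : x ≤ φ)
        have s1 : sin (2 * (θ + e)) = 2 * (sin (θ + e) * cos (θ + e)) := by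
          rw [sin_two_mul]; ring
        have s2 : sin (2 * (θ - e)) = 2 * (sin (θ - e) * cos (θ - e)) := by
          rw [sin_two_mul]; ring
        rw [s1, s2] at k2
        have k3 : sin (2 * (φ - x)) / (sin (θ - e) * cos (θ - e)) ≤
            sin (2 * (φ + x)) / (sin (θ + e) * cos (θ + e)) := by
          rw [div_le_div_iff₀ P2 P1]
          linarith
        have k4 : 0 ≤ r ^ 2 * (sin (2 * (φ + x)) / (sin (θ + e) * cos (θ + e)) -
            sin (2 * (φ - x)) / (sin (θ - e) * cos (θ - e))) :=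
          mul_nonneg (sq_nonneg r) (by linarith)
        have k5 : r ^ 2 * sin (2 * (φ + x)) / (sin (θ + e) * cos (θ + e)) +
            -(r ^ 2 * sin (2 * (φ - x)) / (sin (θ - e) * cos (θ - e))) =
            r ^ 2 * (sin (2 * (φ + x)) / (sin (θ + e) * cos (θ + e)) -
            sin (2 * (φ - x)) / (sin (θ - e) * cos (θ - e))) := by ring
        rw [k5]; exact k4
  exact hm ⟨le_refl _, h2⟩ ⟨h2, le_refl _⟩ h2

end Pool.Agent.H46.KO
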