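import Pool.Agent.H46.KO.Pq
import Pool.Agent.H46.KO.Lf
import Pool.Agent.H46.KO.Rc
import Pool.Agent.H46.KO.Rn

/-!
# The pair inequality for every turning

`pair`: for every real `h1`, with `h2 = 2 φ - h1`:
`Jv <= Bb C (θ+e) (r |cos h1|) (r sin h1) + Na (θ-e) (r cos h2) (r sin h2)`.
PROOF. (`Bb` depends on `y` through `y^2` only, `Na` on `x^2`, `y^2`.)
* `x_ge`: for `0 <= η <= e` or `- φ <= η <= 0`: `C cos (θ+e) <= Xp η`: for `|η| <= e`
  `Xp η - C cos b = C cos θ (cos η - cos e) + sin θ (C sin e - S sin η) >= 0`; for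
  `- φ <= η <= 0`: `Xp η = r cos (φ+η) >= r cos φ = C cos θ >= C cos b`.
* `right`: for `e <= η`, `φ + η <= π/2`: `Jv <= Bb C b (Xp η) (Yp η) + Na p ..(-η)`. In the covering
  regime at `η` (`b >= π/2` or `C cos b <= Xp η`): `mid` at `e`, `rc_mono`. Otherwise `b < π/2` and
  `Xp η < C cos b <= Xp e`; by the intermediate value theorem `Xp η1 = C cos b` for some
  `η1 ∈ [e, η]`; there `Bc C b x y = Na b x y` (`Bc - Na = (b sin b/tau b + tan b)(x - C cos b)^2`,
  `C^2` arbitrary); `mid`, `rc_mono` on `[e, η1]`, `rn_mono` on `[η1, η]`.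
* `pair_pos`: `0 <= h1 <= π/2`: `η = h1 - φ`: `left` and `mid` at `0` for `η <= 0`, `mid` for
  `0 <= η <= e`, `right` for `e <= η`.
* `- π/2 <= h1 <= 0`: compare with `-h1`: `Bb` is the same, and
  `Na p (r cos h)(r sin h) = r^2 p + r^2 (cos 2p - cos 2h)/sin 2p`,
  `cos (2 (2φ - y)) - cos (2 (2φ + y)) = 2 sin 4φ sin 2y >= 0` for `0 <= y <= π/2`.
* general `h1`: subtract a multiple of `π` (`|cos h1|`, `sin^2 h1`, `cos^2 h2`, `sin^2 h2` are
  `π`-periodic): `h1 - π round (h1/π) ∈ [-π/2, π/2]`.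
-/

open Real

namespace Pool.Agent.H46.KO

variable {C S θ φ r e : ℝ}

theorem x_ge (h : Cx C S θ φ r) (he : 0 < e) (he2 : e < θ) {η : ℝ} (h1 : -φ ≤ η) (h2 : η ≤ e) :
    C * cos (θ + e) ≤ Xp C S θ η := by
  have ht0 := h.t0
  have ht1 := h.t1
  have hf0 := h.f0
  have hC0 := h.C0
  have hS0 := h.S0
  have hSC := h.SC
  have hpi := pi_pos
  rcases le_total η 0 with hη | hη
  · rw [h.xp]
    have e1 : cos φ ≤ cos (φ + η) :=
      cos_le_cos_of_nonneg_of_le_pi (by linarith) (by linarith [h.ft]) (by linarith)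
    have e2 : cos (θ + e) ≤ cos θ :=
      cos_le_cos_of_nonneg_of_le_pi ht0.le (by linarith) (by linarith)
    calc C * cos (θ + e) ≤ C * cos θ := by gcongr
      _ = r * cos φ := h.rc.symm
      _ ≤ r * cos (φ + η) := mul_le_mul_of_nonneg_left e1 h.r0.le
  · have e1 : cos e ≤ cos η := cos_le_cos_of_nonneg_of_le_pi hη (by linarith) h2
    have e2 : sin η ≤ sin e := sin_le_sin_of_le_of_le_pi_div_two (by linarith) (by linarith) h2
    have e3 : 0 ≤ sin η := sin_nonneg_of_nonneg_of_le_pi hη (by linarith)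
    have e4 : 0 ≤ sin θ := sin_nonneg_of_nonneg_of_le_pi ht0.le (by linarith)
    have e5 : 0 ≤ cos θ := cos_nonneg_of_neg_pi_div_two_le_of_le (by linarith) ht1.le
    have e6 : S * sin η ≤ C * sin e := by
      calc S * sin η ≤ C * sin η := mul_le_mul_of_nonneg_right hSC.le e3
        _ ≤ C * sin e := mul_le_mul_of_nonneg_left e2 hC0.le
    have e7 : 0 ≤ C * cos θ * (cos η - cos e) :=
      mul_nonneg (mul_nonneg hC0.le e5) (by linarith)
    have e8 : 0 ≤ sin θ * (C * sin e - S * sin η) := mul_nonneg e4 (by linarith)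
    have e9 : Xp C S θ η - C * cos (θ + e) =
        C * cos θ * (cos η - cos e) + sin θ * (C * sin e - S * sin η) := by
      unfold Xp
      rw [cos_add]
      ring
    linarith

theorem Bc_eq_Na {b y : ℝ} (hs : sin b ≠ 0) (hc : cos b ≠ 0) (ht : tau b ≠ 0) :
    Bc C b (C * cos b) y = Na b (C * cos b) y := by
  unfold Bc Na
  have h1 : b * sin b * (C * cos b) ^ 2 - 2 * sin b ^ 2 * (C * (C * cos b)) +
      C ^ 2 * (sin b ^ 2 * cos b) = (-(C ^ 2 * (sin b * cos b))) * tau b := by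
    unfold tau
    ring
  rw [h1, mul_div_assoc, div_self ht]
  have h2 : sin b / cos b * (C * cos b) ^ 2 = C ^ 2 * (sin b * cos b) := by
    field_simp
  rw [h2]
  ring

theorem right (h : Cx C S θ φ r) (he : 0 < e) (he2 : e < θ) (hF : Facts θ e) {η : ℝ}
    (h1 : e ≤ η) (h2 : φ + η ≤ π / 2) :
    Jv C S θ ≤ Bb C (θ + e) (Xp C S θ η) (Yp C S θ η) +
      Na (θ - e) (Xp C S θ (-η)) (Yp C S θ (-η)) := by
  have ht0 := h.t0
  have ht1 := h.t1
  have hpi := pi_pos
  have hm := mid h he he2 hF he.le le_rfl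
  by_cases hb : π / 2 ≤ θ + e ∨ C * cos (θ + e) ≤ Xp C S θ η
  · rw [Bb, if_pos hb]
    exact hm.trans (rc_mono h he he2 hF le_rfl h1 h2)
  · rw [Bb, if_neg hb]
    rw [not_or, not_le, not_le] at hb
    obtain ⟨hb1, hb2⟩ := hb
    have hx := x_ge h he he2 (η := e) (by linarith [h.f0]) le_rfl
    have hc : ContinuousOn (fun η : ℝ => Xp C S θ η) (Set.Icc e η) := by
      apply Continuous.continuousOn
      unfold Xp
      fun_prop
    obtain ⟨η1, hη1, hη2⟩ := intermediate_value_Icc' h1 hc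
      (show C * cos (θ + e) ∈ Set.Icc (Xp C S θ η) (Xp C S θ e) from ⟨hb2.le, hx⟩)
    have hη2' : Xp C S θ η1 = C * cos (θ + e) := hη2
    have r1 := rc_mono h he he2 hF (η := e) (η' := η1) le_rfl hη1.1 (by linarith [hη1.2])
    have r2 := rn_mono h he he2 hb1 (η := η1) (η' := η) hη1.1 hη1.2 h2
    have hs : sin (θ + e) ≠ 0 := (sin_pos_of_pos_of_lt_pi (by linarith) (by linarith)).ne'
    have hcc : cos (θ + e) ≠ 0 := (cos_pos_of_mem_Ioo ⟨by linarith, hb1⟩).ne'
    have ht : tau (θ + e) ≠ 0 := (tau_pos (by linarith) (by linarith)).ne'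
    have r3 : Bc C (θ + e) (Xp C S θ η1) (Yp C S θ η1) =
        Na (θ + e) (Xp C S θ η1) (Yp C S θ η1) := by
      rw [hη2']
      exact Bc_eq_Na hs hcc ht
    linarith

theorem pair_pos (h : Cx C S θ φ r) (he : 0 < e) (he2 : e < θ) (hF : Facts θ e) {h1 : ℝ}
    (h2 : 0 ≤ h1) (h3 : h1 ≤ π / 2) :
    Jv C S θ ≤ Bb C (θ + e) (r * cos h1) (r * sin h1) +
      Na (θ - e) (r * cos (2 * φ - h1)) (r * sin (2 * φ - h1)) := by
  have e1 : r * cos h1 = Xp C S θ (h1 - φ) := by
    rw [h.xp]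
    congr 2
    ring
  have e2 : r * sin h1 = Yp C S θ (h1 - φ) := by
    rw [h.yp]
    congr 2
    ring
  have e3 : r * cos (2 * φ - h1) = Xp C S θ (-(h1 - φ)) := by
    rw [h.xp]
    congr 2
    ring
  have e4 : r * sin (2 * φ - h1) = Yp C S θ (-(h1 - φ)) := by
    rw [h.yp]
    congr 2
    ring
  rw [e1, e2, e3, e4]
  rcases le_total (h1 - φ) e with ha | ha
  · have hx := x_ge h he he2 (η := h1 - φ) (by linarith) ha
    rw [Bb, if_pos (Or.inr hx)]
    rcases le_total (h1 - φ) 0 with hb | hb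
    · exact (mid h he he2 hF le_rfl he.le).trans (left h he he2 hF (by linarith) hb)
    · exact mid h he he2 hF hb ha
  · exact right h he he2 hF ha (by linarith)

private theorem Bb_sq {C b x y y' : ℝ} (hy : y ^ 2 = y' ^ 2) : Bb C b x y = Bb C b x y' := by
  unfold Bb Bc Na
  rw [hy]

private theorem Na_sq {b x y x' y' : ℝ} (hx : x ^ 2 = x' ^ 2) (hy : y ^ 2 = y' ^ 2) :
    Na b x y = Na b x' y' := by
  unfold Na
  rw [hx, hy]

private theorem pair_half (h : Cx C S θ φ r) (he : 0 < e) (he2 : e < θ) (hF : Facts θ e) {h1 : ℝ}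
    (h2 : -(π / 2) ≤ h1) (h3 : h1 ≤ π / 2) :
    Jv C S θ ≤ Bb C (θ + e) (r * cos h1) (r * sin h1) +
      Na (θ - e) (r * cos (2 * φ - h1)) (r * sin (2 * φ - h1)) := by
  rcases le_total 0 h1 with hh | hh
  · exact pair_pos h he he2 hF hh h3
  · have k := pair_pos h he he2 hF (h1 := -h1) (by linarith) (by linarith)
    have ht1 := h.t1
    have hf0 := h.f0
    have hf1 := h.f1
    have hpi := pi_pos
    have b1 : Bb C (θ + e) (r * cos (-h1)) (r * sin (-h1)) =
        Bb C (θ + e) (r * cos h1) (r * sin h1) := by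
      rw [cos_neg, sin_neg]
      exact Bb_sq (by ring)
    rw [b1] at k
    have hp0 : 0 < sin (θ - e) := sin_pos_of_pos_of_lt_pi (by linarith) (by linarith)
    have hp1 : 0 < cos (θ - e) := cos_pos_of_mem_Ioo ⟨by linarith, by linarith⟩
    have q0 : 0 ≤ sin (4 * φ) * sin (2 * (-h1)) :=
      mul_nonneg (sin_nonneg_of_nonneg_of_le_pi (by linarith) (by linarith))
        (sin_nonneg_of_nonneg_of_le_pi (by linarith) (by linarith))
    have q1 : sin (2 * φ - h1) ^ 2 - sin (2 * φ - -h1) ^ 2 = sin (4 * φ) * sin (2 * (-h1)) := by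
      have a1 : sin (4 * φ) = 2 * sin (2 * φ) * cos (2 * φ) := by
        rw [← sin_two_mul]; congr 1; ring
      have a2 : sin (2 * (-h1)) = -(2 * sin h1 * cos h1) := by
        rw [mul_neg, sin_neg, sin_two_mul]
      rw [a1, a2, sub_neg_eq_add, sin_sub, sin_add]
      ring
    have q2 : sin (2 * φ - -h1) ^ 2 ≤ sin (2 * φ - h1) ^ 2 := by linarith
    have q3 : cos (2 * φ - h1) ^ 2 ≤ cos (2 * φ - -h1) ^ 2 := by
      have a1 := sin_sq_add_cos_sq (2 * φ - h1)
      have a2 := sin_sq_add_cos_sq (2 * φ - -h1)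
      linarith
    have q4 : Na (θ - e) (r * cos (2 * φ - -h1)) (r * sin (2 * φ - -h1)) ≤
        Na (θ - e) (r * cos (2 * φ - h1)) (r * sin (2 * φ - h1)) := by
      have n1 : ∀ u : ℝ, Na (θ - e) (r * cos u) (r * sin u) = r ^ 2 * (θ - e) +
          r ^ 2 * (cos (θ - e) / sin (θ - e)) * sin u ^ 2 -
          r ^ 2 * (sin (θ - e) / cos (θ - e)) * cos u ^ 2 := by
        intro u
        unfold Na
        have a1 : (r * cos u) ^ 2 + (r * sin u) ^ 2 = r ^ 2 := by
          have := sin_sq_add_cos_sq u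
          linear_combination r ^ 2 * this
        rw [a1]
        ring
      rw [n1, n1]
      have c1 : 0 ≤ r ^ 2 * (cos (θ - e) / sin (θ - e)) := by positivity
      have c2 : 0 ≤ r ^ 2 * (sin (θ - e) / cos (θ - e)) := by positivity
      have d1 := mul_le_mul_of_nonneg_left q2 c1
      have d2 := mul_le_mul_of_nonneg_left q3 c2
      linarith
    linarith

theorem pair (h : Cx C S θ φ r) (he : 0 < e) (he2 : e < θ) (hF : Facts θ e) (h1 : ℝ) :
    Jv C S θ ≤ Bb C (θ + e) (r * |cos h1|) (r * sin h1) +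
      Na (θ - e) (r * cos (2 * φ - h1)) (r * sin (2 * φ - h1)) := by
  obtain ⟨k, hk⟩ : ∃ k : ℤ, |h1 - k * π| ≤ π / 2 := by
    refine ⟨round (h1 / π), ?_⟩
    have a1 := abs_sub_round (h1 / π)
    have hpi := pi_pos
    have a2 : h1 - (round (h1 / π) : ℝ) * π = (h1 / π - round (h1 / π)) * π := by
      field_simp
    rw [a2, abs_mul, abs_of_pos hpi]
    nlinarith
  have hk' := abs_le.1 hk
  have key := pair_half h he he2 hF (h1 := h1 - k * π) hk'.1 hk'.2
  have hsg : ((-1 : ℝ) ^ k) ^ 2 = 1 := by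
    rcases Int.even_or_odd k with hk2 | hk2
    · rw [hk2.neg_one_zpow]; norm_num
    · rw [hk2.neg_one_zpow]; norm_num
  have c1 : ∀ u : ℝ, cos (u - k * π) = (-1) ^ k * cos u := fun u => cos_sub_int_mul_pi u k
  have s1 : ∀ u : ℝ, sin (u - k * π) = (-1) ^ k * sin u := fun u => sin_sub_int_mul_pi u k
  have c2 : ∀ u : ℝ, cos (u + k * π) = (-1) ^ k * cos u := fun u => cos_add_int_mul_pi u k
  have s2 : ∀ u : ℝ, sin (u + k * π) = (-1) ^ k * sin u := fun u => sin_add_int_mul_pi u k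
  have d1 : 2 * φ - (h1 - k * π) = 2 * φ - h1 + k * π := by ring
  have e1 : cos (h1 - k * π) = |cos h1| := by
    have p1 : 0 ≤ cos (h1 - k * π) := cos_nonneg_of_neg_pi_div_two_le_of_le hk'.1 hk'.2
    have p2 : |cos (h1 - k * π)| = |cos h1| := by
      rw [c1, abs_mul]
      have : |((-1 : ℝ) ^ k)| = 1 := by
        rcases Int.even_or_odd k with hk2 | hk2
        · rw [hk2.neg_one_zpow, abs_one]
        · rw [hk2.neg_one_zpow, abs_neg, abs_one]
      rw [this, one_mul]
    rw [← p2, abs_of_nonneg p1]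
  have e2 : Bb C (θ + e) (r * cos (h1 - k * π)) (r * sin (h1 - k * π)) =
      Bb C (θ + e) (r * |cos h1|) (r * sin h1) := by
    rw [e1]
    refine Bb_sq ?_
    rw [s1]
    linear_combination (r ^ 2 * sin h1 ^ 2) * hsg
  have e3 : Na (θ - e) (r * cos (2 * φ - (h1 - k * π))) (r * sin (2 * φ - (h1 - k * π))) =
      Na (θ - e) (r * cos (2 * φ - h1)) (r * sin (2 * φ - h1)) := by
    rw [d1]
    refine Na_sq ?_ ?_
    · rw [c2]
      linear_combination (r ^ 2 * cos (2 * φ - h1) ^ 2) * hsg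
    · rw [s2]
      linear_combination (r ^ 2 * sin (2 * φ - h1) ^ 2) * hsg
  rw [e2, e3] at key
  exact key

/-- the case `e = θ` (one lobe), as a limit of `pair_pos` with `h1 = 2 φ`, `e -> θ` -/
theorem pair_full (h : Cx C S θ φ r) (hF : ∀ e, φ < e → e < θ → Facts θ e) :
    Jv C S θ ≤ Bc C (2 * θ) (r * cos (2 * φ)) (r * sin (2 * φ)) := by
  have ht0 := h.t0
  have ht1 := h.t1
  have hf0 := h.f0
  have hft := h.ft
  have hpi := pi_pos
  have x1 : Xp C S θ φ = r * cos (2 * φ) := by rw [h.xp]; congr 2; ring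
  have y1 : Yp C S θ φ = r * sin (2 * φ) := by rw [h.yp]; congr 2; ring
  have x2 : Xp C S θ (-φ) = r := by rw [h.xp, add_neg_cancel, cos_zero, mul_one]
  have y2 : Yp C S θ (-φ) = 0 := by rw [h.yp, add_neg_cancel, sin_zero, mul_zero]
  have hsin : sin (θ + θ) ≠ 0 := (sin_pos_of_pos_of_lt_pi (by linarith) (by linarith)).ne'
  have htau : tau (θ + θ) ≠ 0 := (tau_pos (by linarith) (by linarith)).ne'
  have hcos : cos (θ - θ) ≠ 0 := by rw [sub_self, cos_zero]; exact one_ne_zero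
  have hc : ContinuousAt (fun e : ℝ => Bc C (θ + e) (r * cos (2 * φ)) (r * sin (2 * φ)) +
      Na (θ - e) r 0) θ := by
    have hN : ∀ u : ℝ, Na u r 0 = r ^ 2 * u - sin u / cos u * r ^ 2 := by
      intro u
      unfold Na
      ring
    simp only [hN]
    unfold tau at htau
    unfold Bc tau
    refine ContinuousAt.add (ContinuousAt.add (ContinuousAt.add ?_ ?_) ?_) (ContinuousAt.sub ?_ ?_)
    · fun_prop
    · exact ContinuousAt.div (by fun_prop) (by fun_prop) htau
    · exact ContinuousAt.mul (ContinuousAt.div (by fun_prop) (by fun_prop) hsin) (by fun_prop)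
    · fun_prop
    · exact ContinuousAt.mul (ContinuousAt.div (by fun_prop) (by fun_prop) hcos) (by fun_prop)
  have hlim : Bc C (θ + θ) (r * cos (2 * φ)) (r * sin (2 * φ)) + Na (θ - θ) r 0 =
      Bc C (2 * θ) (r * cos (2 * φ)) (r * sin (2 * φ)) := by
    have : Na (θ - θ) r 0 = 0 := by
      unfold Na
      simp
    rw [this, add_zero, ← two_mul]
  rw [← hlim]
  refine ge_of_tendsto (hc.tendsto.mono_left (nhdsWithin_le_nhds (s := Set.Iio θ))) ?_
  filter_upwards [Ioo_mem_nhdsLT hft] with e he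
  have k := mid h (e := e) (η := φ) (by linarith [he.1]) he.2 (hF e he.1 he.2) hf0.le he.1.le
  rw [x1, y1, x2, y2] at k
  exact k

end Pool.Agent.H46.KO
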