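import Pool.Agent.H46.KO.Df

/-!
# Basic facts
* `Cx.xp`, `Cx.yp`: `Xp = r cos (φ + η)`, `Yp = r sin (φ + η)` (addition theorems).
* `Cx.r2`: `r^2 = S^2 + cos^2 θ`.
* `tau_pos`: `sin b > b cos b` on `(0, π)`.
-/

open Real

namespace Pool.Agent.H46.KO

variable {C S θ φ r : ℝ}

theorem Cx.xp (h : Cx C S θ φ r) (η : ℝ) : Xp C S θ η = r * cos (φ + η) := by
  unfold Xp
  rw [cos_add]
  linear_combination (-cos η) * h.rc + sin η * h.rs

theorem Cx.yp (h : Cx C S θ φ r) (η : ℝ) : Yp C S θ η = r * sin (φ + η) := by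
  unfold Yp
  rw [sin_add]
  linear_combination (-sin η) * h.rc - cos η * h.rs

theorem Cx.r2 (h : Cx C S θ φ r) : r ^ 2 = S ^ 2 + cos θ ^ 2 := by
  have h1 : r ^ 2 = (r * cos φ) ^ 2 + (r * sin φ) ^ 2 := by
    linear_combination (-r ^ 2) * sin_sq_add_cos_sq φ
  rw [h1, h.rc, h.rs]
  linear_combination cos θ ^ 2 * h.CS + S ^ 2 * sin_sq_add_cos_sq θ

theorem Cx.SC (h : Cx C S θ φ r) : S < C := by
  have h1 := h.CS
  have h2 := h.C0
  nlinarith [h.S0]

theorem tau_pos {b : ℝ} (h0 : 0 < b) (h1 : b < π) : 0 < tau b := by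
  have hd : ∀ x : ℝ, HasDerivAt (fun x : ℝ => sin x - x * cos x) (x * sin x) x := by
    intro x
    have h := (Real.hasDerivAt_sin x).sub ((hasDerivAt_id x).mul (Real.hasDerivAt_cos x))
    refine h.congr_deriv ?_
    simp
  have hm : StrictMonoOn (fun x : ℝ => sin x - x * cos x) (Set.Icc 0 π) := by
    refine strictMonoOn_of_deriv_pos (convex_Icc 0 π) ?_ ?_
    · exact fun x _ => (hd x).continuousAt.continuousWithinAt
    · intro x hx
      rw [interior_Icc] at hx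
      rw [(hd x).deriv]
      exact mul_pos hx.1 (sin_pos_of_pos_of_lt_pi hx.1 hx.2)
  have h := hm ⟨le_refl 0, pi_pos.le⟩ ⟨h0.le, h1.le⟩ h0
  unfold tau
  simpa using h

end Pool.Agent.H46.KO
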