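import Mathlib

/-!
# The pair inequality for `K = 1`: definitions (MP_56f757)

`C = cosh t`, `S = sinh t`, `r e^{iφ} = C cos θ + i S sin θ`, so `r^2 = S^2 + cos^2 θ`, `φ = h_J`
(structure `Cx`, which includes `φ <= π/4`, i.e. `tanh t tan θ <= 1`). Two lobes: half lengths
`b = θ + e` (big) and `p = θ - e`, turnings `h1 = φ + η`, `h2 = φ - η`;
`Xp C S θ η = r cos (φ + η)`, `Yp C S θ η = r sin (φ + η)`.

* `Na b x y`: natural lower bound of a lobe (`x = r cos h`, `y = r sin h`), `b < π/2`;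
* `Bc C b x y`: lower bound of a lobe with the covering inequality (`x = r |cos h|`);
* `Bb C b x y`: `Bc` if `b >= π/2` or `C cos b <= x`, otherwise `Na`;
* `Jv C S θ`: twice the value of a lobe of `J`.

MAIN IDENTITY (file `Id`): with `α = 2 (C sin (e/2) cos (η/2) - S cos (e/2) sin (η/2))`,
`γ = 2 (S sin (e/2) cos (η/2) - C cos (e/2) sin (η/2))`, `A = α cos (η/2)`, `B = γ sin (η/2)`:
`2 tau b cos p (Bc + Na - Jv) = FF A^2 + 2 WW A B + VV B^2 + 2 tau b cos p (sin 2θ/(sin b sin p))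
 (cos (e/2) γ cos (η/2) + sin (e/2) α sin (η/2))^2`.
-/

open Real

namespace Pool.Agent.H46.KO

/-- `sin b - b cos b` -/
noncomputable def tau (b : ℝ) : ℝ := sin b - b * cos b

/-- the coefficient of `A^2` -/
noncomputable def FF (θ e : ℝ) : ℝ :=
  sin (2 * θ) * ((θ + e) * (1 + cos e) - sin (θ + e) * cos θ) -
    sin (θ + e) * (sin (θ + e) * cos e + sin (θ - e))

/-- half of the coefficient of `A B` -/
noncomputable def WW (θ e : ℝ) : ℝ :=
  sin e * ((θ + e) * sin (2 * θ) + sin (θ + e) ^ 2) + sin (θ + e) * (sin θ * sin (2 * θ))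

/-- the coefficient of `B^2` -/
noncomputable def VV (θ e : ℝ) : ℝ :=
  ((θ + e) * (sin (θ + e) - sin θ) + sin (θ + e) * sin (2 * θ + e)) * cos (θ - e) +
    (sin θ - sin (θ - e)) * tau (θ + e)

noncomputable def Xp (C S θ η : ℝ) : ℝ := C * cos θ * cos η - S * sin θ * sin η

noncomputable def Yp (C S θ η : ℝ) : ℝ := C * cos θ * sin η + S * sin θ * cos η

noncomputable def Bc (C b x y : ℝ) : ℝ :=
  (x ^ 2 + y ^ 2) * b +
    (b * sin b * x ^ 2 - 2 * sin b ^ 2 * (C * x) + C ^ 2 * (sin b ^ 2 * cos b)) / tau b +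
    cos b / sin b * y ^ 2

noncomputable def Na (b x y : ℝ) : ℝ :=
  (x ^ 2 + y ^ 2) * b + cos b / sin b * y ^ 2 - sin b / cos b * x ^ 2

open Classical in
noncomputable def Bb (C b x y : ℝ) : ℝ := if π / 2 ≤ b ∨ C * cos b ≤ x then Bc C b x y else Na b x y

noncomputable def Jv (C S θ : ℝ) : ℝ := 2 * ((S ^ 2 + cos θ ^ 2) * θ - sin θ * cos θ)

/-- the data of `J` -/
structure Cx (C S θ φ r : ℝ) : Prop where
  C0 : 0 < C
  S0 : 0 < S
  CS : C ^ 2 - S ^ 2 = 1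
  t0 : 0 < θ
  t1 : θ < π / 2
  r0 : 0 < r
  rc : r * cos φ = C * cos θ
  rs : r * sin φ = S * sin θ
  f0 : 0 < φ
  f1 : φ ≤ π / 4
  ft : φ < θ

/-- the scalar facts in `(θ, e)`, `b = θ + e`, `p = θ - e` -/
structure Facts (θ e : ℝ) : Prop where
  vv : 0 ≤ VV θ e
  qr : tan (e / 2) ^ 2 * (2 * WW θ e * tan (e / 2) +
      WW θ e ^ 2 * (sin (θ + e) * sin (θ - e)) /
        (2 * tau (θ + e) * cos (θ - e) * sin (2 * θ) * cos (e / 2) ^ 2)) ≤ FF θ e
  e1 : sin (θ - e) * cos (θ - e) * (sin (θ + e) ^ 3 - cos θ * (θ + e - sin (θ + e) * cos (θ + e))) ≤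
      cos θ * sin (θ + e) * tau (θ + e)
  ea : 0 ≤ sin (2 * θ) * cos e - (θ + e) * sin (θ + e) / tau (θ + e) * (sin θ * cos θ * sin e) +
      cos (θ + e) / sin (θ + e) * (cos θ ^ 2 * cos e) -
      sin (θ - e) / cos (θ - e) * (sin θ * cos θ * sin e) +
      cos (θ - e) / sin (θ - e) * (cos θ ^ 2 * cos e)
  eb : 0 ≤ 2 * (sin (2 * θ) * cos e) -
      (θ + e) * sin (θ + e) / tau (θ + e) * (sin θ * sin (θ + e)) +
      cos θ * cos (θ + e) ^ 2 / sin (θ + e) + sin θ * sin (θ - e) ^ 2 / cos (θ - e) +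
      cos θ * cos (θ - e) ^ 2 / sin (θ - e)
  f5 : cos θ * cos e * (θ + e - sin (θ + e) * cos (θ + e)) ≤ sin (θ + e) ^ 3

end Pool.Agent.H46.KO
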