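import Pool.Agent.H46.KO.Df

/-!
# The identity of the pair

PROOF. Put `s = sin θ`, `c = cos θ`, `ε = e/2`, `δ = η/2`, `P1 = α cos δ`, `P2 = γ sin δ`,
`P3 = γ cos δ`, `P4 = α sin δ` (so `P1 P2 = P3 P4`), `x = Xp η`, `y = Yp η`, `x' = Xp (-η)`,
`y' = Yp (-η)`, `b = θ + e`, `p = θ - e`.
(1) Linear identities (each is `C (..) + S (..)`, addition theorems):
`x - C cos b = sin (θ+ε) P1 + cos (θ+ε) P2`, `y - S sin b = sin (θ+ε) P4 - cos (θ+ε) P3`,
`x' - C cos p = cos (θ-ε) P2 - sin (θ-ε) P1`, `y' - S sin p = cos (θ-ε) P3 + sin (θ-ε) P4`.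
(2) Completing the square, for all `x, y` (`C^2 - S^2 = 1`):
`Bc C b x y = (x^2+y^2) b + sin b cos b - 2 (C x sin b - S y cos b)
  + (b sin b/tau b) (x - C cos b)^2 + (cos b/sin b) (y - S sin b)^2`,
`Na p x y = (x^2+y^2) p + sin p cos p - 2 (C x sin p - S y cos p)
  - (sin p/cos p) (x - C cos p)^2 + (cos p/sin p) (y - S sin p)^2`.
(3) `x^2 + y^2 = S^2 + c^2` and
`sin b cos b + sin p cos p + 2 s c - 2 (C x sin b - S y cos b) - 2 (C x' sin p - S y' cos p)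
  = - 2 sin 2θ cos e (cos η - cos e) = - sin 2θ cos e (P1^2 - P2^2 - P3^2 + P4^2)`
(`P1^2 - P2^2 - P3^2 + P4^2 = 2 (C^2 - S^2)(cos η - cos e)`).
(4) `cot b sin^2 (θ+ε) + cot p sin^2 (θ-ε) = sin 2θ (cos e + sin^2 ε/Π)`,
`cot b cos^2 (θ+ε) + cot p cos^2 (θ-ε) = sin 2θ (cos^2 ε/Π - cos e)`,
`cot b sin (θ+ε) cos (θ+ε) - cot p sin (θ-ε) cos (θ-ε) = - sin 2θ sin e (1 + 1/(2Π))`,
`Π = sin b sin p`.
(5) `FF = 2 tau b cos p ((b sin b/tau b) sin^2 (θ+ε) - tan p sin^2 (θ-ε) - sin 2θ cos e)`,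
`WW = 2 tau b cos p ((b sin b/tau b) sin (θ+ε) cos (θ+ε) + tan p sin (θ-ε) cos (θ-ε)
  + sin 2θ sin e)`,
`VV = 2 tau b cos p ((b sin b/tau b) cos^2 (θ+ε) - tan p cos^2 (θ-ε) + sin 2θ cos e)`.
The statement was checked numerically (error 4e-14).
-/

open Real

namespace Pool.Agent.H46.KO

private theorem id_half (u w s c C S p q : ℝ) (hu : u ^ 2 + w ^ 2 = 1)
    (hp : p ^ 2 + q ^ 2 = 1) :
    (C * c * (q ^ 2 - p ^ 2) - S * s * (2 * p * q) - C * (c * (w ^ 2 - u ^ 2) - s * (2 * u * w)) =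
      (s * w + c * u) * (2 * (C * u * q - S * w * p) * q) +
        (c * w - s * u) * (2 * (S * u * q - C * w * p) * p)) ∧
    (C * c * (2 * p * q) + S * s * (q ^ 2 - p ^ 2) - S * (s * (w ^ 2 - u ^ 2) + c * (2 * u * w)) =
      (s * w + c * u) * (2 * (C * u * q - S * w * p) * p) -
        (c * w - s * u) * (2 * (S * u * q - C * w * p) * q)) ∧
    (C * c * (q ^ 2 - p ^ 2) + S * s * (2 * p * q) - C * (c * (w ^ 2 - u ^ 2) + s * (2 * u * w)) =
      (c * w + s * u) * (2 * (S * u * q - C * w * p) * p) -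
        (s * w - c * u) * (2 * (C * u * q - S * w * p) * q)) ∧
    (-(C * c * (2 * p * q)) + S * s * (q ^ 2 - p ^ 2) - S * (s * (w ^ 2 - u ^ 2) - c * (2 * u * w)) =
      (c * w + s * u) * (2 * (S * u * q - C * w * p) * q) +
        (s * w - c * u) * (2 * (C * u * q - S * w * p) * p)) ∧
    ((2 * (C * u * q - S * w * p) * q) ^ 2 - (2 * (S * u * q - C * w * p) * p) ^ 2 -
      (2 * (S * u * q - C * w * p) * q) ^ 2 + (2 * (C * u * q - S * w * p) * p) ^ 2 =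
      2 * (C ^ 2 - S ^ 2) * ((q ^ 2 - p ^ 2) - (w ^ 2 - u ^ 2))) := by
  refine ⟨?_, ?_, ?_, ?_, ?_⟩
  · linear_combination ((-1)*C*c + (2)*C*c*p^2 + (2)*S*p*q*s) * hu +
      ((1)*C*c + (-2)*C*c*u^2 + (-2)*C*s*u*w) * hp
  · linear_combination ((-2)*C*c*p*q + (2)*S*p^2*s + (-1)*S*s) * hu +
      ((2)*S*c*u*w + (1)*S*s + (-2)*S*s*u^2) * hp
  · linear_combination ((-1)*C*c + (2)*C*c*p^2 + (-2)*S*p*q*s) * hu +
      ((1)*C*c + (-2)*C*c*u^2 + (2)*C*s*u*w) * hp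
  · linear_combination ((2)*C*c*p*q + (2)*S*p^2*s + (-1)*S*s) * hu +
      ((-2)*S*c*u*w + (1)*S*s + (-2)*S*s*u^2) * hp
  · linear_combination ((2)*C^2 + (-4)*C^2*p^2*q^2 + (-4)*C^2*p^4 + (-2)*S^2 +
      (4)*S^2*p^2*q^2 + (4)*S^2*p^4) * hu +
      ((-2)*C^2 + (-4)*C^2*p^2 + (4)*C^2*p^2*u^2 + (4)*C^2*q^2*u^2 + (4)*C^2*u^2 + (2)*S^2 +
      (4)*S^2*p^2 + (-4)*S^2*p^2*u^2 + (-4)*S^2*q^2*u^2 + (-4)*S^2*u^2) * hp

private theorem id_three {C S s c se ce sn cn : ℝ} (hCS : C ^ 2 - S ^ 2 = 1)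
    (he : se ^ 2 + ce ^ 2 = 1) :
    (s * ce + c * se) * (c * ce - s * se) + (s * ce - c * se) * (c * ce + s * se) + 2 * (s * c) -
      2 * (C * (C * c * cn - S * s * sn) * (s * ce + c * se) -
        S * (C * c * sn + S * s * cn) * (c * ce - s * se)) -
      2 * (C * (C * c * cn + S * s * sn) * (s * ce - c * se) -
        S * (-(C * c * sn) + S * s * cn) * (c * ce + s * se)) =
      -(2 * (2 * s * c) * ce * (cn - ce)) := by
  linear_combination ((-4)*c*ce*cn*s) * hCS + ((-2)*c*s) * he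

private theorem id_four {s c se ce : ℝ} (hs : s ^ 2 + c ^ 2 = 1) (he : se ^ 2 + ce ^ 2 = 1)
    (hb : s * ce + c * se ≠ 0) (hp : s * ce - c * se ≠ 0) :
    ((c * ce - s * se) / (s * ce + c * se) *
        ((1 - (c * (c * ce - s * se) - s * (s * ce + c * se))) / 2) +
      (c * ce + s * se) / (s * ce - c * se) *
        ((1 - (c * (c * ce + s * se) - s * (s * ce - c * se))) / 2) =
      2 * s * c * (ce + (1 - ce) / 2 / ((s * ce + c * se) * (s * ce - c * se)))) ∧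
    ((c * ce - s * se) / (s * ce + c * se) *
        ((1 + (c * (c * ce - s * se) - s * (s * ce + c * se))) / 2) +
      (c * ce + s * se) / (s * ce - c * se) *
        ((1 + (c * (c * ce + s * se) - s * (s * ce - c * se))) / 2) =
      2 * s * c * ((1 + ce) / 2 / ((s * ce + c * se) * (s * ce - c * se)) - ce)) ∧
    ((c * ce - s * se) / (s * ce + c * se) *
        ((s * (c * ce - s * se) + c * (s * ce + c * se)) / 2) -
      (c * ce + s * se) / (s * ce - c * se) *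
        ((s * (c * ce + s * se) + c * (s * ce - c * se)) / 2) =
      -(2 * s * c * (se + se / 2 / ((s * ce + c * se) * (s * ce - c * se))))) := by
  refine ⟨?_, ?_, ?_⟩
  · rw [← mul_left_inj' (mul_ne_zero hb hp)]
    have e1 : ∀ a b X Y x y z : ℝ, a ≠ 0 → b ≠ 0 →
        (X / a * (x / 2) + Y / b * (y / 2)) * (a * b) = (X * b * x + Y * a * y) / 2 := by
      intro a b X Y x y z ha hb
      field_simp
    have e2 : ∀ a b z k w : ℝ, a ≠ 0 → b ≠ 0 →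
        z * (k + w / 2 / (a * b)) * (a * b) = z * (k * (a * b) + w / 2) := by
      intro a b z k w ha hb
      field_simp
    rw [e1 _ _ _ _ _ _ 0 hb hp, e2 _ _ _ _ _ hb hp]
    linear_combination ((-2)*c*ce*s*se^2 + (-2)*c*ce^3*s) / 2 * hs +
      ((-2)*c*ce*s + (2)*c*s) / 2 * he
  · rw [← mul_left_inj' (mul_ne_zero hb hp)]
    have e1 : ∀ a b X Y x y z : ℝ, a ≠ 0 → b ≠ 0 →
        (X / a * (x / 2) + Y / b * (y / 2)) * (a * b) = (X * b * x + Y * a * y) / 2 := by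
      intro a b X Y x y z ha hb
      field_simp
    have e2 : ∀ a b z k w : ℝ, a ≠ 0 → b ≠ 0 →
        z * (w / 2 / (a * b) - k) * (a * b) = z * (w / 2 - k * (a * b)) := by
      intro a b z k w ha hb
      field_simp
    rw [e1 _ _ _ _ _ _ 0 hb hp, e2 _ _ _ _ _ hb hp]
    linear_combination ((2)*c*ce*s*se^2 + (2)*c*ce^3*s) / 2 * hs +
      ((2)*c*ce*s + (2)*c*s) / 2 * he
  · rw [← mul_left_inj' (mul_ne_zero hb hp)]
    have e1 : ∀ a b X Y x y z : ℝ, a ≠ 0 → b ≠ 0 →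
        (X / a * (x / 2) - Y / b * (y / 2)) * (a * b) = (X * b * x - Y * a * y) / 2 := by
      intro a b X Y x y z ha hb
      field_simp
    have e2 : ∀ a b z k w : ℝ, a ≠ 0 → b ≠ 0 →
        -(z * (k + w / 2 / (a * b))) * (a * b) = -(z * (k * (a * b) + w / 2)) := by
      intro a b z k w ha hb
      field_simp
    rw [e1 _ _ _ _ _ _ 0 hb hp, e2 _ _ _ _ _ hb hp]
    linear_combination ((-2)*c*ce^2*s*se + (-2)*c*s*se^3) / 2 * hs +
      ((-2)*c*s*se) / 2 * he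


private theorem id_five {s c se ce b : ℝ} (hs : s ^ 2 + c ^ 2 = 1) (he : se ^ 2 + ce ^ 2 = 1)
    (hp : c * ce + s * se ≠ 0) (ht : s * ce + c * se - b * (c * ce - s * se) ≠ 0) :
    (2 * s * c * (b * (1 + ce) - (s * ce + c * se) * c) -
      (s * ce + c * se) * ((s * ce + c * se) * ce + (s * ce - c * se)) =
      2 * (s * ce + c * se - b * (c * ce - s * se)) * (c * ce + s * se) *
        (b * (s * ce + c * se) / (s * ce + c * se - b * (c * ce - s * se)) *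
            ((1 - (c * (c * ce - s * se) - s * (s * ce + c * se))) / 2) -
          (s * ce - c * se) / (c * ce + s * se) *
            ((1 - (c * (c * ce + s * se) - s * (s * ce - c * se))) / 2) - 2 * s * c * ce)) ∧
    (se * (b * (2 * s * c) + (s * ce + c * se) ^ 2) + (s * ce + c * se) * (s * (2 * s * c)) =
      2 * (s * ce + c * se - b * (c * ce - s * se)) * (c * ce + s * se) *
        (b * (s * ce + c * se) / (s * ce + c * se - b * (c * ce - s * se)) *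
            ((s * (c * ce - s * se) + c * (s * ce + c * se)) / 2) +
          (s * ce - c * se) / (c * ce + s * se) *
            ((s * (c * ce + s * se) + c * (s * ce - c * se)) / 2) + 2 * s * c * se)) ∧
    ((b * ((s * ce + c * se) - s) +
        (s * ce + c * se) * (s * (c * ce - s * se) + c * (s * ce + c * se))) * (c * ce + s * se) +
      (s - (s * ce - c * se)) * (s * ce + c * se - b * (c * ce - s * se)) =
      2 * (s * ce + c * se - b * (c * ce - s * se)) * (c * ce + s * se) *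
        (b * (s * ce + c * se) / (s * ce + c * se - b * (c * ce - s * se)) *
            ((1 + (c * (c * ce - s * se) - s * (s * ce + c * se))) / 2) -
          (s * ce - c * se) / (c * ce + s * se) *
            ((1 + (c * (c * ce + s * se) - s * (s * ce - c * se))) / 2) + 2 * s * c * ce)) := by
  have e1 : ∀ T a m n x y z : ℝ, T ≠ 0 → a ≠ 0 →
      2 * T * a * (m / T * (x / 2) - n / a * (y / 2) - z) = a * m * x - T * n * y - 2 * T * a * z := by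
    intro T a m n x y z hT ha
    field_simp
  have e2 : ∀ T a m n x y z : ℝ, T ≠ 0 → a ≠ 0 →
      2 * T * a * (m / T * (x / 2) + n / a * (y / 2) + z) = a * m * x + T * n * y + 2 * T * a * z := by
    intro T a m n x y z hT ha
    field_simp
  have e3 : ∀ T a m n x y z : ℝ, T ≠ 0 → a ≠ 0 →
      2 * T * a * (m / T * (x / 2) - n / a * (y / 2) + z) = a * m * x - T * n * y + 2 * T * a * z := by
    intro T a m n x y z hT ha
    field_simp
  refine ⟨?_, ?_, ?_⟩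
  · rw [e1 _ _ _ _ _ _ _ ht hp]
    linear_combination ((-2)*b*c*ce*s*se^2 + (-2)*b*c*ce^3*s + (2)*c*ce^2*s*se + (-2)*c^2*ce +
      (3)*c^2*ce*se^2 + (2)*c^2*ce^3 + (1)*ce^3*s^2) * hs +
      ((-2)*b*c*ce*s + (-2)*b*c*s + (2)*c^2*ce + (2)*c^3*s*se + (-2)*c^4*ce) * he
  · rw [e2 _ _ _ _ _ _ _ ht hp]
    linear_combination ((-2)*b*c*ce^2*s*se + (-2)*b*c*s*se^3 + (2)*c*ce*s + (-4)*c*ce*s*se^2 +
      (-2)*c*ce^3*s + (-2)*c^2*ce^2*se + (2)*c^2*se + (-3)*c^2*se^3 + (-1)*ce^2*s^2*se) * hs +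
      ((-2)*b*c*s*se + (-2)*c*ce*s + (-2)*c^2*se + (2)*c^3*ce*s + (2)*c^4*se) * he
  · rw [e3 _ _ _ _ _ _ _ ht hp]
    linear_combination ((2)*b*c*ce*s*se^2 + (2)*b*c*ce^3*s + (-1)*c*ce^2*s*se + (-1)*c*s*se^3 +
      (1)*ce + (-1)*ce*s^2*se^2 + (-1)*ce*se^2 + (-1)*ce^3 + (-1)*ce^3*s^2) * hs +
      ((2)*b*c*ce*s + (-1)*c*s*se + (1)*c^2*ce + (-1)*ce) * he

private theorem id_Bc {C S b x y : ℝ} (hCS : C ^ 2 - S ^ 2 = 1) (hb : sin b ≠ 0)
    (ht : tau b ≠ 0) :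
    Bc C b x y = (x ^ 2 + y ^ 2) * b + sin b * cos b - 2 * (C * x * sin b - S * y * cos b) +
      b * sin b / tau b * (x - C * cos b) ^ 2 + cos b / sin b * (y - S * sin b) ^ 2 := by
  unfold Bc
  have hT : tau b = sin b - b * cos b := rfl
  generalize tau b = T at ht hT ⊢
  generalize sin b = sb at hb hT ⊢
  generalize cos b = cb at hT ⊢
  have e1 : (b * sb * x ^ 2 - 2 * sb ^ 2 * (C * x) + C ^ 2 * (sb ^ 2 * cb)) / T =
      b * sb / T * (x - C * cb) ^ 2 - 2 * C * x * sb + C ^ 2 * sb * cb := by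
    rw [div_eq_iff ht]
    have : (b * sb / T * (x - C * cb) ^ 2 - 2 * C * x * sb + C ^ 2 * sb * cb) * T =
        b * sb * (x - C * cb) ^ 2 + (- 2 * C * x * sb + C ^ 2 * sb * cb) * T := by
      field_simp
      ring
    rw [this, hT]
    ring
  have e2 : cb / sb * y ^ 2 = cb / sb * (y - S * sb) ^ 2 + 2 * S * y * cb - S ^ 2 * sb * cb := by
    field_simp
    ring
  linear_combination e1 + e2 + sb * cb * hCS

private theorem id_Na {C S b x y : ℝ} (hCS : C ^ 2 - S ^ 2 = 1) (hb : sin b ≠ 0)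
    (hc : cos b ≠ 0) :
    Na b x y = (x ^ 2 + y ^ 2) * b + sin b * cos b - 2 * (C * x * sin b - S * y * cos b) -
      sin b / cos b * (x - C * cos b) ^ 2 + cos b / sin b * (y - S * sin b) ^ 2 := by
  unfold Na
  generalize sin b = sb at hb ⊢
  generalize cos b = cb at hc ⊢
  have e1 : sb / cb * x ^ 2 = sb / cb * (x - C * cb) ^ 2 + 2 * C * x * sb - C ^ 2 * sb * cb := by
    field_simp
    ring
  have e2 : cb / sb * y ^ 2 = cb / sb * (y - S * sb) ^ 2 + 2 * S * y * cb - S ^ 2 * sb * cb := by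
    field_simp
    ring
  linear_combination -e1 + e2 + sb * cb * hCS

private theorem id_core {K m n k l Q s2 ce se u w a1 a2 a3 a4 P1 P2 P3 P4 F W V A B J : ℝ}
    (hA : A + B - J = -(s2 * ce * (P1 ^ 2 - P2 ^ 2 - P3 ^ 2 + P4 ^ 2)) +
      m * (a1 * P1 + a2 * P2) ^ 2 + k * (a1 * P4 - a2 * P3) ^ 2 -
      n * (a4 * P2 - a3 * P1) ^ 2 + l * (a4 * P3 + a3 * P4) ^ 2)
    (hse : se = 2 * u * w)
    (h4a : k * a1 ^ 2 + l * a3 ^ 2 = s2 * (ce + u ^ 2 * Q))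
    (h4b : k * a2 ^ 2 + l * a4 ^ 2 = s2 * (w ^ 2 * Q - ce))
    (h4c : k * (a1 * a2) - l * (a3 * a4) = -(s2 * (se + se / 2 * Q)))
    (hF : F = K * (m * a1 ^ 2 - n * a3 ^ 2 - s2 * ce))
    (hW : W = K * (m * (a1 * a2) + n * (a3 * a4) + s2 * se))
    (hV : V = K * (m * a2 ^ 2 - n * a4 ^ 2 + s2 * ce))
    (hP : P1 * P2 = P3 * P4) :
    K * (A + B - J) = F * P1 ^ 2 + 2 * W * P1 * P2 + V * P2 ^ 2 +
      K * (s2 * Q) * (w * P3 + u * P4) ^ 2 := by
  rw [hA, hF, hW, hV]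
  rw [hse] at h4c ⊢
  linear_combination K * P4 ^ 2 * h4a + K * P3 ^ 2 * h4b - 2 * K * P3 * P4 * h4c -
    4 * K * s2 * u * w * hP


theorem phi_id {C S θ e η : ℝ} (hCS : C ^ 2 - S ^ 2 = 1) (hb : sin (θ + e) ≠ 0)
    (hp : sin (θ - e) ≠ 0) (hc : cos (θ - e) ≠ 0) (ht : tau (θ + e) ≠ 0) :
    2 * tau (θ + e) * cos (θ - e) * (Bc C (θ + e) (Xp C S θ η) (Yp C S θ η) +
        Na (θ - e) (Xp C S θ (-η)) (Yp C S θ (-η)) - Jv C S θ) =
      FF θ e * ((2 * (C * sin (e / 2) * cos (η / 2) - S * cos (e / 2) * sin (η / 2))) *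
        cos (η / 2)) ^ 2 +
      2 * WW θ e * ((2 * (C * sin (e / 2) * cos (η / 2) - S * cos (e / 2) * sin (η / 2))) *
        cos (η / 2)) * ((2 * (S * sin (e / 2) * cos (η / 2) - C * cos (e / 2) * sin (η / 2))) *
        sin (η / 2)) +
      VV θ e * ((2 * (S * sin (e / 2) * cos (η / 2) - C * cos (e / 2) * sin (η / 2))) *
        sin (η / 2)) ^ 2 +
      2 * tau (θ + e) * cos (θ - e) * (sin (2 * θ) / (sin (θ + e) * sin (θ - e))) *
        (cos (e / 2) * (2 * (S * sin (e / 2) * cos (η / 2) - C * cos (e / 2) * sin (η / 2))) *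
          cos (η / 2) +
        sin (e / 2) * (2 * (C * sin (e / 2) * cos (η / 2) - S * cos (e / 2) * sin (η / 2))) *
          sin (η / 2)) ^ 2 := by
  obtain ⟨ε, rfl⟩ : ∃ ε, e = 2 * ε := ⟨e / 2, by ring⟩
  obtain ⟨δ, rfl⟩ : ∃ δ, η = 2 * δ := ⟨η / 2, by ring⟩
  rw [show 2 * ε / 2 = ε by ring, show 2 * δ / 2 = δ by ring]
  rw [id_Bc hCS hb ht, id_Na hCS hp hc]
  have hu : sin ε ^ 2 + cos ε ^ 2 = 1 := Real.sin_sq_add_cos_sq ε
  have hd : sin δ ^ 2 + cos δ ^ 2 = 1 := Real.sin_sq_add_cos_sq δ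
  have hs : sin θ ^ 2 + cos θ ^ 2 = 1 := Real.sin_sq_add_cos_sq θ
  have he : sin (2 * ε) ^ 2 + cos (2 * ε) ^ 2 = 1 := Real.sin_sq_add_cos_sq (2 * ε)
  have hse : sin (2 * ε) = 2 * sin ε * cos ε := Real.sin_two_mul ε
  have hce : cos (2 * ε) = cos ε ^ 2 - sin ε ^ 2 := Real.cos_two_mul' ε
  have hsn : sin (2 * δ) = 2 * sin δ * cos δ := Real.sin_two_mul δ
  have hcn : cos (2 * δ) = cos δ ^ 2 - sin δ ^ 2 := Real.cos_two_mul' δ
  have hsb : sin (θ + 2 * ε) = sin θ * cos (2 * ε) + cos θ * sin (2 * ε) := Real.sin_add _ _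
  have hcb : cos (θ + 2 * ε) = cos θ * cos (2 * ε) - sin θ * sin (2 * ε) := Real.cos_add _ _
  have hsp : sin (θ - 2 * ε) = sin θ * cos (2 * ε) - cos θ * sin (2 * ε) := Real.sin_sub _ _
  have hcp : cos (θ - 2 * ε) = cos θ * cos (2 * ε) + sin θ * sin (2 * ε) := Real.cos_sub _ _
  have hT : tau (θ + 2 * ε) = sin (θ + 2 * ε) - (θ + 2 * ε) * cos (θ + 2 * ε) := rfl
  have hx : Xp C S θ (2 * δ) = C * cos θ * cos (2 * δ) - S * sin θ * sin (2 * δ) := rfl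
  have hy : Yp C S θ (2 * δ) = C * cos θ * sin (2 * δ) + S * sin θ * cos (2 * δ) := rfl
  have hx' : Xp C S θ (-(2 * δ)) = C * cos θ * cos (2 * δ) + S * sin θ * sin (2 * δ) := by
    unfold Xp
    rw [Real.cos_neg, Real.sin_neg]
    ring
  have hy' : Yp C S θ (-(2 * δ)) = -(C * cos θ * sin (2 * δ)) + S * sin θ * cos (2 * δ) := by
    unfold Yp
    rw [Real.cos_neg, Real.sin_neg]
    ring
  have hn : sin (2 * δ) ^ 2 + cos (2 * δ) ^ 2 = 1 := Real.sin_sq_add_cos_sq (2 * δ)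
  have hFF : FF θ (2 * ε) = 2 * sin θ * cos θ * ((θ + 2 * ε) * (1 + cos (2 * ε)) -
      sin (θ + 2 * ε) * cos θ) - sin (θ + 2 * ε) * (sin (θ + 2 * ε) * cos (2 * ε) +
      sin (θ - 2 * ε)) := by
    unfold FF
    rw [Real.sin_two_mul θ]
  have hWW : WW θ (2 * ε) = sin (2 * ε) * ((θ + 2 * ε) * (2 * sin θ * cos θ) +
      sin (θ + 2 * ε) ^ 2) + sin (θ + 2 * ε) * (sin θ * (2 * sin θ * cos θ)) := by
    unfold WW
    rw [Real.sin_two_mul θ]
  have hVV : VV θ (2 * ε) = ((θ + 2 * ε) * (sin (θ + 2 * ε) - sin θ) +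
      sin (θ + 2 * ε) * (sin θ * cos (θ + 2 * ε) + cos θ * sin (θ + 2 * ε))) *
      cos (θ - 2 * ε) + (sin θ - sin (θ - 2 * ε)) * tau (θ + 2 * ε) := by
    unfold VV
    rw [show 2 * θ + 2 * ε = θ + (θ + 2 * ε) by ring, Real.sin_add θ (θ + 2 * ε)]
  have hJ : Jv C S θ = 2 * ((S ^ 2 + cos θ ^ 2) * θ - sin θ * cos θ) := rfl
  have hs2 : sin (2 * θ) = 2 * sin θ * cos θ := Real.sin_two_mul θ
  obtain ⟨g1, g2, g3, g4, g5⟩ := id_half (sin ε) (cos ε) (sin θ) (cos θ) C S (sin δ) (cos δ) hu hd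
  have h3 := id_three (C := C) (S := S) (s := sin θ) (c := cos θ) (se := sin (2 * ε))
    (ce := cos (2 * ε)) (sn := sin (2 * δ)) (cn := cos (2 * δ)) hCS he
  have hb' := hb
  have hp' := hp
  have hc' := hc
  have ht' := ht
  rw [hsb] at hb'
  rw [hsp] at hp'
  rw [hcp] at hc'
  rw [hT, hsb, hcb] at ht'
  obtain ⟨f1, f2, f3⟩ := id_four hs he hb' hp'
  obtain ⟨k1, k2, k3⟩ := id_five hs he hc' ht'
  rw [← hsb, ← hcb, ← hsp, ← hcp] at f1 f2 f3 h3
  rw [← hsb, ← hcb, ← hsp, ← hcp, ← hT] at k1 k2 k3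
  rw [← hFF] at k1
  rw [← hWW] at k2
  rw [← hVV] at k3
  have U1 : Xp C S θ (2 * δ) - C * cos (θ + 2 * ε) =
      (sin θ * cos ε + cos θ * sin ε) *
        (2 * (C * sin ε * cos δ - S * cos ε * sin δ) * cos δ) +
      (cos θ * cos ε - sin θ * sin ε) *
        (2 * (S * sin ε * cos δ - C * cos ε * sin δ) * sin δ) := by
    rw [hx, hcb, hsn, hcn, hse, hce]
    linear_combination g1
  have V1 : Yp C S θ (2 * δ) - S * sin (θ + 2 * ε) =
      (sin θ * cos ε + cos θ * sin ε) *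
        (2 * (C * sin ε * cos δ - S * cos ε * sin δ) * sin δ) -
      (cos θ * cos ε - sin θ * sin ε) *
        (2 * (S * sin ε * cos δ - C * cos ε * sin δ) * cos δ) := by
    rw [hy, hsb, hsn, hcn, hse, hce]
    linear_combination g2
  have U2 : Xp C S θ (-(2 * δ)) - C * cos (θ - 2 * ε) =
      (cos θ * cos ε + sin θ * sin ε) *
        (2 * (S * sin ε * cos δ - C * cos ε * sin δ) * sin δ) -
      (sin θ * cos ε - cos θ * sin ε) *
        (2 * (C * sin ε * cos δ - S * cos ε * sin δ) * cos δ) := by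
    rw [hx', hcp, hsn, hcn, hse, hce]
    linear_combination g3
  have V2 : Yp C S θ (-(2 * δ)) - S * sin (θ - 2 * ε) =
      (cos θ * cos ε + sin θ * sin ε) *
        (2 * (S * sin ε * cos δ - C * cos ε * sin δ) * cos δ) +
      (sin θ * cos ε - cos θ * sin ε) *
        (2 * (C * sin ε * cos δ - S * cos ε * sin δ) * sin δ) := by
    rw [hy', hsp, hsn, hcn, hse, hce]
    linear_combination g4
  have A1 : (1 - (cos θ * cos (θ + 2 * ε) - sin θ * sin (θ + 2 * ε))) / 2 =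
      (sin θ * cos ε + cos θ * sin ε) ^ 2 := by
    rw [hcb, hsb, hse, hce]
    linear_combination (-(sin ε ^ 2 + cos ε ^ 2) / 2) * hs - (1 / 2) * hu
  have A2 : (1 - (cos θ * cos (θ - 2 * ε) - sin θ * sin (θ - 2 * ε))) / 2 =
      (sin θ * cos ε - cos θ * sin ε) ^ 2 := by
    rw [hcp, hsp, hse, hce]
    linear_combination (-(sin ε ^ 2 + cos ε ^ 2) / 2) * hs - (1 / 2) * hu
  have C1 : (1 + (cos θ * cos (θ + 2 * ε) - sin θ * sin (θ + 2 * ε))) / 2 =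
      (cos θ * cos ε - sin θ * sin ε) ^ 2 := by
    rw [hcb, hsb, hse, hce]
    linear_combination (-(sin ε ^ 2 + cos ε ^ 2) / 2) * hs - (1 / 2) * hu
  have C2 : (1 + (cos θ * cos (θ - 2 * ε) - sin θ * sin (θ - 2 * ε))) / 2 =
      (cos θ * cos ε + sin θ * sin ε) ^ 2 := by
    rw [hcp, hsp, hse, hce]
    linear_combination (-(sin ε ^ 2 + cos ε ^ 2) / 2) * hs - (1 / 2) * hu
  have B1 : (sin θ * cos (θ + 2 * ε) + cos θ * sin (θ + 2 * ε)) / 2 =
      (sin θ * cos ε + cos θ * sin ε) * (cos θ * cos ε - sin θ * sin ε) := by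
    rw [hcb, hsb, hse, hce]
    ring
  have B2 : (sin θ * cos (θ - 2 * ε) + cos θ * sin (θ - 2 * ε)) / 2 =
      (sin θ * cos ε - cos θ * sin ε) * (cos θ * cos ε + sin θ * sin ε) := by
    rw [hcp, hsp, hse, hce]
    ring
  have D1 : (1 - cos (2 * ε)) / 2 = sin ε ^ 2 := by
    rw [hce]
    linear_combination (-(1 : ℝ) / 2) * hu
  have D2 : (1 + cos (2 * ε)) / 2 = cos ε ^ 2 := by
    rw [hce]
    linear_combination (-(1 : ℝ) / 2) * hu
  rw [A1, A2, D1, div_eq_mul_one_div (sin ε ^ 2)] at f1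
  rw [C1, C2, D2, div_eq_mul_one_div (cos ε ^ 2)] at f2
  rw [B1, B2, div_eq_mul_one_div (sin (2 * ε) / 2)] at f3
  rw [A1, A2] at k1
  rw [B1, B2] at k2
  rw [C1, C2] at k3
  have r1 : Xp C S θ (2 * δ) ^ 2 + Yp C S θ (2 * δ) ^ 2 = S ^ 2 + cos θ ^ 2 := by
    rw [hx, hy]
    linear_combination ((C * cos θ) ^ 2 + (S * sin θ) ^ 2) * hn + cos θ ^ 2 * hCS + S ^ 2 * hs
  have r2 : Xp C S θ (-(2 * δ)) ^ 2 + Yp C S θ (-(2 * δ)) ^ 2 = S ^ 2 + cos θ ^ 2 := by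
    rw [hx', hy']
    linear_combination ((C * cos θ) ^ 2 + (S * sin θ) ^ 2) * hn + cos θ ^ 2 * hCS + S ^ 2 * hs
  rw [← hx, ← hy, ← hx', ← hy'] at h3
  rw [← hcn, ← hce] at g5
  have hPP : (2 * (C * sin ε * cos δ - S * cos ε * sin δ) * cos δ) *
      (2 * (S * sin ε * cos δ - C * cos ε * sin δ) * sin δ) =
      (2 * (S * sin ε * cos δ - C * cos ε * sin δ) * cos δ) *
      (2 * (C * sin ε * cos δ - S * cos ε * sin δ) * sin δ) := by ring
  have key := id_core (K := 2 * tau (θ + 2 * ε) * cos (θ - 2 * ε))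
    (A := (Xp C S θ (2 * δ) ^ 2 + Yp C S θ (2 * δ) ^ 2) * (θ + 2 * ε) +
        sin (θ + 2 * ε) * cos (θ + 2 * ε) -
        2 * (C * Xp C S θ (2 * δ) * sin (θ + 2 * ε) - S * Yp C S θ (2 * δ) * cos (θ + 2 * ε)) +
      (θ + 2 * ε) * sin (θ + 2 * ε) / tau (θ + 2 * ε) *
        (Xp C S θ (2 * δ) - C * cos (θ + 2 * ε)) ^ 2 +
      cos (θ + 2 * ε) / sin (θ + 2 * ε) * (Yp C S θ (2 * δ) - S * sin (θ + 2 * ε)) ^ 2)
    (B := (Xp C S θ (-(2 * δ)) ^ 2 + Yp C S θ (-(2 * δ)) ^ 2) * (θ - 2 * ε) +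
        sin (θ - 2 * ε) * cos (θ - 2 * ε) -
        2 * (C * Xp C S θ (-(2 * δ)) * sin (θ - 2 * ε) -
          S * Yp C S θ (-(2 * δ)) * cos (θ - 2 * ε)) -
      sin (θ - 2 * ε) / cos (θ - 2 * ε) *
        (Xp C S θ (-(2 * δ)) - C * cos (θ - 2 * ε)) ^ 2 +
      cos (θ - 2 * ε) / sin (θ - 2 * ε) * (Yp C S θ (-(2 * δ)) - S * sin (θ - 2 * ε)) ^ 2)
    (J := Jv C S θ)
    (Q := 1 / (sin (θ + 2 * ε) * sin (θ - 2 * ε)))
    (s2 := 2 * sin θ * cos θ) (ce := cos (2 * ε)) (se := sin (2 * ε)) (u := sin ε) (w := cos ε)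
    (a1 := sin θ * cos ε + cos θ * sin ε) (a2 := cos θ * cos ε - sin θ * sin ε)
    (a3 := sin θ * cos ε - cos θ * sin ε) (a4 := cos θ * cos ε + sin θ * sin ε)
    (P1 := 2 * (C * sin ε * cos δ - S * cos ε * sin δ) * cos δ)
    (P2 := 2 * (S * sin ε * cos δ - C * cos ε * sin δ) * sin δ)
    (P3 := 2 * (S * sin ε * cos δ - C * cos ε * sin δ) * cos δ)
    (P4 := 2 * (C * sin ε * cos δ - S * cos ε * sin δ) * sin δ)
    (F := FF θ (2 * ε)) (W := WW θ (2 * ε)) (V := VV θ (2 * ε))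
    (m := (θ + 2 * ε) * sin (θ + 2 * ε) / tau (θ + 2 * ε))
    (n := sin (θ - 2 * ε) / cos (θ - 2 * ε))
    (k := cos (θ + 2 * ε) / sin (θ + 2 * ε))
    (l := cos (θ - 2 * ε) / sin (θ - 2 * ε))
    (by
      rw [U1, V1, U2, V2, r1, r2, hJ]
      linear_combination h3 + (2 * sin θ * cos θ * cos (2 * ε)) * g5 +
        (4 * sin θ * cos θ * cos (2 * ε) * (cos (2 * δ) - cos (2 * ε))) * hCS)
    hse f1 f2 f3 k1 k2 k3 hPP
  rw [hs2, key]
  ring

end Pool.Agent.H46.KO
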