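import Pool.Agent.H46.KO.As
import Pool.Agent.H15.PM.Q
import Pool.Agent.H15.PM.J

/-!
# The pair inequality in the notation of `Pool.Agent.H15.PM`

* `cx`: `Cx (cosh t) (sinh t) θ (hJ t θ) (√(r2 t θ))` if `tanh t * tan θ <= 1`
  (`hJ = arctan (tanh t tan θ) ∈ (0, π/4]`, `tanh t < 1`, `cos arctan z = 1/√(1+z^2)`,
  `C^2 c^2 + S^2 s^2 = r2`).
* `lamJ_eq`: `2 lamJ t θ 1 0 = Jv (cosh t) (sinh t) θ`.
* `Bg_eq`: `Bg C ρ 1 0 b h = Bc C b (√ρ |cos h|) (√ρ sin h)`, `psi_eq`: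
  `psi ρ 1 0 b h = Na b (√ρ cos h) (√ρ sin h)` (`sin b, cos b ≠ 0`;
  `(cos 2b - cos 2h)/sin 2b = cot b sin^2 h - tan b cos^2 h`).
* `K1_big`, `K1_nat`: the two cases of `Bb` in `pair` (`1 * (C sin b) * cos (1 * b) <= √ρ |cos h|
  sin (1 * b)` iff `C cos b <= √ρ |cos h|`, as `sin b > 0`, `b < 2 θ < π`). `K1_full`: `pair_full`.
-/

open Real

namespace Pool.Agent.H46.KO

open Pool.Agent.H36.SZ Pool.Agent.H15.PM

private theorem Lk_r2pos {t : ℝ} (ht : 0 < t) (θ : ℝ) : 0 < r2 t θ := by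
  unfold r2
  have h1 := sinh_pos_iff.2 ht
  positivity

private theorem Lk_y (t : ℝ) {θ : ℝ} (hc : 0 < cos θ) :
    tanh t * tan θ = sinh t * sin θ / (cosh t * cos θ) ∧
      1 + (tanh t * tan θ) ^ 2 = r2 t θ / (cosh t * cos θ) ^ 2 := by
  have hC := cosh_pos t
  have e1 : tanh t * tan θ = sinh t * sin θ / (cosh t * cos θ) := by
    rw [tanh_eq_sinh_div_cosh, tan_eq_sin_div_cos, div_mul_div_comm]
  refine ⟨e1, ?_⟩
  rw [e1]
  have h5 := sin_sq_add_cos_sq θ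
  have h6 := cosh_sq t
  have h7 : sin θ ^ 2 = 1 - cos θ ^ 2 := by linarith
  unfold r2
  field_simp
  rw [h7, h6]
  ring

private theorem Lk_sqrt {t θ : ℝ} (hc : 0 < cos θ) :
    √(1 + (tanh t * tan θ) ^ 2) = √(r2 t θ) / (cosh t * cos θ) := by
  have hC := cosh_pos t
  rw [(Lk_y t hc).2, sqrt_div' _ (sq_nonneg _), sqrt_sq (mul_pos hC hc).le]

theorem cx {t θ : ℝ} (ht : 0 < t) (h0 : 0 < θ) (h1 : θ < π / 2) (hT : tanh t * tan θ ≤ 1) :
    Cx (cosh t) (sinh t) θ (hJ t θ) (√(r2 t θ)) := by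
  have hC := cosh_pos t
  have hS := sinh_pos_iff.2 ht
  have hc : 0 < cos θ := cos_pos_of_mem_Ioo ⟨by linarith, h1⟩
  have hs : 0 < sin θ := sin_pos_of_pos_of_lt_pi h0 (by linarith)
  have hr := Lk_r2pos ht θ
  have hsr := sqrt_pos.2 hr
  have ht0 : 0 < tan θ := tan_pos_of_pos_of_lt_pi_div_two h0 h1
  have hth : 0 < tanh t := by
    rw [tanh_eq_sinh_div_cosh]
    exact div_pos hS hC
  have hth1 : tanh t < 1 := by
    rw [tanh_eq_sinh_div_cosh, div_lt_one hC]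
    have := cosh_sq t
    nlinarith
  refine ⟨hC, hS, ?_, h0, h1, hsr, ?_, ?_, ?_, ?_, ?_⟩
  · rw [cosh_sq]
    ring
  · unfold hJ
    rw [cos_arctan, Lk_sqrt hc]
    field_simp
  · unfold hJ
    rw [sin_arctan, Lk_sqrt hc, (Lk_y t hc).1]
    field_simp
  · unfold hJ
    exact arctan_pos.2 (mul_pos hth ht0)
  · unfold hJ
    rw [← arctan_one]
    exact arctan_strictMono.monotone hT
  · unfold hJ
    have h2 : arctan (tan θ) = θ := arctan_tan (by linarith) h1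
    calc arctan (tanh t * tan θ) < arctan (tan θ) :=
          arctan_strictMono (by nlinarith)
      _ = θ := h2

theorem lamJ_eq (t θ : ℝ) : 2 * lamJ t θ 1 0 = Jv (cosh t) (sinh t) θ := by
  unfold lamJ Jv r2
  ring

theorem Bg_eq {C ρ b : ℝ} (hρ : 0 < ρ) (h : ℝ) :
    Bg C ρ 1 0 b h = Bc C b (√ρ * |cos h|) (√ρ * sin h) := by
  have e1 : (√ρ * |cos h|) ^ 2 + (√ρ * sin h) ^ 2 = ρ := by
    rw [mul_pow, mul_pow, sq_sqrt hρ.le, sq_abs]
    linear_combination ρ * sin_sq_add_cos_sq h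
  have e2 : (√ρ * sin h) ^ 2 = ρ * sin h ^ 2 := by
    rw [mul_pow, sq_sqrt hρ.le]
  unfold Bg Bc Ev tau
  rw [e1, e2]
  simp only [one_mul, one_pow, mul_one, mul_zero, zero_mul, sub_zero, zero_pow two_ne_zero,
    zero_div, add_zero]
  ring

theorem psi_eq {ρ b : ℝ} (hρ : 0 < ρ) (hs : sin b ≠ 0) (hc : cos b ≠ 0) (h : ℝ) :
    psi ρ 1 0 b h = Na b (√ρ * cos h) (√ρ * sin h) := by
  have e1 : (√ρ * cos h) ^ 2 = ρ * cos h ^ 2 := by
    rw [mul_pow, sq_sqrt hρ.le]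
  have e2 : (√ρ * sin h) ^ 2 = ρ * sin h ^ 2 := by
    rw [mul_pow, sq_sqrt hρ.le]
  unfold psi Na
  rw [e1, e2]
  simp only [one_mul, one_pow, mul_one, mul_zero, zero_mul, sub_zero, zero_pow two_ne_zero,
    zero_div, add_zero]
  rw [cos_two_mul, cos_two_mul, sin_two_mul]
  have h1 := sin_sq_add_cos_sq h
  have h2 := sin_sq_add_cos_sq b
  have e3 : ρ * (2 * cos b ^ 2 - 1 - (2 * cos h ^ 2 - 1)) / (2 * sin b * cos b) =
      cos b / sin b * (ρ * sin h ^ 2) - sin b / cos b * (ρ * cos h ^ 2) := by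
    field_simp
    have h3 : sin h ^ 2 = 1 - cos h ^ 2 := by linarith
    have h4 : sin b ^ 2 = 1 - cos b ^ 2 := by linarith
    rw [h3, h4]
    ring
  rw [e3]
  linear_combination (-ρ * b) * h1

theorem K1_big {t θ b h : ℝ} (ht : 0 < t) (h0 : 0 < θ) (h1 : θ < π / 2)
    (hT : tanh t * tan θ ≤ 1) (hb : θ < b) (hb2 : b < 2 * θ) (hF : Facts θ (b - θ))
    (hv : π / 2 ≤ 1 * b ∨ 1 * (cosh t * sin b) * cos (1 * b) ≤
      √(r2 t θ) * |cos h| * sin (1 * b)) :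
    2 * lamJ t θ 1 0 ≤ Bg (cosh t) (r2 t θ) 1 0 b h +
      psi (r2 t θ) 1 0 (2 * θ - b) (2 * hJ t θ - h) := by
  have hr := Lk_r2pos ht θ
  have hsb : 0 < sin b := sin_pos_of_pos_of_lt_pi (by linarith) (by linarith)
  have hsp : 0 < sin (2 * θ - b) := sin_pos_of_pos_of_lt_pi (by linarith) (by linarith)
  have hcp : 0 < cos (2 * θ - b) := cos_pos_of_mem_Ioo ⟨by linarith, by linarith⟩
  have h2 := pair (cx ht h0 h1 hT) (e := b - θ) (by linarith) (by linarith) hF h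
  have e1 : θ + (b - θ) = b := by ring
  have e2 : θ - (b - θ) = 2 * θ - b := by ring
  rw [e1, e2] at h2
  have hcond : π / 2 ≤ b ∨ cosh t * cos b ≤ √(r2 t θ) * |cos h| := by
    rcases hv with hv | hv
    · left
      linarith
    · right
      have h3 : (cosh t * cos b) * sin b ≤ (√(r2 t θ) * |cos h|) * sin b := by
        rw [one_mul, one_mul] at hv
        linarith
      exact le_of_mul_le_mul_right h3 hsb
  unfold Bb at h2
  rw [if_pos hcond] at h2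
  rw [lamJ_eq, Bg_eq hr, psi_eq hr hsp.ne' hcp.ne']
  exact h2

theorem K1_nat {t θ b h : ℝ} (ht : 0 < t) (h0 : 0 < θ) (h1 : θ < π / 2)
    (hT : tanh t * tan θ ≤ 1) (hb : θ < b) (hb2 : b < 2 * θ) (hF : Facts θ (b - θ))
    (hv : ¬ (π / 2 ≤ 1 * b ∨ 1 * (cosh t * sin b) * cos (1 * b) ≤
      √(r2 t θ) * |cos h| * sin (1 * b))) :
    2 * lamJ t θ 1 0 ≤ psi (r2 t θ) 1 0 b h +
      psi (r2 t θ) 1 0 (2 * θ - b) (2 * hJ t θ - h) := by
  have hr := Lk_r2pos ht θ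
  have hsb : 0 < sin b := sin_pos_of_pos_of_lt_pi (by linarith) (by linarith)
  have hsp : 0 < sin (2 * θ - b) := sin_pos_of_pos_of_lt_pi (by linarith) (by linarith)
  have hcp : 0 < cos (2 * θ - b) := cos_pos_of_mem_Ioo ⟨by linarith, by linarith⟩
  have h2 := pair (cx ht h0 h1 hT) (e := b - θ) (by linarith) (by linarith) hF h
  have e1 : θ + (b - θ) = b := by ring
  have e2 : θ - (b - θ) = 2 * θ - b := by ring
  rw [e1, e2] at h2
  push Not at hv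
  obtain ⟨hv1, hv2⟩ := hv
  rw [one_mul] at hv1
  have hcb : 0 < cos b := cos_pos_of_mem_Ioo ⟨by linarith, hv1⟩
  have hcond : ¬ (π / 2 ≤ b ∨ cosh t * cos b ≤ √(r2 t θ) * |cos h|) := by
    rintro (h3 | h3)
    · linarith
    · have h4 := mul_le_mul_of_nonneg_right h3 hsb.le
      rw [one_mul, one_mul] at hv2
      linarith
  unfold Bb at h2
  rw [if_neg hcond] at h2
  have e3 : Na b (√(r2 t θ) * |cos h|) (√(r2 t θ) * sin h) =
      Na b (√(r2 t θ) * cos h) (√(r2 t θ) * sin h) := by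
    unfold Na
    rw [mul_pow _ |cos h|, sq_abs, ← mul_pow]
  rw [e3] at h2
  rw [lamJ_eq, psi_eq hr hsb.ne' hcb.ne', psi_eq hr hsp.ne' hcp.ne']
  exact h2

theorem K1_full {t θ : ℝ} (ht : 0 < t) (h0 : 0 < θ) (h1 : θ < π / 2)
    (hT : tanh t * tan θ ≤ 1) (hF : ∀ e, hJ t θ < e → e < θ → Facts θ e) :
    2 * lamJ t θ 1 0 ≤ Bg (cosh t) (r2 t θ) 1 0 (2 * θ) (2 * hJ t θ) := by
  have hr := Lk_r2pos ht θ
  have hc := cx ht h0 h1 hT
  have h2 := pair_full hc hF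
  have h3 : 0 ≤ cos (2 * hJ t θ) :=
    cos_nonneg_of_neg_pi_div_two_le_of_le (by linarith [hc.f0, pi_pos]) (by linarith [hc.f1])
  rw [lamJ_eq, Bg_eq hr, abs_of_nonneg h3]
  exact h2

end Pool.Agent.H46.KO
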