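import Pool.Agent.H46.KO.Ba
import Pool.Agent.H46.KO.Id

/-!
# The pair inequality for `0 <= η <= e`

PROOF. `b = θ + e < 2θ < π`, so `tau b > 0`, `sin b > 0`; `0 < p < π/2`. Put `δ = η/2`, `ε = e/2`,
`g0 = tan ε`, `g = tan δ` (`0 <= g <= g0`), `a = α cos δ`. `α >= 0`
(`C sin ε cos δ >= S cos ε sin δ` because `C > S > 0` and `sin ε cos δ >= cos ε sin δ`).
`VV >= 0` (`Facts.vv`), `WW >= 0` (`ww_nonneg`).
If `γ >= 0` all terms are `>= 0` (`FF >= 0` from `qr`: its left side is `>= 0`).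
If `γ < 0`: put `Z = - γ cos δ > 0`; then `B = - g Z`, `α sin δ = g a` and the right side of
`phi_id` is `>= FF a^2 - 2 WW g a Z + M (Z - g0 g a)^2`, `M = 2 tau b cos p sin 2θ cos^2 ε / Π`,
`Π = sin b sin p`, and
`- 2 WW g a Z + M (Z - g0 g a)^2 >= - 2 WW g0 g^2 a^2 - WW^2 g^2 a^2 / M
  >= - a^2 g0^2 (2 WW g0 + WW^2/M)`; so the right side is `>= a^2 (FF - left side of qr) >= 0`.
-/

open Real

namespace Pool.Agent.H46.KO

theorem ww_nonneg {θ e : ℝ} (h0 : 0 < θ) (h1 : θ < π / 2) (he : 0 < e) (he2 : e < θ) :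
    0 ≤ WW θ e := by
  have hpi := pi_pos
  have a1 : 0 < sin e := sin_pos_of_pos_of_lt_pi he (by linarith)
  have a2 : 0 < sin (2 * θ) := sin_pos_of_pos_of_lt_pi (by linarith) (by linarith)
  have a3 : 0 < sin (θ + e) := sin_pos_of_pos_of_lt_pi (by linarith) (by linarith)
  have a4 : 0 < sin θ := sin_pos_of_pos_of_lt_pi h0 (by linarith)
  have a5 : 0 < θ + e := by linarith
  unfold WW
  positivity

private theorem pq_core {FF WW M A Z g g0 : ℝ} (hM : 0 < M) (hW : 0 ≤ WW) (hg : 0 ≤ g)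
    (hg0 : g ≤ g0) (h : g0 ^ 2 * (2 * WW * g0 + WW ^ 2 / M) ≤ FF) :
    0 ≤ FF * A ^ 2 - 2 * WW * A * (g * Z) + M * (Z - g0 * g * A) ^ 2 := by
  have e : FF * A ^ 2 - 2 * WW * A * (g * Z) + M * (Z - g0 * g * A) ^ 2 =
      (FF - g ^ 2 * (2 * WW * g0 + WW ^ 2 / M)) * A ^ 2 +
        (M * (Z - g0 * g * A) - WW * g * A) ^ 2 / M := by
    field_simp
    ring
  have h1 : g ^ 2 * (2 * WW * g0 + WW ^ 2 / M) ≤ g0 ^ 2 * (2 * WW * g0 + WW ^ 2 / M) := by
    have h2 : 0 ≤ 2 * WW * g0 + WW ^ 2 / M := by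
      have h3 : 0 ≤ g0 := hg.trans hg0
      positivity
    exact mul_le_mul_of_nonneg_right (pow_le_pow_left₀ hg hg0 2) h2
  rw [e]
  have h4 : 0 ≤ FF - g ^ 2 * (2 * WW * g0 + WW ^ 2 / M) := by linarith
  positivity

theorem mid {C S θ φ r e η : ℝ} (h : Cx C S θ φ r) (he : 0 < e) (he2 : e < θ)
    (hF : Facts θ e) (h3 : 0 ≤ η) (h4 : η ≤ e) :
    Jv C S θ ≤ Bc C (θ + e) (Xp C S θ η) (Yp C S θ η) +
      Na (θ - e) (Xp C S θ (-η)) (Yp C S θ (-η)) := by
  have hpi := pi_pos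
  have hθ0 := h.t0
  have hθ1 := h.t1
  have htau : 0 < tau (θ + e) := tau_pos (by linarith) (by linarith)
  have hsb : 0 < sin (θ + e) := sin_pos_of_pos_of_lt_pi (by linarith) (by linarith)
  have hsp : 0 < sin (θ - e) := sin_pos_of_pos_of_lt_pi (by linarith) (by linarith)
  have hcp : 0 < cos (θ - e) := cos_pos_of_mem_Ioo ⟨by linarith, by linarith⟩
  have hs2 : 0 < sin (2 * θ) := sin_pos_of_pos_of_lt_pi (by linarith) (by linarith)
  have hsε : 0 < sin (e / 2) := sin_pos_of_pos_of_lt_pi (by linarith) (by linarith)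
  have hcε : 0 < cos (e / 2) := cos_pos_of_mem_Ioo ⟨by linarith, by linarith⟩
  have hsδ : 0 ≤ sin (η / 2) := sin_nonneg_of_nonneg_of_le_pi (by linarith) (by linarith)
  have hcδ : 0 < cos (η / 2) := cos_pos_of_mem_Ioo ⟨by linarith, by linarith⟩
  have htan : tan (η / 2) ≤ tan (e / 2) := by
    rcases eq_or_lt_of_le h4 with h5 | h5
    · rw [h5]
    · exact (tan_lt_tan_of_lt_of_lt_pi_div_two (by linarith) (by linarith) (by linarith)).le
  have hg : 0 ≤ tan (η / 2) := by rw [tan_eq_sin_div_cos]; positivity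
  have hg0 : 0 < tan (e / 2) := by rw [tan_eq_sin_div_cos]; positivity
  have hW := ww_nonneg hθ0 hθ1 he he2
  have hV := hF.vv
  have id := phi_id (C := C) (S := S) (θ := θ) (e := e) (η := η) h.CS hsb.ne' hsp.ne' hcp.ne'
    htau.ne'
  have hC := h.C0
  have hS := h.S0
  have hSC := h.SC
  have hqr := hF.qr
  have hFF : 0 ≤ FF θ e := by
    refine le_trans ?_ hqr
    positivity
  have hα : 0 ≤ 2 * (C * sin (e / 2) * cos (η / 2) - S * cos (e / 2) * sin (η / 2)) := by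
    have h5 : cos (e / 2) * sin (η / 2) ≤ sin (e / 2) * cos (η / 2) := by
      rw [tan_eq_sin_div_cos, tan_eq_sin_div_cos, div_le_div_iff₀ hcδ hcε] at htan
      linarith
    have h6 : S * (cos (e / 2) * sin (η / 2)) ≤ C * (sin (e / 2) * cos (η / 2)) :=
      mul_le_mul hSC.le h5 (by positivity) hC.le
    linarith
  have hpos : 0 < 2 * tau (θ + e) * cos (θ - e) := by positivity
  have key : 0 ≤ 2 * tau (θ + e) * cos (θ - e) * (Bc C (θ + e) (Xp C S θ η) (Yp C S θ η) +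
        Na (θ - e) (Xp C S θ (-η)) (Yp C S θ (-η)) - Jv C S θ) := by
    rw [id]
    set α := 2 * (C * sin (e / 2) * cos (η / 2) - S * cos (e / 2) * sin (η / 2)) with hαd
    set γ := 2 * (S * sin (e / 2) * cos (η / 2) - C * cos (e / 2) * sin (η / 2)) with hγd
    rcases le_or_gt 0 γ with h5 | h5
    · positivity
    · have hsd : sin (η / 2) = tan (η / 2) * cos (η / 2) := (tan_mul_cos hcδ.ne').symm
      have hse : sin (e / 2) = tan (e / 2) * cos (e / 2) := (tan_mul_cos hcε.ne').symm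
      have hM : 0 < 2 * tau (θ + e) * cos (θ - e) * (sin (2 * θ) / (sin (θ + e) * sin (θ - e))) *
          cos (e / 2) ^ 2 := by positivity
      have hqr' : tan (e / 2) ^ 2 * (2 * WW θ e * tan (e / 2) + WW θ e ^ 2 /
          (2 * tau (θ + e) * cos (θ - e) * (sin (2 * θ) / (sin (θ + e) * sin (θ - e))) *
          cos (e / 2) ^ 2)) ≤ FF θ e := by
        convert hqr using 3
        field_simp
      have hc := pq_core (A := α * cos (η / 2)) (Z := -γ * cos (η / 2)) hM hW hg htan hqr'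
      have hVB : 0 ≤ VV θ e * (γ * sin (η / 2)) ^ 2 := by positivity
      have e1 : FF θ e * (α * cos (η / 2)) ^ 2 +
          2 * WW θ e * (α * cos (η / 2)) * (γ * sin (η / 2)) + VV θ e * (γ * sin (η / 2)) ^ 2 +
          2 * tau (θ + e) * cos (θ - e) * (sin (2 * θ) / (sin (θ + e) * sin (θ - e))) *
            (cos (e / 2) * γ * cos (η / 2) + sin (e / 2) * α * sin (η / 2)) ^ 2 =
          (FF θ e * (α * cos (η / 2)) ^ 2 -
            2 * WW θ e * (α * cos (η / 2)) * (tan (η / 2) * (-γ * cos (η / 2))) +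
            2 * tau (θ + e) * cos (θ - e) * (sin (2 * θ) / (sin (θ + e) * sin (θ - e))) *
            cos (e / 2) ^ 2 * (-γ * cos (η / 2) -
              tan (e / 2) * tan (η / 2) * (α * cos (η / 2))) ^ 2) +
          VV θ e * (γ * sin (η / 2)) ^ 2 := by
        clear_value α γ
        rw [hsd, hse]
        ring
      rw [e1]
      exact add_nonneg hc hVB
  have h7 := (mul_nonneg_iff_of_pos_left hpos).1 key
  linarith

end Pool.Agent.H46.KO
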