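import Pool.Agent.H46.KO.Fx

/-!
# The facts on the second region, in the form used by the assembly
-/

open Real

namespace Pool.Agent.H46.KO

theorem facts_E2 {θ e : ℝ} (h0 : 49 / 50 ≤ θ) (h1 : θ ≤ 21 / 20)
    (h2 : 5 / 2 * (θ - 24 / 25) ≤ e) (h3 : θ + e < π / 2) : Facts θ e :=
  facts_x ⟨h0, h1, h2, h3.le⟩

end Pool.Agent.H46.KO
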