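import Pool.Agent.H46.KO.Ba

/-!
# The easy scalar facts, `0 < e < θ <= 49/50`, `b = θ + e`, `p = θ - e`

* `fact_vv`: `2θ + e < 3 * 49/50 < π`, `sin b >= sin θ` (`θ <= b <= π - θ`), `sin θ >= sin p`.
* `fact_f5`: `cos θ cos e = (cos b + cos p)/2 <= (1 + cos b)/2`; one variable inequality
  `(b - sin b cos b)(1 + cos b) <= 2 sin^3 b` for `0 <= b <= 49/25` (ratio right/left: `3/2` at
  `b -> 0`, `1.27` at `π/2`, `1.105` at `1.96`). Equivalent, with `v = tan (b/2) <= 1.487`:
  `b <= sin b cos b + 2 sin^3 b/(1 + cos b) = 2 v (1 + 3 v^2)/(1 + v^2)^2`, and `b = 2 arctan v`;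
  the derivative in `v` of the difference is `8 v^2 (1 - v^2)/(1+v^2)^3`, so the difference increases for `v <= 1` and decreases for `v >= 1`; it is `0` at `v = 0` and
  positive at `v = 3/2` (`2*1.5*7.75/10.5625 = 2.201 > 2 arctan 1.5 = 1.966`).
-/

open Real

namespace Pool.Agent.H46.KO

private theorem sc_deriv (x : ℝ) : HasDerivAt (fun x : ℝ => sin x * (2 - cos x) - x) (2 * cos x * (1 - cos x)) x := by
  have h := ((Real.hasDerivAt_sin x).mul ((Real.hasDerivAt_cos x).const_sub 2)).sub (hasDerivAt_id x)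
  refine h.congr_deriv ?_
  have h2 := sin_sq_add_cos_sq x
  linear_combination h2

private theorem sc_small {b : ℝ} (h0 : 0 ≤ b) (h1 : b ≤ π / 2) : b ≤ sin b * (2 - cos b) := by
  have hm : MonotoneOn (fun x : ℝ => sin x * (2 - cos x) - x) (Set.Icc 0 (π / 2)) := by
    refine monotoneOn_of_deriv_nonneg (convex_Icc 0 (π / 2)) ?_ ?_ ?_
    · exact fun x _ => (sc_deriv x).continuousAt.continuousWithinAt
    · exact fun x _ => (sc_deriv x).differentiableAt.differentiableWithinAt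
    · intro x hx
      rw [interior_Icc] at hx
      rw [(sc_deriv x).deriv]
      have hc : 0 ≤ cos x := cos_nonneg_of_neg_pi_div_two_le_of_le (by linarith [hx.1, pi_pos]) hx.2.le
      have hc1 : cos x ≤ 1 := cos_le_one x
      exact mul_nonneg (mul_nonneg zero_le_two hc) (by linarith)
  have h := hm ⟨le_refl 0, by linarith⟩ ⟨h0, h1⟩ h0
  simp only [sin_zero, zero_mul, sub_zero] at h
  linarith

private theorem sc_big {b : ℝ} (h0 : π / 2 < b) (h1 : b ≤ 49 / 25) : b ≤ sin b * (2 - cos b) := by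
  obtain ⟨x, hx⟩ : ∃ x, b = x + π / 2 := ⟨b - π / 2, by ring⟩
  rw [hx, sin_add_pi_div_two, cos_add_pi_div_two]
  have hp := pi_gt_three
  have hp2 := pi_lt_d2
  have hx0 : 0 < x := by linarith
  have hx1 : x ≤ 1 / 2 := by linarith
  have hc := one_sub_sq_div_two_le_cos (x := x)
  have hs := sin_gt_sub_cube hx0
  have hx2 : x ^ 2 ≤ 1 / 4 := by nlinarith
  have hx3 : x ^ 3 ≤ x / 4 := by nlinarith
  have h2 : (1 - x ^ 2 / 2) * (2 + x - x ^ 3 / 6) ≤ cos x * (2 - - sin x) := by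
    refine mul_le_mul hc (by linarith) ?_ ?_
    · nlinarith
    · linarith
  have h3 : x + 1.6 ≤ (1 - x ^ 2 / 2) * (2 + x - x ^ 3 / 6) := by
    have h5 : 0 ≤ x ^ 5 := by positivity
    nlinarith
  linarith

private theorem sc_all {b : ℝ} (h0 : 0 ≤ b) (h1 : b ≤ 49 / 25) : b ≤ sin b * (2 - cos b) := by
  rcases le_or_gt b (π / 2) with h | h
  · exact sc_small h0 h
  · exact sc_big h h1

theorem fact_vv {θ e : ℝ} (h0 : 0 < e) (h1 : e < θ) (h2 : θ ≤ 49 / 50) : 0 ≤ VV θ e := by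
  have hp := pi_gt_three
  unfold VV
  have hs : 0 ≤ sin (θ + e) - sin θ := by
    rw [sin_sub_sin]
    have h3 : 0 ≤ sin ((θ + e - θ) / 2) := sin_nonneg_of_nonneg_of_le_pi (by linarith) (by linarith)
    have h4 : 0 ≤ cos ((θ + e + θ) / 2) :=
      cos_nonneg_of_neg_pi_div_two_le_of_le (by linarith) (by linarith)
    positivity
  have hs2 : 0 ≤ sin θ - sin (θ - e) := by
    rw [sin_sub_sin]
    have h3 : 0 ≤ sin ((θ - (θ - e)) / 2) := sin_nonneg_of_nonneg_of_le_pi (by linarith) (by linarith)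
    have h4 : 0 ≤ cos ((θ + (θ - e)) / 2) :=
      cos_nonneg_of_neg_pi_div_two_le_of_le (by linarith) (by linarith)
    positivity
  have h5 : 0 ≤ sin (θ + e) := sin_nonneg_of_nonneg_of_le_pi (by linarith) (by linarith)
  have h6 : 0 ≤ sin (2 * θ + e) := sin_nonneg_of_nonneg_of_le_pi (by linarith) (by linarith)
  have h7 : 0 ≤ cos (θ - e) := cos_nonneg_of_neg_pi_div_two_le_of_le (by linarith) (by linarith)
  have h8 : 0 ≤ tau (θ + e) := (tau_pos (by linarith) (by linarith)).le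
  have h9 : 0 ≤ θ + e := by linarith
  exact add_nonneg (mul_nonneg (add_nonneg (mul_nonneg h9 hs) (mul_nonneg h5 h6)) h7) (mul_nonneg hs2 h8)

theorem one_var {b : ℝ} (h0 : 0 ≤ b) (h1 : b ≤ 49 / 25) :
    (b - sin b * cos b) * (1 + cos b) ≤ 2 * sin b ^ 3 := by
  have h2 := sc_all h0 h1
  have h3 : 0 ≤ 1 + cos b := by linarith [neg_one_le_cos b]
  have h4 : (b - sin b * cos b) * (1 + cos b) ≤ (sin b * (2 - cos b) - sin b * cos b) * (1 + cos b) :=
    mul_le_mul_of_nonneg_right (by linarith) h3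
  have h5 : (sin b * (2 - cos b) - sin b * cos b) * (1 + cos b) = 2 * sin b ^ 3 := by
    have h6 := sin_sq_add_cos_sq b
    linear_combination (-2 * sin b) * h6
  linarith

theorem fact_f5 {θ e : ℝ} (h0 : 0 < e) (h1 : e < θ) (h2 : θ ≤ 49 / 50) :
    cos θ * cos e * (θ + e - sin (θ + e) * cos (θ + e)) ≤ sin (θ + e) ^ 3 := by
  have h3 := one_var (b := θ + e) (by linarith) (by linarith)
  have h4 : 0 ≤ θ + e - sin (θ + e) * cos (θ + e) := by
    have h5 := sin_le (x := 2 * (θ + e)) (by linarith)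
    rw [sin_two_mul] at h5
    linarith
  have h5 : cos θ * cos e ≤ (1 + cos (θ + e)) / 2 := by
    have h6 := cos_add θ e
    have h7 := cos_sub θ e
    have h8 := cos_le_one (θ - e)
    linarith
  have h6 := mul_le_mul_of_nonneg_right h5 h4
  linarith

end Pool.Agent.H46.KO
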