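import Pool.Agent.H46.KO.Ba

/-!
# The fact `fl`: `b^2 e^2/3 <= FF θ e` for `0 <= e <= θ <= 49/50`, `b = θ + e`, `p = θ - e`

Numerically `FF >= 0.508 b^2 e^2`, and `FF(θ, 0) = 2 sin θ (2 θ cos θ - sin θ (1 + cos^2 θ)) >= 0`
for `θ <= .987` (the bracket is `>= .0038 θ^3` for `θ <= .98`); for small angles
`FF = (2/3) b^3 θ + b^2 e^2/2 + ..`. The worst point is `θ = 49/50`, `e = 0` (there
`dFF/de = sin 2θ sin^2 θ > 0`).
`dFF/de = sin 2θ (1 + cos e - b sin e - cos b cos θ) - cos b (sin b cos e + sin p)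
     + 2 sin b sin (θ + e/2) sin (3e/2)`,
and it is `>= (2/3) b e (b + e)` (the derivative of `b^2 e^2/3`) as long as `b <= π/2` (margin
`.098 b^3`). Another form, linear in `b`:
`FF = b A - sin b Q`, `A = sin 2θ (1 + cos e) = sin 2θ + sin (2θ+e)/2 + sin (2θ-e)/2`,
`Q = sin θ + sin (θ-e) + sin 3θ/2 + sin (θ+2e)/2`, and `sin b <= b - b^3/6 + b^5/120`.
-/

open Real

namespace Pool.Agent.H46.KO

private theorem up {f f' : ℝ → ℝ} (h : ∀ x, HasDerivAt f (f' x) x) (h0 : f 0 = 0)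
    (hp : ∀ x, 0 ≤ x → 0 ≤ f' x) : ∀ x, 0 ≤ x → 0 ≤ f x := by
  intro x hx
  have hm : MonotoneOn f (Set.Ici 0) := by
    apply monotoneOn_of_deriv_nonneg (convex_Ici 0)
    · exact fun y _ => (h y).continuousAt.continuousWithinAt
    · exact fun y _ => (h y).differentiableAt.differentiableWithinAt
    · intro y hy
      rw [interior_Ici] at hy
      rw [(h y).deriv]
      exact hp y (le_of_lt hy)
  have := hm (Set.self_mem_Ici) hx hx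
  rwa [h0] at this

private theorem b1 : ∀ x : ℝ, 0 ≤ x → 0 ≤ x - sin x :=
  up (f' := fun x => 1 - cos x) (fun x => (hasDerivAt_id x).sub (hasDerivAt_sin x)) (by simp)
    (fun x _ => by linarith [cos_le_one x])

private theorem b2 : ∀ x : ℝ, 0 ≤ x → 0 ≤ cos x - (1 - x ^ 2 / 2) := by
  refine up (f' := fun x => x - sin x) (fun x => ?_) (by simp) b1
  have h := (hasDerivAt_cos x).sub (((hasDerivAt_pow 2 x).div_const 2).const_sub 1)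
  refine h.congr_deriv ?_
  simp only [Nat.cast_ofNat, Nat.add_one_sub_one, pow_one]
  ring

private theorem b3 : ∀ x : ℝ, 0 ≤ x → 0 ≤ sin x - (x - x ^ 3 / 6) := by
  refine up (f' := fun x => cos x - (1 - x ^ 2 / 2)) (fun x => ?_) (by simp) b2
  have h := (hasDerivAt_sin x).sub ((hasDerivAt_id x).sub ((hasDerivAt_pow 3 x).div_const 6))
  refine h.congr_deriv ?_
  simp only [Nat.cast_ofNat, Nat.add_one_sub_one]
  ring

private theorem b4 : ∀ x : ℝ, 0 ≤ x → 0 ≤ 1 - x ^ 2 / 2 + x ^ 4 / 24 - cos x := by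
  refine up (f' := fun x => sin x - (x - x ^ 3 / 6)) (fun x => ?_) (by simp) b3
  have h := ((((hasDerivAt_pow 2 x).div_const 2).const_sub 1).add
    ((hasDerivAt_pow 4 x).div_const 24)).sub (hasDerivAt_cos x)
  refine h.congr_deriv ?_
  simp only [Nat.cast_ofNat, Nat.add_one_sub_one, pow_one]
  ring

private theorem b5 : ∀ x : ℝ, 0 ≤ x → 0 ≤ x - x ^ 3 / 6 + x ^ 5 / 120 - sin x := by
  refine up (f' := fun x => 1 - x ^ 2 / 2 + x ^ 4 / 24 - cos x) (fun x => ?_) (by simp) b4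
  have h := (((hasDerivAt_id x).sub ((hasDerivAt_pow 3 x).div_const 6)).add
    ((hasDerivAt_pow 5 x).div_const 120)).sub (hasDerivAt_sin x)
  refine h.congr_deriv ?_
  simp only [Nat.cast_ofNat, Nat.add_one_sub_one]
  ring

private theorem b6 : ∀ x : ℝ, 0 ≤ x → 0 ≤ cos x - (1 - x ^ 2 / 2 + x ^ 4 / 24 - x ^ 6 / 720) := by
  refine up (f' := fun x => x - x ^ 3 / 6 + x ^ 5 / 120 - sin x) (fun x => ?_) (by simp) b5
  have h := (hasDerivAt_cos x).sub (((((hasDerivAt_pow 2 x).div_const 2).const_sub 1).add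
    ((hasDerivAt_pow 4 x).div_const 24)).sub ((hasDerivAt_pow 6 x).div_const 720))
  refine h.congr_deriv ?_
  simp only [Nat.cast_ofNat, Nat.add_one_sub_one, pow_one]
  ring

/-- the polynomial inequality, by its Bernstein coefficients -/
private theorem bern {u w : ℝ} (h0 : 0 ≤ u) (h1 : u ≤ 1) (h2 : 0 ≤ w) (h3 : w ≤ 1) :
    0 ≤ 2 * (1 - w / 2) * (1 - w / 6) ^ 3 +
      u ^ 2 / 3 * (1 - w / 6) * (1 - w / 2) * (1 + (1 - w / 2) ^ 2) * (1 - u ^ 2 * w / 20) +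
      u / 2 * (1 - w / 6) * (1 - u ^ 2 * w / 12) *
        (5 * (1 - w / 6) + 2 * (1 - w / 6) * (1 - w / 2) ^ 2 -
          2 * (1 - w / 2 + w ^ 2 / 24) * (1 - u) -
          2 / 3 * (1 - w / 2 + w ^ 2 / 24) * u ^ 3 * w) -
      u ^ 3 * w / 4 * (4 * (1 - w / 6 + w ^ 2 / 120) ^ 2 +
        2 * (1 - w / 2 + w ^ 2 / 24) * (1 - w / 6 + w ^ 2 / 120) * u) -
      u * (1 + u) ^ 2 / 3 := by
  obtain ⟨a, ha⟩ : ∃ a, a = 1 - u := ⟨_, rfl⟩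
  obtain ⟨z, hz⟩ : ∃ z, z = 1 - w := ⟨_, rfl⟩
  have ha0 : 0 ≤ a := by linarith
  have hz0 : 0 ≤ z := by linarith
  have key : 2 * (1 - w / 2) * (1 - w / 6) ^ 3 +
      u ^ 2 / 3 * (1 - w / 6) * (1 - w / 2) * (1 + (1 - w / 2) ^ 2) * (1 - u ^ 2 * w / 20) +
      u / 2 * (1 - w / 6) * (1 - u ^ 2 * w / 12) *
        (5 * (1 - w / 6) + 2 * (1 - w / 6) * (1 - w / 2) ^ 2 -
          2 * (1 - w / 2 + w ^ 2 / 24) * (1 - u) -
          2 / 3 * (1 - w / 2 + w ^ 2 / 24) * u ^ 3 * w) -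
      u ^ 3 * w / 4 * (4 * (1 - w / 6 + w ^ 2 / 120) ^ 2 +
        2 * (1 - w / 2 + w ^ 2 / 24) * (1 - w / 6 + w ^ 2 / 120) * u) -
      u * (1 + u) ^ 2 / 3 =
      2 * (a ^ 6 * z ^ 5) + 8 * (a ^ 6 * w * z ^ 4) + 38 / 3 * (a ^ 6 * w ^ 2 * z ^ 3) +
      535 / 54 * (a ^ 6 * w ^ 3 * z ^ 2) + 275 / 72 * (a ^ 6 * w ^ 4 * z) +
      125 / 216 * (a ^ 6 * w ^ 5) + 85 / 6 * (u * a ^ 5 * z ^ 5) +
      172 / 3 * (u * a ^ 5 * w * z ^ 4) + 830 / 9 * (u * a ^ 5 * w ^ 2 * z ^ 3) +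
      10609 / 144 * (u * a ^ 5 * w ^ 3 * z ^ 2) + 4207 / 144 * (u * a ^ 5 * w ^ 4 * z) +
      331 / 72 * (u * a ^ 5 * w ^ 5) + 251 / 6 * (u ^ 2 * a ^ 4 * z ^ 5) +
      1532 / 9 * (u ^ 2 * a ^ 4 * w * z ^ 4) + 19859 / 72 * (u ^ 2 * a ^ 4 * w ^ 2 * z ^ 3) +
      5339 / 24 * (u ^ 2 * a ^ 4 * w ^ 3 * z ^ 2) + 2143 / 24 * (u ^ 2 * a ^ 4 * w ^ 4 * z) +
      1027 / 72 * (u ^ 2 * a ^ 4 * w ^ 5) + 196 / 3 * (u ^ 3 * a ^ 3 * z ^ 5) +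
      19057 / 72 * (u ^ 3 * a ^ 3 * w * z ^ 4) + 30721 / 72 * (u ^ 3 * a ^ 3 * w ^ 2 * z ^ 3) +
      184651 / 540 * (u ^ 3 * a ^ 3 * w ^ 3 * z ^ 2) +
      1175971 / 8640 * (u ^ 3 * a ^ 3 * w ^ 4 * z) + 928547 / 43200 * (u ^ 3 * a ^ 3 * w ^ 5) +
      170 / 3 * (u ^ 4 * a ^ 2 * z ^ 5) + 27011 / 120 * (u ^ 4 * a ^ 2 * w * z ^ 4) +
      127511 / 360 * (u ^ 4 * a ^ 2 * w ^ 2 * z ^ 3) +
      132157 / 480 * (u ^ 4 * a ^ 2 * w ^ 3 * z ^ 2) +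
      454997 / 4320 * (u ^ 4 * a ^ 2 * w ^ 4 * z) + 1362187 / 86400 * (u ^ 4 * a ^ 2 * w ^ 5) +
      155 / 6 * (u ^ 5 * a * z ^ 5) + 35411 / 360 * (u ^ 5 * a * w * z ^ 4) +
      52747 / 360 * (u ^ 5 * a * w ^ 2 * z ^ 3) + 4229 / 40 * (u ^ 5 * a * w ^ 3 * z ^ 2) +
      62779 / 1728 * (u ^ 5 * a * w ^ 4 * z) + 99173 / 21600 * (u ^ 5 * a * w ^ 5) +
      29 / 6 * (u ^ 6 * z ^ 5) + 6143 / 360 * (u ^ 6 * w * z ^ 4) +
      683 / 30 * (u ^ 6 * w ^ 2 * z ^ 3) + 59257 / 4320 * (u ^ 6 * w ^ 3 * z ^ 2) +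
      523 / 160 * (u ^ 6 * w ^ 4 * z) + 22447 / 259200 * (u ^ 6 * w ^ 5) := by
    rw [ha, hz]
    ring
  rw [key]
  positivity

/-- `2 θ cos θ >= sin θ (1 + cos^2 θ)` -/
private theorem gg {θ : ℝ} (h0 : 0 ≤ θ) (h2 : θ ≤ 49 / 50) :
    0 ≤ 2 * θ * cos θ - sin θ * (1 + cos θ ^ 2) := by
  have c4 := b4 θ h0
  have c5 := b5 θ h0
  have c6 := b6 θ h0
  have hw : θ ^ 2 ≤ 2401 / 2500 := by nlinarith
  obtain ⟨w, hw'⟩ : ∃ w, w = θ ^ 2 := ⟨_, rfl⟩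
  have hw0 : 0 ≤ w := by rw [hw']; positivity
  have hw1 : w ≤ 2401 / 2500 := by rw [hw']; exact hw
  have e4 : θ ^ 4 = w ^ 2 := by rw [hw']; ring
  have e6 : θ ^ 6 = w ^ 3 := by rw [hw']; ring
  have e3 : θ ^ 3 = θ * w := by rw [hw']; ring
  have e5 : θ ^ 5 = θ * w ^ 2 := by rw [hw']; ring
  rw [← hw', e4] at c4 c6
  rw [e6] at c6
  rw [e3, e5] at c5
  have hc0 : 0 ≤ cos θ := by nlinarith
  have hC : cos θ ^ 2 ≤ (1 - w / 2 + w ^ 2 / 24) ^ 2 := by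
    apply pow_le_pow_left₀ hc0
    linarith
  have hs : sin θ * (1 + cos θ ^ 2) ≤
      (θ * (1 - w / 6 + w ^ 2 / 120)) * (1 + (1 - w / 2 + w ^ 2 / 24) ^ 2) := by
    apply mul_le_mul _ (by linarith) (by positivity) _
    · linarith
    · have : 0 ≤ 1 - w / 6 + w ^ 2 / 120 := by nlinarith
      positivity
  have hc : 2 * θ * (1 - w / 2 + w ^ 2 / 24 - w ^ 3 / 720) ≤ 2 * θ * cos θ := by
    apply mul_le_mul_of_nonneg_left _ (by linarith)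
    linarith
  have hp : 0 ≤ 1 / 3 - 13 / 30 * w + 37 / 360 * w ^ 2 - 11 / 960 * w ^ 3 := by
    have hv : 0 ≤ 2401 / 2500 - w := by linarith
    nlinarith [mul_nonneg hw0 hv, mul_nonneg (mul_nonneg hw0 hv) hv, mul_nonneg hv hv,
      mul_nonneg (mul_nonneg hv hv) hv, mul_nonneg (mul_nonneg hw0 hw0) hv]
  have hq : 0 ≤ 11 / 17280 * w ^ 4 - 1 / 69120 * w ^ 5 := by
    have h1 : 0 ≤ w ^ 4 * (11 / 17280 - 1 / 69120 * w) := by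
      apply mul_nonneg (by positivity)
      linarith
    linarith
  have hid : 2 * θ * (1 - w / 2 + w ^ 2 / 24 - w ^ 3 / 720) -
      (θ * (1 - w / 6 + w ^ 2 / 120)) * (1 + (1 - w / 2 + w ^ 2 / 24) ^ 2) =
      θ * w * ((1 / 3 - 13 / 30 * w + 37 / 360 * w ^ 2 - 11 / 960 * w ^ 3) +
        (11 / 17280 * w ^ 4 - 1 / 69120 * w ^ 5)) := by
    ring
  have hf : 0 ≤ θ * w * ((1 / 3 - 13 / 30 * w + 37 / 360 * w ^ 2 - 11 / 960 * w ^ 3) +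
        (11 / 17280 * w ^ 4 - 1 / 69120 * w ^ 5)) := by positivity
  linarith

private theorem iden (θ e s c S K : ℝ) (h1 : s ^ 2 + c ^ 2 = 1) (_h2 : S ^ 2 + K ^ 2 = 1) :
    2 * s * c * ((θ + e) * (1 + K) - (s * K + c * S) * c) -
      (s * K + c * S) * ((s * K + c * S) * K + (s * K - c * S)) =
    2 * s * (2 * θ * c - s * (1 + c ^ 2)) + 2 * c * s ^ 3 * e +
      2 * c * s * (1 + c ^ 2) * (e - S) +
      s * (1 - K) * (5 * s + 2 * s * c ^ 2 - 2 * c * θ - 2 * c * e + 4 * c * S) -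
      s * (1 - K) ^ 2 * (4 * s + 2 * c * S) + s ^ 2 * (1 - K) ^ 3 +
      c ^ 2 * S ^ 2 * (1 - K) := by
  linear_combination (-2 * c * s * e) * h1

theorem fl {θ e : ℝ} (h0 : 0 ≤ e) (h1 : e ≤ θ) (h2 : θ ≤ 49 / 50) :
    (θ + e) ^ 2 * e ^ 2 / 3 ≤ FF θ e := by
  rcases eq_or_lt_of_le (h0.trans h1) with hz | hθ
  · have he : e = 0 := by linarith
    subst he
    rw [← hz]
    simp [FF]
  have hFF : FF θ e = 2 * sin θ * (2 * θ * cos θ - sin θ * (1 + cos θ ^ 2)) +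
      2 * cos θ * sin θ ^ 3 * e + 2 * cos θ * sin θ * (1 + cos θ ^ 2) * (e - sin e) +
      sin θ * (1 - cos e) * (5 * sin θ + 2 * sin θ * cos θ ^ 2 - 2 * cos θ * θ -
        2 * cos θ * e + 4 * cos θ * sin e) -
      sin θ * (1 - cos e) ^ 2 * (4 * sin θ + 2 * cos θ * sin e) +
      sin θ ^ 2 * (1 - cos e) ^ 3 + cos θ ^ 2 * sin e ^ 2 * (1 - cos e) := by
    rw [← iden θ e (sin θ) (cos θ) (sin e) (cos e) (sin_sq_add_cos_sq θ) (sin_sq_add_cos_sq e)]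
    unfold FF
    rw [sin_two_mul, sin_add, sin_sub]
  obtain ⟨w, hw⟩ : ∃ w, w = θ ^ 2 := ⟨_, rfl⟩
  have hw0 : 0 ≤ w := by rw [hw]; positivity
  have hw1 : w ≤ 1 := by rw [hw]; nlinarith
  have e3 : θ ^ 3 = θ * w := by rw [hw]; ring
  have e5 : θ ^ 5 = θ * w ^ 2 := by rw [hw]; ring
  have e4 : θ ^ 4 = w ^ 2 := by rw [hw]; ring
  have s3 := b3 θ hθ.le
  have s5 := b5 θ hθ.le
  have c2 := b2 θ hθ.le
  have c4 := b4 θ hθ.le
  rw [e3] at s3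
  rw [e3, e5] at s5
  rw [← hw] at c2
  rw [← hw, e4] at c4
  have S1 := b1 e h0
  have S3 := b3 e h0
  have S5 := b5 e h0
  have K2 := b2 e h0
  have K4 := b4 e h0
  have he1 : e ≤ 1 := by linarith
  have g := gg hθ.le h2
  obtain ⟨s, hs⟩ : ∃ s, s = sin θ := ⟨_, rfl⟩
  obtain ⟨c, hc⟩ : ∃ c, c = cos θ := ⟨_, rfl⟩
  obtain ⟨S, hS⟩ : ∃ S, S = sin e := ⟨_, rfl⟩
  obtain ⟨k, hk⟩ : ∃ k, k = 1 - cos e := ⟨_, rfl⟩
  obtain ⟨s0, hs0⟩ : ∃ s0, s0 = θ * (1 - w / 6) := ⟨_, rfl⟩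
  obtain ⟨s1, hs1⟩ : ∃ s1, s1 = θ * (1 - w / 6 + w ^ 2 / 120) := ⟨_, rfl⟩
  obtain ⟨c0, hc0⟩ : ∃ c0, c0 = 1 - w / 2 := ⟨_, rfl⟩
  obtain ⟨C, hC⟩ : ∃ C, C = 1 - w / 2 + w ^ 2 / 24 := ⟨_, rfl⟩
  obtain ⟨k0, hk0⟩ : ∃ k0, k0 = e ^ 2 / 2 - e ^ 4 / 24 := ⟨_, rfl⟩
  rw [← hs, ← hc] at g
  rw [← hs] at s3 s5
  rw [← hc] at c2 c4
  rw [← hS] at S1 S3 S5
  rw [hFF, ← hs, ← hc, ← hS, ← hk]
  have q1 : s0 ≤ s := by rw [hs0]; linarith
  have q2 : s ≤ s1 := by rw [hs1]; linarith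
  have q3 : c0 ≤ c := by rw [hc0]; linarith
  have q4 : c ≤ C := by rw [hC]; linarith
  have q5 : k0 ≤ k := by rw [hk0, hk]; linarith
  have q6 : k ≤ e ^ 2 / 2 := by rw [hk]; linarith
  have p1 : 0 ≤ s0 := by rw [hs0]; apply mul_nonneg hθ.le; linarith
  have p2 : 0 ≤ c0 := by rw [hc0]; linarith
  have p3 : 0 ≤ k0 := by
    rw [hk0]
    have h5 : 0 ≤ e ^ 2 * (1 / 2 - e ^ 2 / 24) := by
      apply mul_nonneg (by positivity)
      nlinarith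
    linarith
  have p4 : 0 ≤ S := by
    have h5 : 0 ≤ e * (1 - e ^ 2 / 6) := by
      apply mul_nonneg h0
      nlinarith
    linarith
  have hs' : 0 ≤ s := p1.trans q1
  have hc' : 0 ≤ c := p2.trans q3
  have hk' : 0 ≤ k := p3.trans q5
  have t1 : 2 * c0 * s0 ^ 3 * e ≤ 2 * c * s ^ 3 * e := by gcongr
  have t2 : 2 * c0 * s0 * (1 + c0 ^ 2) * (e ^ 3 / 6 - e ^ 5 / 120) ≤
      2 * c * s * (1 + c ^ 2) * (e - S) := by
    have h5 : 0 ≤ e ^ 3 / 6 - e ^ 5 / 120 := by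
      have h6 : 0 ≤ e ^ 3 * (1 / 6 - e ^ 2 / 120) := by
        apply mul_nonneg (by positivity)
        nlinarith
      linarith
    have h6 : e ^ 3 / 6 - e ^ 5 / 120 ≤ e - S := by linarith
    apply mul_le_mul _ h6 h5 (by positivity)
    gcongr
  have hB : 5 * s0 + 2 * s0 * c0 ^ 2 - 2 * C * (θ - e) - 2 / 3 * C * e ^ 3 ≤
      5 * s + 2 * s * c ^ 2 - 2 * c * θ - 2 * c * e + 4 * c * S := by
    have r1 : 2 * s0 * c0 ^ 2 ≤ 2 * s * c ^ 2 := by gcongr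
    have r2 : 4 * c * (e - e ^ 3 / 6) ≤ 4 * c * S := by
      apply mul_le_mul_of_nonneg_left _ (by positivity)
      linarith
    have r3 : c * (2 * (θ - e) + 2 / 3 * e ^ 3) ≤ C * (2 * (θ - e) + 2 / 3 * e ^ 3) := by
      apply mul_le_mul_of_nonneg_right q4
      have : 0 ≤ θ - e := by linarith
      positivity
    linarith
  have hC1 : C ≤ 1 := by rw [hC]; nlinarith
  have hC0 : 0 ≤ C := hc'.trans q4
  have hB0 : 0 ≤ 5 * s0 + 2 * s0 * c0 ^ 2 - 2 * C * (θ - e) - 2 / 3 * C * e ^ 3 := by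
    have r1 : 0 ≤ 2 * s0 * c0 ^ 2 := by positivity
    have r2 : C * (2 * (θ - e) + 2 / 3 * e ^ 3) ≤ 1 * (2 * (θ - e) + 2 / 3 * e ^ 3) := by
      apply mul_le_mul_of_nonneg_right hC1
      have : 0 ≤ θ - e := by linarith
      positivity
    have r3 : e ^ 3 ≤ e := by
      have : 0 ≤ e * (1 - e ^ 2) := by
        apply mul_nonneg h0
        nlinarith
      linarith
    have r4 : 5 / 6 * θ ≤ s0 := by
      rw [hs0]
      nlinarith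
    linarith
  have t3 : s0 * k0 * (5 * s0 + 2 * s0 * c0 ^ 2 - 2 * C * (θ - e) - 2 / 3 * C * e ^ 3) ≤
      s * k * (5 * s + 2 * s * c ^ 2 - 2 * c * θ - 2 * c * e + 4 * c * S) := by
    apply mul_le_mul _ hB hB0 (by positivity)
    gcongr
  have t4 : s * k ^ 2 * (4 * s + 2 * c * S) ≤
      s1 * (e ^ 2 / 2) ^ 2 * (4 * s1 + 2 * C * e) := by
    have hSe : S ≤ e := by linarith
    have hs1' : 0 ≤ s1 := hs'.trans q2
    gcongr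
  have t5 : 0 ≤ s ^ 2 * k ^ 3 := by positivity
  have t6 : 0 ≤ c ^ 2 * S ^ 2 * k := by positivity
  have t7 : 0 ≤ 2 * s * (2 * θ * c - s * (1 + c ^ 2)) := by positivity
  obtain ⟨u, hu⟩ : ∃ u, e = u * θ := ⟨e / θ, by field_simp⟩
  have hu0 : 0 ≤ u := by
    by_contra hcon
    push Not at hcon
    nlinarith
  have hu1 : u ≤ 1 := by
    by_contra hcon
    push Not at hcon
    nlinarith
  have hb := bern hu0 hu1 hw0 hw1
  have hb2 := mul_nonneg (mul_nonneg (by positivity : 0 ≤ θ ^ 4) hu0) hb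
  have hfin : 2 * c0 * s0 ^ 3 * e + 2 * c0 * s0 * (1 + c0 ^ 2) * (e ^ 3 / 6 - e ^ 5 / 120) +
      s0 * k0 * (5 * s0 + 2 * s0 * c0 ^ 2 - 2 * C * (θ - e) - 2 / 3 * C * e ^ 3) -
      s1 * (e ^ 2 / 2) ^ 2 * (4 * s1 + 2 * C * e) - (θ + e) ^ 2 * e ^ 2 / 3 =
      θ ^ 4 * u * (2 * (1 - w / 2) * (1 - w / 6) ^ 3 +
      u ^ 2 / 3 * (1 - w / 6) * (1 - w / 2) * (1 + (1 - w / 2) ^ 2) * (1 - u ^ 2 * w / 20) +
      u / 2 * (1 - w / 6) * (1 - u ^ 2 * w / 12) *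
        (5 * (1 - w / 6) + 2 * (1 - w / 6) * (1 - w / 2) ^ 2 -
          2 * (1 - w / 2 + w ^ 2 / 24) * (1 - u) -
          2 / 3 * (1 - w / 2 + w ^ 2 / 24) * u ^ 3 * w) -
      u ^ 3 * w / 4 * (4 * (1 - w / 6 + w ^ 2 / 120) ^ 2 +
        2 * (1 - w / 2 + w ^ 2 / 24) * (1 - w / 6 + w ^ 2 / 120) * u) -
      u * (1 + u) ^ 2 / 3) := by
    rw [hc0, hs0, hs1, hC, hk0, hu, hw]
    ring
  linarith

end Pool.Agent.H46.KO
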