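import Mathlib

/-!
# Taylor bounds of sine and cosine, and values at `49/50` and `21/20`
-/

open Real

namespace Pool.Agent.H46.KO

theorem tay_mono {f f' : ℝ → ℝ} (h : ∀ x, HasDerivAt f (f' x) x) (h' : ∀ x, 0 ≤ x → 0 ≤ f' x)
    (h0 : f 0 = 0) {x : ℝ} (hx : 0 ≤ x) : 0 ≤ f x := by
  have h1 : MonotoneOn f (Set.Ici 0) := by
    apply monotoneOn_of_deriv_nonneg (convex_Ici 0)
    · exact fun y _ => (h y).continuousAt.continuousWithinAt
    · exact fun y _ => (h y).differentiableAt.differentiableWithinAt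
    · intro y hy
      rw [interior_Ici] at hy
      rw [(h y).deriv]
      exact h' y (le_of_lt hy)
  have := h1 (Set.mem_Ici.2 le_rfl) (Set.mem_Ici.2 hx) hx
  rwa [h0] at this

theorem sin_le_x {x : ℝ} (hx : 0 ≤ x) : sin x ≤ x := by
  have h := tay_mono (f := fun x => x - sin x) (f' := fun x => 1 - cos x)
    (fun y => (hasDerivAt_id y).sub (hasDerivAt_sin y)) (fun y _ => by linarith [cos_le_one y])
    (by simp) hx
  linarith

theorem cos_ge_2 {x : ℝ} (hx : 0 ≤ x) : 1 - x ^ 2 / 2 ≤ cos x := by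
  have h := tay_mono (f := fun x => cos x - (1 - x ^ 2 / 2)) (f' := fun x => x - sin x)
    (fun y => by
      have h := (hasDerivAt_cos y).sub ((hasDerivAt_const y (1 : ℝ)).sub
        ((hasDerivAt_pow 2 y).div_const 2))
      refine h.congr_deriv ?_
      simp
      ring) (fun y hy => by linarith [sin_le_x hy])
    (by simp) hx
  linarith

theorem sin_ge_3 {x : ℝ} (hx : 0 ≤ x) : x - x ^ 3 / 6 ≤ sin x := by
  have h := tay_mono (f := fun x => sin x - (x - x ^ 3 / 6))
    (f' := fun x => cos x - (1 - x ^ 2 / 2))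
    (fun y => by
      have h := (hasDerivAt_sin y).sub ((hasDerivAt_id y).sub
        ((hasDerivAt_pow 3 y).div_const 6))
      refine h.congr_deriv ?_
      simp
      ring) (fun y hy => by linarith [cos_ge_2 hy])
    (by simp) hx
  linarith

theorem cos_le_4 {x : ℝ} (hx : 0 ≤ x) : cos x ≤ 1 - x ^ 2 / 2 + x ^ 4 / 24 := by
  have h := tay_mono (f := fun x => (1 - x ^ 2 / 2 + x ^ 4 / 24) - cos x)
    (f' := fun x => sin x - (x - x ^ 3 / 6))
    (fun y => by
      have h := ((((hasDerivAt_const y (1 : ℝ)).sub ((hasDerivAt_pow 2 y).div_const 2))).add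
        ((hasDerivAt_pow 4 y).div_const 24)).sub (hasDerivAt_cos y)
      refine h.congr_deriv ?_
      simp
      ring) (fun y hy => by linarith [sin_ge_3 hy])
    (by simp) hx
  linarith

theorem sin_le_5 {x : ℝ} (hx : 0 ≤ x) : sin x ≤ x - x ^ 3 / 6 + x ^ 5 / 120 := by
  have h := tay_mono (f := fun x => (x - x ^ 3 / 6 + x ^ 5 / 120) - sin x)
    (f' := fun x => (1 - x ^ 2 / 2 + x ^ 4 / 24) - cos x)
    (fun y => by
      have h := ((((hasDerivAt_id y).sub ((hasDerivAt_pow 3 y).div_const 6))).add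
        ((hasDerivAt_pow 5 y).div_const 120)).sub (hasDerivAt_sin y)
      refine h.congr_deriv ?_
      simp
      ring) (fun y hy => by linarith [cos_le_4 hy])
    (by simp) hx
  linarith

theorem cos_ge_6 {x : ℝ} (hx : 0 ≤ x) : 1 - x ^ 2 / 2 + x ^ 4 / 24 - x ^ 6 / 720 ≤ cos x := by
  have h := tay_mono (f := fun x => cos x - (1 - x ^ 2 / 2 + x ^ 4 / 24 - x ^ 6 / 720))
    (f' := fun x => (x - x ^ 3 / 6 + x ^ 5 / 120) - sin x)
    (fun y => by
      have h := (hasDerivAt_cos y).sub ((((hasDerivAt_const y (1 : ℝ)).sub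
        ((hasDerivAt_pow 2 y).div_const 2)).add ((hasDerivAt_pow 4 y).div_const 24)).sub
        ((hasDerivAt_pow 6 y).div_const 720))
      refine h.congr_deriv ?_
      simp
      ring) (fun y hy => by linarith [sin_le_5 hy])
    (by simp) hx
  linarith

theorem sin_ge_7 {x : ℝ} (hx : 0 ≤ x) :
    x - x ^ 3 / 6 + x ^ 5 / 120 - x ^ 7 / 5040 ≤ sin x := by
  have h := tay_mono (f := fun x => sin x - (x - x ^ 3 / 6 + x ^ 5 / 120 - x ^ 7 / 5040))
    (f' := fun x => cos x - (1 - x ^ 2 / 2 + x ^ 4 / 24 - x ^ 6 / 720))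
    (fun y => by
      have h := (hasDerivAt_sin y).sub ((((hasDerivAt_id y).sub
        ((hasDerivAt_pow 3 y).div_const 6)).add ((hasDerivAt_pow 5 y).div_const 120)).sub
        ((hasDerivAt_pow 7 y).div_const 5040))
      refine h.congr_deriv ?_
      simp
      ring) (fun y hy => by linarith [cos_ge_6 hy])
    (by simp) hx
  linarith

theorem cos_le_8 {x : ℝ} (hx : 0 ≤ x) :
    cos x ≤ 1 - x ^ 2 / 2 + x ^ 4 / 24 - x ^ 6 / 720 + x ^ 8 / 40320 := by
  have h := tay_mono
    (f := fun x => (1 - x ^ 2 / 2 + x ^ 4 / 24 - x ^ 6 / 720 + x ^ 8 / 40320) - cos x)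
    (f' := fun x => sin x - (x - x ^ 3 / 6 + x ^ 5 / 120 - x ^ 7 / 5040))
    (fun y => by
      have h := (((((hasDerivAt_const y (1 : ℝ)).sub ((hasDerivAt_pow 2 y).div_const 2)).add
        ((hasDerivAt_pow 4 y).div_const 24)).sub ((hasDerivAt_pow 6 y).div_const 720)).add
        ((hasDerivAt_pow 8 y).div_const 40320)).sub (hasDerivAt_cos y)
      refine h.congr_deriv ?_
      simp
      ring) (fun y hy => by linarith [sin_ge_7 hy])
    (by simp) hx
  linarith

theorem sin_le_9 {x : ℝ} (hx : 0 ≤ x) :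
    sin x ≤ x - x ^ 3 / 6 + x ^ 5 / 120 - x ^ 7 / 5040 + x ^ 9 / 362880 := by
  have h := tay_mono
    (f := fun x => (x - x ^ 3 / 6 + x ^ 5 / 120 - x ^ 7 / 5040 + x ^ 9 / 362880) - sin x)
    (f' := fun x => (1 - x ^ 2 / 2 + x ^ 4 / 24 - x ^ 6 / 720 + x ^ 8 / 40320) - cos x)
    (fun y => by
      have h := (((((hasDerivAt_id y).sub ((hasDerivAt_pow 3 y).div_const 6)).add
        ((hasDerivAt_pow 5 y).div_const 120)).sub ((hasDerivAt_pow 7 y).div_const 5040)).add
        ((hasDerivAt_pow 9 y).div_const 362880)).sub (hasDerivAt_sin y)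
      refine h.congr_deriv ?_
      simp
      ring) (fun y hy => by linarith [cos_le_8 hy])
    (by simp) hx
  linarith

theorem sin_98 : 83049 / 100000 ≤ sin (49 / 50) ∧ sin (49 / 50) ≤ 83050 / 100000 := by
  have h1 := sin_ge_7 (x := 49 / 50) (by norm_num)
  have h2 := sin_le_9 (x := 49 / 50) (by norm_num)
  constructor
  · refine le_trans ?_ h1; norm_num
  · refine h2.trans ?_; norm_num

theorem cos_98 : 5570 / 10000 ≤ cos (49 / 50) ∧ cos (49 / 50) ≤ 55704 / 100000 := by
  have h1 := cos_ge_6 (x := 49 / 50) (by norm_num)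
  have h2 := cos_le_8 (x := 49 / 50) (by norm_num)
  constructor
  · refine le_trans ?_ h1; norm_num
  · refine h2.trans ?_; norm_num

theorem sin_105 : 8674 / 10000 ≤ sin (21 / 20) ∧ sin (21 / 20) ≤ 86743 / 100000 := by
  have h1 := sin_ge_7 (x := 21 / 20) (by norm_num)
  have h2 := sin_le_9 (x := 21 / 20) (by norm_num)
  constructor
  · refine le_trans ?_ h1; norm_num
  · refine h2.trans ?_; norm_num

theorem cos_105 : 4975 / 10000 ≤ cos (21 / 20) ∧ cos (21 / 20) ≤ 4976 / 10000 := by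
  have h1 := cos_ge_6 (x := 21 / 20) (by norm_num)
  have h2 := cos_le_8 (x := 21 / 20) (by norm_num)
  constructor
  · refine le_trans ?_ h1; norm_num
  · refine h2.trans ?_; norm_num

end Pool.Agent.H46.KO
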