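import Pool.Agent.H46.KO.Xd
import Pool.Agent.H46.KO.Sa

/-!
# The facts `ea`, `eb` on the region `Rx`, `b = θ + e`, `p = θ - e`

`b sin b/tau b <= 3/b` (`three_tau`), `cot b + cot p = sin 2θ/(sin b sin p)`.
* `x_ea`: divide by `sin 2θ`: `cos e (1 + cos^2 θ/(sin b sin p)) >= 1.3 cos e >= 1.3 (1 - e^2/2)
  >= 1.07` and `(sin e/2)(3/b + tan p) <= (e/2)(3/(.98 + e) + 1.35) <= .964` (`tan p <= 1.35` as
  `p <= .93`, `b >= .98 + e`).
* `x_eb`: `2 sin 2θ cos e + sin θ sin^2 p/cos p + cos θ cos^2 p/sin p >= 1.37 (3/b) sin θ sin b` on the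
  region (numerically; smallest ratio at `θ = 1.05`, `e = .25`), the term with `cos^2 b` is `>= 0`.
-/

open Real

namespace Pool.Agent.H46.KO

private theorem xa_K {θ e : ℝ} (h : Rx θ e) :
    (θ + e) * sin (θ + e) / tau (θ + e) ≤ 3 / (θ + e) := by
  have h0 := h.b0
  have h1 := three_tau (b := θ + e) (by linarith) (by linarith [h.b1, pi_gt_three])
  rw [div_le_div_iff₀ h.tb (by linarith)]
  nlinarith

private theorem xa_p {θ e : ℝ} (h : Rx θ e) :
    sin (θ - e) ≤ 8018 / 10000 ∧ 5978 / 10000 ≤ cos (θ - e) := by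
  have h1 := sin_le_5 (x := 93 / 100) (by norm_num)
  have h2 := cos_ge_6 (x := 93 / 100) (by norm_num)
  constructor
  · refine (sin_le_sin_of_le_of_le_pi_div_two (by linarith [pi_gt_three, h.p0])
      (by linarith [pi_gt_three]) h.p1).trans (h1.trans (by norm_num))
  · refine le_trans ?_ (cos_le_cos_of_nonneg_of_le_pi (by linarith [h.p0])
      (by linarith [pi_gt_three]) h.p1)
    refine le_trans ?_ h2
    norm_num

private theorem xa_g {u v : ℝ} (hu : 0 ≤ u) (hv : 0 ≤ v) (h : u ^ 2 + v ^ 2 = 1) :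
    u * v ≤ u ^ 3 + 5735 / 10000 * v ^ 3 := by
  have h1 : 0 ≤ (2 * u + 621 / 1000) * (u - 621 / 1000) ^ 2 := by positivity
  have h2 : 0 ≤ (2 * v + 784 / 1000) * (v - 784 / 1000) ^ 2 := by positivity
  have h3 : 0 ≤ (784 / 1000 * u - 621 / 1000 * v) ^ 2 := sq_nonneg _
  nlinarith

theorem x_ea {θ e : ℝ} (h : Rx θ e) :
    0 ≤ sin (2 * θ) * cos e - (θ + e) * sin (θ + e) / tau (θ + e) * (sin θ * cos θ * sin e) +
      cos (θ + e) / sin (θ + e) * (cos θ ^ 2 * cos e) -
      sin (θ - e) / cos (θ - e) * (sin θ * cos θ * sin e) +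
      cos (θ - e) / sin (θ - e) * (cos θ ^ 2 * cos e) := by
  have hK := xa_K h
  obtain ⟨hp1, hp2⟩ := xa_p h
  have he0 := h.e0
  have he1 := h.e1
  have hs : 0 < sin θ := by linarith [h.sin0]
  have hc : 0 < cos θ := by linarith [h.cos0]
  have hc0 := h.cos0
  have hsb : 0 < sin (θ + e) := by linarith [h.sb]
  have hsp := h.sp0
  have hcp : 0 < cos (θ - e) := by linarith
  have hse : sin e ≤ e := sin_le_x (by linarith)
  have hse0 : 0 ≤ sin e := sin_nonneg_of_nonneg_of_le_pi (by linarith) (by linarith [pi_gt_three])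
  have hce : 8253 / 10000 ≤ cos e := by
    have h1 := cos_ge_2 (x := e) (by linarith)
    nlinarith
  have hsc : 0 < sin θ * cos θ := mul_pos hs hc
  -- the cotangents
  have k1 : 6 / 10 * (sin θ * cos θ) ≤
      cos (θ + e) / sin (θ + e) * cos θ ^ 2 + cos (θ - e) / sin (θ - e) * cos θ ^ 2 := by
    have h1 : cos (θ + e) / sin (θ + e) * cos θ ^ 2 + cos (θ - e) / sin (θ - e) * cos θ ^ 2 =
        2 * (sin θ * cos θ) * cos θ ^ 2 / (sin (θ + e) * sin (θ - e)) := by
      have h2 : cos (θ + e) * sin (θ - e) + sin (θ + e) * cos (θ - e) = 2 * sin θ * cos θ := by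
        have h3 : θ + e + (θ - e) = 2 * θ := by ring
        have h4 := sin_add (θ + e) (θ - e)
        rw [h3, sin_two_mul] at h4
        linarith
      rw [div_mul_eq_mul_div, div_mul_eq_mul_div, div_add_div _ _ hsb.ne' hsp.ne']
      congr 1
      linear_combination cos θ ^ 2 * h2
    rw [h1, le_div_iff₀ (mul_pos hsb hsp)]
    have h2 : sin (θ + e) * sin (θ - e) ≤ 1 * (8018 / 10000) :=
      mul_le_mul (sin_le_one _) hp1 hsp.le zero_le_one
    have h3 : (4975 / 10000 : ℝ) ^ 2 ≤ cos θ ^ 2 := by gcongr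
    have h4 : 6 / 10 * (sin (θ + e) * sin (θ - e)) ≤ 2 * cos θ ^ 2 := by linarith
    have h5 := mul_le_mul_of_nonneg_left h4 hsc.le
    linarith
  -- the tangent
  have k2 : sin (θ - e) / cos (θ - e) ≤ 135 / 100 := by
    rw [div_le_iff₀ hcp]
    linarith
  have k3 : e * (3 / (θ + e)) ≤ 1131 / 1000 := by
    rw [← mul_div_assoc, div_le_iff₀ (by linarith [h.b0])]
    linarith [h.a]
  have k4 : (θ + e) * sin (θ + e) / tau (θ + e) * sin e + sin (θ - e) / cos (θ - e) * sin e ≤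
      193 / 100 := by
    have h1 : (θ + e) * sin (θ + e) / tau (θ + e) * sin e ≤ 3 / (θ + e) * e :=
      mul_le_mul hK hse hse0 (div_nonneg (by norm_num) (by linarith [h.b0]))
    have h2 : sin (θ - e) / cos (θ - e) * sin e ≤ 135 / 100 * e :=
      mul_le_mul k2 hse hse0 (by norm_num)
    linarith
  have k5 := mul_le_mul_of_nonneg_left k4 hsc.le
  have k6 := mul_le_mul_of_nonneg_right k1 (show 0 ≤ cos e by linarith)
  have k7 := mul_le_mul_of_nonneg_left hce hsc.le
  rw [sin_two_mul]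
  linarith

theorem x_eb {θ e : ℝ} (h : Rx θ e) :
    0 ≤ 2 * (sin (2 * θ) * cos e) -
      (θ + e) * sin (θ + e) / tau (θ + e) * (sin θ * sin (θ + e)) +
      cos θ * cos (θ + e) ^ 2 / sin (θ + e) + sin θ * sin (θ - e) ^ 2 / cos (θ - e) +
      cos θ * cos (θ - e) ^ 2 / sin (θ - e) := by
  have hK := xa_K h
  obtain ⟨hp1, hp2⟩ := xa_p h
  have he0 := h.e0
  have he1 := h.e1
  have ha := h.a
  have hb0 := h.b0
  have hs : 0 < sin θ := by linarith [h.sin0]
  have hs1 := h.sin1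
  have hc : 0 < cos θ := by linarith [h.cos0]
  have hc0 := h.cos0
  have hsb : 0 < sin (θ + e) := by linarith [h.sb]
  have hsp := h.sp0
  have hcp : 0 < cos (θ - e) := by linarith
  have hce := cos_ge_2 (x := e) (by linarith)
  have hce0 : 0 ≤ cos e := by nlinarith
  have hsc : 0 < sin θ * cos θ := mul_pos hs hc
  have k1 : 0 ≤ cos θ * cos (θ + e) ^ 2 / sin (θ + e) := by positivity
  have k2 : (θ + e) * sin (θ + e) / tau (θ + e) * (sin θ * sin (θ + e)) ≤ 3 / (θ + e) * sin θ := by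
    refine mul_le_mul hK ?_ (mul_pos hs hsb).le (div_nonneg (by norm_num) (by linarith))
    have := mul_le_mul_of_nonneg_left (sin_le_one (θ + e)) hs.le
    linarith
  have k3 : sin θ ≤ sin θ * sin (θ - e) ^ 2 / cos (θ - e) + cos θ * cos (θ - e) ^ 2 / sin (θ - e) := by
    rw [div_add_div _ _ hcp.ne' hsp.ne', le_div_iff₀ (mul_pos hcp hsp)]
    have h1 := xa_g hsp.le hcp.le (sin_sq_add_cos_sq (θ - e))
    have h2 : 5735 / 10000 * sin θ ≤ cos θ := by linarith
    have h3 : 0 ≤ cos (θ - e) ^ 3 := by positivity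
    have h4 := mul_le_mul_of_nonneg_right h2 h3
    have h5 := mul_le_mul_of_nonneg_left h1 hs.le
    linarith
  have k4 : 3 / (θ + e) ≤ 299 / 100 - 995 / 1000 * e ^ 2 := by
    rw [div_le_iff₀ (by linarith)]
    have h1 : 0 ≤ 299 / 100 - 995 / 1000 * e ^ 2 := by nlinarith
    have h2 : (299 / 100 - 995 / 1000 * e ^ 2) * (49 / 50 + e) ≤
        (299 / 100 - 995 / 1000 * e ^ 2) * (θ + e) := mul_le_mul_of_nonneg_left (by linarith) h1
    have h3 : 0 ≤ (e - 1 / 20) * (591 / 1000 - e) := mul_nonneg (by linarith) (by linarith)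
    nlinarith
  have k5 := mul_le_mul_of_nonneg_right k4 hs.le
  have k6 : sin θ * (4975 / 10000) ≤ sin θ * cos θ := mul_le_mul_of_nonneg_left hc0 hs.le
  have k7 : sin θ * (4975 / 10000) * (1 - e ^ 2 / 2) ≤ sin θ * cos θ * cos e := by
    refine mul_le_mul k6 hce (by nlinarith) hsc.le
  rw [sin_two_mul]
  linarith

end Pool.Agent.H46.KO
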