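import Pool.Agent.H46.KO.Ba
import Pool.Agent.H46.KO.Sc
import Pool.Agent.H46.KO.Tay

/-!
# The region `49/50 <= θ <= 21/20`, `5/2 (θ - 24/25) <= e`, `θ + e <= π/2`
-/

open Real

namespace Pool.Agent.H46.KO

structure Rx (θ e : ℝ) : Prop where
  a : 49 / 50 ≤ θ
  b : θ ≤ 21 / 20
  c : 5 / 2 * (θ - 24 / 25) ≤ e
  d : θ + e ≤ π / 2

namespace Rx

variable {θ e : ℝ} (h : Rx θ e)

include h

theorem e0 : 1 / 20 ≤ e := by linarith [h.a, h.c]

theorem e1 : e ≤ 591 / 1000 := by linarith [h.a, h.d, pi_lt_d4]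

theorem b0 : 103 / 100 ≤ θ + e := by linarith [h.a, h.e0]

theorem b1 : θ + e ≤ 15708 / 10000 := by linarith [h.d, pi_lt_d4]

theorem p0 : 389 / 1000 ≤ θ - e := by linarith [h.a, h.e1]

theorem p1 : θ - e ≤ 93 / 100 := by linarith [h.a, h.c]

theorem sin0 : 83049 / 100000 ≤ sin θ :=
  sin_98.1.trans (sin_le_sin_of_le_of_le_pi_div_two (by linarith [pi_gt_three])
    (by linarith [h.d, h.e0]) h.a)

theorem sin1 : sin θ ≤ 86743 / 100000 :=
  (sin_le_sin_of_le_of_le_pi_div_two (by linarith [h.a, pi_gt_three])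
    (by linarith [pi_gt_three]) h.b).trans sin_105.2

theorem cos0 : 4975 / 10000 ≤ cos θ :=
  cos_105.1.trans (cos_le_cos_of_nonneg_of_le_pi (by linarith [h.a])
    (by linarith [pi_gt_three]) h.b)

theorem cos1 : cos θ ≤ 55704 / 100000 :=
  (cos_le_cos_of_nonneg_of_le_pi (by norm_num) (by linarith [h.b, pi_gt_three]) h.a).trans cos_98.2

theorem sb : sin θ ≤ sin (θ + e) :=
  sin_le_sin_of_le_of_le_pi_div_two (by linarith [pi_gt_three, h.a]) h.d (by linarith [h.e0])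

theorem sp : sin (θ - e) ≤ sin θ :=
  sin_le_sin_of_le_of_le_pi_div_two (by linarith [pi_gt_three, h.p0])
    (by linarith [h.d, h.e0]) (by linarith [h.e0])

theorem cb : 0 ≤ cos (θ + e) :=
  cos_nonneg_of_mem_Icc ⟨by linarith [pi_gt_three, h.b0], h.d⟩

theorem cp : cos θ ≤ cos (θ - e) :=
  cos_le_cos_of_nonneg_of_le_pi (by linarith [h.p0]) (by linarith [h.b, pi_gt_three])
    (by linarith [h.e0])

theorem sp0 : 0 < sin (θ - e) :=
  sin_pos_of_pos_of_lt_pi (by linarith [h.p0]) (by linarith [h.p1, pi_gt_three])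

theorem tb : 0 < tau (θ + e) := tau_pos (by linarith [h.b0]) (by linarith [h.b1, pi_gt_three])

end Rx

theorem x_vv {θ e : ℝ} (h : Rx θ e) : 0 ≤ VV θ e := by
  unfold VV
  have h1 := h.sb
  have h2 := h.sp
  have h3 := h.sin0
  have h4 := h.cp
  have h5 := h.cos0
  have h6 := h.tb
  have h7 := h.b0
  have h8 : 0 ≤ sin (2 * θ + e) :=
    sin_nonneg_of_nonneg_of_le_pi (by linarith [h.a, h.e0])
      (by linarith [h.b, h.d, pi_gt_d2])
  have h9 : 0 ≤ (θ + e) * (sin (θ + e) - sin θ) := mul_nonneg (by linarith) (by linarith)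
  have h10 : 0 ≤ sin (θ + e) * sin (2 * θ + e) := mul_nonneg (by linarith) h8
  have h11 : 0 ≤ (sin θ - sin (θ - e)) * tau (θ + e) := mul_nonneg (by linarith) h6.le
  have h12 := mul_nonneg (add_nonneg h9 h10) (by linarith : 0 ≤ cos (θ - e))
  linarith

theorem x_f5 {θ e : ℝ} (h : Rx θ e) :
    cos θ * cos e * (θ + e - sin (θ + e) * cos (θ + e)) ≤ sin (θ + e) ^ 3 := by
  have h1 := one_var (b := θ + e) (by linarith [h.b0]) (by linarith [h.b1])
  have h2 : cos θ * cos e = (cos (θ + e) + cos (θ - e)) / 2 := by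
    rw [cos_add, cos_sub]; ring
  have h3 : cos θ * cos e ≤ (1 + cos (θ + e)) / 2 := by
    rw [h2]; linarith [cos_le_one (θ - e)]
  have h4 : 0 ≤ θ + e - sin (θ + e) * cos (θ + e) := by
    have h5 : sin (θ + e) ≤ θ + e := sin_le_x (by linarith [h.b0])
    have h6 : 0 ≤ sin (θ + e) := by linarith [h.sb, h.sin0]
    have h7 := cos_le_one (θ + e)
    have h8 := h.cb
    nlinarith
  have h5 := mul_le_mul_of_nonneg_right h3 h4
  linarith

end Pool.Agent.H46.KO
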